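import Pool.Agent.V11256.ST.Mem

/-!
# `(p + 2)`-star colourability of `K_{1,p+1}`-free `2p`-regular graphs is `NP`-complete
-/

set_option autoImplicit false
set_option linter.unusedSectionVars false

namespace Pool.Agent.V11256.ST

open Pool.Agent.NPC Pool.Agent.H692R2

theorem StarCol.of_iso {k : ℕ} {V W : Type*} {G : SimpleGraph V} {H : SimpleGraph W}
    (e : G ≃g H) (h : StarCol k G) : StarCol k H := by
  obtain ⟨c, h1, h2⟩ := h
  refine ⟨fun w => c (e.symm w), ?_, ?_⟩
  · intro u v huv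
    exact h1 _ _ (e.symm.map_adj_iff.2 huv)
  · intro x y z w hxy hyz hzw hxz hyw hxw
    exact h2 _ _ _ _ (e.symm.map_adj_iff.2 hxy) (e.symm.map_adj_iff.2 hyz)
      (e.symm.map_adj_iff.2 hzw) (fun h => hxz (e.symm.injective h))
      (fun h => hyw (e.symm.injective h)) (fun h => hxw (e.symm.injective h))

theorem ncard_of_iso {V W : Type*} {G : SimpleGraph V} {H : SimpleGraph W} (e : G ≃g H) {d : ℕ}
    (h : ∀ v, (G.neighborSet v).ncard = d) (w : W) : (H.neighborSet w).ncard = d := by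
  rw [← h (e.symm w), ← Nat.card_coe_set_eq, ← Nat.card_coe_set_eq]
  exact Nat.card_congr (e.symm.mapNeighborSet w)

theorem free_of_iso {U V W : Type*} {F : SimpleGraph U} {G : SimpleGraph V} {H : SimpleGraph W}
    (e : G ≃g H) (h : IsEmpty (F ↪g G)) : IsEmpty (F ↪g H) :=
  ⟨fun φ => h.elim (e.symm.toEmbedding.comp φ)⟩

/-- The class of graphs. -/
def Inst (p : ℕ) (x : LG) : Prop := (∀ v, ((gr x).neighborSet v).ncard = 2 * p) ∧
    IsEmpty (completeBipartiteGraph (Fin 1) (Fin (p + 1)) ↪g gr x)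

theorem hardPr_star (p : ℕ) (hp : 3 ≤ p) :
    HardPr (Inst p) (fun x : LG => StarCol (p + 2) (gr x)) := by
  refine (hardPr_col p hp).trans (poly_red p) (fun E _ => ?_) (fun E _ => ?_)
  · classical
    obtain ⟨e⟩ := listIso E p hp
    exact ⟨ncard_of_iso e ((data E p hp).fs (hQ p)).nbr_card,
      free_of_iso e ((data E p hp).fs (hQ p)).claw_free⟩
  · obtain ⟨e⟩ := listIso E p hp
    constructor
    · intro h
      exact StarCol.of_iso e (star_of_col E p hp h)
    · intro h
      obtain ⟨c, hc⟩ := StarCol.of_iso e.symm h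
      exact col_of_star E p hp hc

theorem star_main (p : ℕ) (hp : 3 ≤ p) :
    (InNPP fun x : LG => (∀ v, ((gr x).neighborSet v).ncard = 2 * p) ∧
      IsEmpty (completeBipartiteGraph (Fin 1) (Fin (p + 1)) ↪g gr x) ∧
      StarCol (p + 2) (gr x)) ∧
    ∀ L : Set (List Bool), InNP L → ∃ f : List Bool → LG, PolyTime (fun w => bits (f w)) ∧
      (∀ w v, ((gr (f w)).neighborSet v).ncard = 2 * p) ∧
      (∀ w, IsEmpty (completeBipartiteGraph (Fin 1) (Fin (p + 1)) ↪g gr (f w))) ∧
      ∀ w, w ∈ L ↔ StarCol (p + 2) (gr (f w)) := by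
  refine ⟨inNP_restricted _ _ _, fun L hL => ?_⟩
  obtain ⟨f, hf, hpr, hfL⟩ := hardPr_star p hp L hL
  exact ⟨f, PC.toPolyTime hf, fun w => (hpr w).1, fun w => (hpr w).2, hfL⟩

/-- Hardness of the restricted problem, as a language. -/
theorem npHard_of_hardPr {α : Type} [TEnc α] {Pr P Q : α → Prop} (h : HardPr Pr P)
    (hQ : ∀ a, Pr a → (P a ↔ Q a)) : NPHardP Q := by
  refine HardI.toNPHardP fun L hL => ?_
  obtain ⟨f, hf, hpr, hfL⟩ := h L hL
  exact ⟨f, hf, fun x => (hfL x).trans (hQ _ (hpr x))⟩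

/-- The restricted problem without the claw condition is in `NP`. -/
theorem inNP_regular (d k : ℕ) : InNPP (fun x : LG =>
    (∀ v, ((gr x).neighborSet v).ncard = d) ∧ StarCol k (gr x)) := by
  refine inNPP_of (β := List (ℕ × ℕ)) (R := fun y => regB d y.1 && verB k y.1 y.2)
    (Poly.and ((poly_regB d).comp (Poly.fst Poly.id)) (poly_verB k))
    (Polynomial.C (2 * sz k + 2) * Polynomial.X) ?_
  intro x
  simp only [Bool.and_eq_true, regB_iff]
  constructor
  · rintro ⟨h1, c, hc⟩
    classical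
    refine ⟨x.1.map fun v => (v, if h : v ∈ x.1 then (c ⟨v, h⟩).1 else 0), ?_, h1, ?_⟩
    · refine (sz_cert k _ (fun v => ?_) x.1).trans ?_
      · split_ifs
        · exact (c _).2.le
        · exact Nat.zero_le _
      · simp only [Polynomial.eval_mul, Polynomial.eval_C, Polynomial.eval_X]
        refine Nat.mul_le_mul_left _ ?_
        obtain ⟨x1, x2⟩ := x
        rw [sz_pair]
        simp only
        omega
    · exact verB_complete c hc _ (fun v hv => by rw [dif_pos hv])
  · rintro ⟨w, _, h1, h3⟩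
    exact ⟨h1, verB_sound h3⟩

end Pool.Agent.V11256.ST
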