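import Pool.Agent.V11256.ST.Enc
import Pool.Agent.NPC.Dec

/-!
# Membership in `NP`
-/

set_option autoImplicit false
set_option linter.unusedSectionVars false

namespace Pool.Agent.V11256.ST

open Pool.Agent.NPC

/-- A graph is given by the list of its vertices and the list of its edges. -/
abbrev LG : Type := List ℕ × List (ℕ × ℕ)

/-- Adjacency, as a Boolean function. -/
def adjB (x : LG) (u v : ℕ) : Bool :=
  !(decide (u = v)) && (decide ((u, v) ∈ x.2) || decide ((v, u) ∈ x.2))

theorem adjB_iff (x : LG) (u v : {v : ℕ // v ∈ x.1}) : adjB x u.1 v.1 = true ↔ (gr x).Adj u v := by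
  simp only [adjB, gr, Bool.and_eq_true, Bool.not_eq_true', decide_eq_false_iff_not,
    Bool.or_eq_true, decide_eq_true_eq, ne_eq, Subtype.ext_iff]

/-- Lists of `n` elements of `l`, pairwise related. -/
def tup (r : ℕ → ℕ → Bool) (l : List ℕ) : ℕ → List (List ℕ)
  | 0 => [[]]
  | n + 1 => (tup r l n).flatMap fun t => (l.filter fun v => t.all fun u => r v u).map
      fun v => v :: t

theorem mem_tup {r : ℕ → ℕ → Bool} {l : List ℕ} {n : ℕ} : ∀ {t : List ℕ}, t ∈ tup r l n ↔
    t.length = n ∧ (∀ v ∈ t, v ∈ l) ∧ t.Pairwise (fun a b => r a b = true) := by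
  induction n with
  | zero =>
    intro t
    simp only [tup, List.mem_singleton]
    constructor
    · rintro rfl; simp
    · rintro ⟨h, _⟩; exact List.length_eq_zero_iff.1 h
  | succ n ih =>
    intro t
    simp only [tup, List.mem_flatMap, List.mem_map, List.mem_filter, List.all_eq_true]
    constructor
    · rintro ⟨t', ht', v, ⟨hv, hr⟩, rfl⟩
      obtain ⟨h1, h2, h3⟩ := ih.1 ht'
      refine ⟨by simp [h1], ?_, List.pairwise_cons.2 ⟨hr, h3⟩⟩
      intro u hu
      rcases List.mem_cons.1 hu with rfl | hu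
      · exact hv
      · exact h2 u hu
    · rintro ⟨h1, h2, h3⟩
      cases t with
      | nil => simp at h1
      | cons v t' =>
        refine ⟨t', ih.2 ⟨by simpa using h1, fun u hu => h2 u (List.mem_cons_of_mem _ hu),
          (List.pairwise_cons.1 h3).2⟩, v, ⟨h2 v List.mem_cons_self,
          (List.pairwise_cons.1 h3).1⟩, rfl⟩

/-- The neighbours of `v`. -/
def nb (x : LG) (v : ℕ) : List ℕ := x.1.filter (adjB x v)

/-- Distinctness. -/
def neB (a b : ℕ) : Bool := !(decide (a = b))

/-- There are at least `m` distinct neighbours. -/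
def least (x : LG) (v m : ℕ) : Bool := !(tup neB (nb x v) m).isEmpty

/-- Regularity. -/
def regB (d : ℕ) (x : LG) : Bool := x.1.all fun v => least x v d && !(least x v (d + 1))

/-- Distinct and not adjacent. -/
def indB (x : LG) (a b : ℕ) : Bool := !(decide (a = b)) && !(adjB x a b)

/-- No induced star with `m` leaves. -/
def freeB (m : ℕ) (x : LG) : Bool := x.1.all fun v => (tup (indB x) (nb x v) m).isEmpty

theorem isEmpty_false_iff {α : Type*} (l : List α) : (!l.isEmpty) = true ↔ ∃ a, a ∈ l := by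
  cases l <;> simp

theorem ncard_nb (x : LG) (v : {v : ℕ // v ∈ x.1}) :
    ((gr x).neighborSet v).ncard = (nb x v.1).toFinset.card := by
  rw [← Set.ncard_coe_finset, ← Set.ncard_image_of_injective _ Subtype.val_injective]
  congr 1
  ext u
  simp only [Set.mem_image, SimpleGraph.mem_neighborSet, Finset.mem_coe, List.mem_toFinset, nb,
    List.mem_filter]
  constructor
  · rintro ⟨w, hw, rfl⟩
    exact ⟨w.2, (adjB_iff x v w).2 hw⟩
  · rintro ⟨h1, h2⟩
    exact ⟨⟨u, h1⟩, (adjB_iff x v ⟨u, h1⟩).1 h2, rfl⟩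

theorem least_iff (x : LG) (v m : ℕ) : least x v m = true ↔ m ≤ (nb x v).toFinset.card := by
  unfold least
  rw [isEmpty_false_iff]
  constructor
  · rintro ⟨t, ht⟩
    obtain ⟨h1, h2, h3⟩ := mem_tup.1 ht
    have hnd : t.Nodup := by
      refine h3.imp ?_
      intro a b h
      simpa [neB] using h
    rw [← h1, ← List.toFinset_card_of_nodup hnd]
    refine Finset.card_le_card fun u hu => ?_
    rw [List.mem_toFinset] at hu ⊢
    exact h2 u hu
  · intro h
    obtain ⟨s, hs, hc⟩ := Finset.exists_subset_card_eq h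
    refine ⟨s.toList, mem_tup.2 ⟨by rw [Finset.length_toList, hc], ?_, ?_⟩⟩
    · intro u hu
      exact List.mem_toFinset.1 (hs (Finset.mem_toList.1 hu))
    · have := s.nodup_toList
      refine List.Pairwise.imp ?_ this
      intro a b h
      simpa [neB] using h

theorem regB_iff (d : ℕ) (x : LG) : regB d x = true ↔
    ∀ v, ((gr x).neighborSet v).ncard = d := by
  unfold regB
  simp only [List.all_eq_true, Bool.and_eq_true, Bool.not_eq_true']
  constructor
  · intro h v
    obtain ⟨h1, h2⟩ := h v.1 v.2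
    rw [ncard_nb]
    rw [least_iff] at h1
    have h3 : ¬ (d + 1 ≤ (nb x v.1).toFinset.card) := by
      rw [← least_iff, h2]; simp
    omega
  · intro h v hv
    have := h ⟨v, hv⟩
    rw [ncard_nb] at this
    refine ⟨(least_iff _ _ _).2 (by simp only at this; omega), ?_⟩
    rw [Bool.eq_false_iff, ne_eq, least_iff]
    simp only at this
    omega

theorem freeB_iff (m : ℕ) (x : LG) : freeB m x = true ↔
    IsEmpty (completeBipartiteGraph (Fin 1) (Fin m) ↪g gr x) := by
  unfold freeB
  simp only [List.all_eq_true]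
  constructor
  · intro h
    refine ⟨fun φ => ?_⟩
    have h1 := h (φ (Sum.inl 0)).1 (φ (Sum.inl 0)).2
    rw [List.isEmpty_iff] at h1
    have h2 : List.ofFn (fun i => (φ (Sum.inr i)).1) ∈ tup (indB x)
        (nb x (φ (Sum.inl 0)).1) m := by
      refine mem_tup.2 ⟨by simp, ?_, ?_⟩
      · intro v hv
        rw [List.mem_ofFn] at hv
        obtain ⟨i, rfl⟩ := hv
        refine List.mem_filter.2 ⟨(φ (Sum.inr i)).2, ?_⟩
        rw [adjB_iff, φ.map_adj_iff]
        simp
      · rw [List.pairwise_ofFn]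
        intro i j hij
        have h3 : ¬ (gr x).Adj (φ (Sum.inr i)) (φ (Sum.inr j)) := by
          rw [φ.map_adj_iff]; simp
        rw [← adjB_iff] at h3
        have h4 : (φ (Sum.inr i)).1 ≠ (φ (Sum.inr j)).1 := fun e =>
          hij.ne (Sum.inr_injective (φ.injective (Subtype.ext e)))
        simp [indB, h4, h3]
    rw [h1] at h2
    simp at h2
  · intro h v hv
    rw [List.isEmpty_iff, List.eq_nil_iff_forall_not_mem]
    intro t ht
    obtain ⟨h1, h2, h3⟩ := mem_tup.1 ht
    subst h1
    have hmem : ∀ i : Fin t.length, t.get i ∈ x.1 ∧ adjB x v (t.get i) = true := fun i =>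
      List.mem_filter.1 (h2 _ (List.get_mem t i))
    rw [List.pairwise_iff_get] at h3
    have hind : ∀ i j : Fin t.length, i ≠ j → t.get i ≠ t.get j ∧ adjB x (t.get i) (t.get j) =
        false := by
      intro i j hij
      have aux : ∀ i j : Fin t.length, i < j → t.get i ≠ t.get j ∧
          adjB x (t.get i) (t.get j) = false := by
        intro i j h
        have := h3 i j h
        simpa [indB] using this
      rcases lt_or_gt_of_ne hij with g | g
      · exact aux i j g
      · obtain ⟨g1, g2⟩ := aux j i g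
        refine ⟨g1.symm, ?_⟩
        have e : adjB x (t.get i) (t.get j) = adjB x (t.get j) (t.get i) := by
          unfold adjB
          rw [Bool.or_comm]
          congr 1
          simp [eq_comm]
        rw [e, g2]
    refine h.elim ⟨⟨Sum.elim (fun _ => ⟨v, hv⟩) (fun i => ⟨t.get i, (hmem i).1⟩), ?_⟩, ?_⟩
    · rintro (a | a) (b | b) e
      · rw [Subsingleton.elim a b]
      · exfalso
        have e' : v = t.get b := congrArg Subtype.val e
        have := (hmem b).2
        rw [← e'] at this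
        simp [adjB] at this
      · exfalso
        have e' : t.get a = v := congrArg Subtype.val e
        have := (hmem a).2
        rw [e'] at this
        simp [adjB] at this
      · by_contra hne
        have hab : a ≠ b := fun e => hne (by rw [e])
        exact (hind a b hab).1 (congrArg Subtype.val e)
    · rintro (a | a) (b | b)
      · simp
      · simp only [Function.Embedding.coeFn_mk, Sum.elim_inl, Sum.elim_inr,
          completeBipartiteGraph_adj, Sum.isLeft_inl, Sum.isRight_inr, and_self, Sum.isRight_inl,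
          Sum.isLeft_inr, Bool.false_eq_true, or_false, iff_true]
        exact (adjB_iff x ⟨v, hv⟩ ⟨t.get b, (hmem b).1⟩).1 (hmem b).2
      · simp only [Function.Embedding.coeFn_mk, Sum.elim_inl, Sum.elim_inr,
          completeBipartiteGraph_adj, Sum.isLeft_inl, Sum.isRight_inr, and_self, Sum.isRight_inl,
          Sum.isLeft_inr, Bool.false_eq_true, false_or, iff_true]
        exact ((adjB_iff x ⟨v, hv⟩ ⟨t.get a, (hmem a).1⟩).1 (hmem a).2).symm
      · simp only [Function.Embedding.coeFn_mk, Sum.elim_inr, completeBipartiteGraph_adj,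
          Sum.isLeft_inr, Sum.isRight_inr, Bool.false_eq_true, and_true, and_false,
          or_false, iff_false]
        intro h5
        have hab : a ≠ b := fun e => h5.ne (by rw [e])
        rw [← adjB_iff] at h5
        rw [(hind a b hab).2] at h5
        simp at h5

/-! ### The certificates -/

/-- The colour given by a certificate. -/
def colB (w : List (ℕ × ℕ)) (v : ℕ) : ℕ :=
  ((w.filter fun e => decide (e.1 = v)).map fun e => e.2).head?.getD 0

/-- Verification. -/
def verB (k : ℕ) (x : LG) (w : List (ℕ × ℕ)) : Bool :=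
  (x.1.all fun a => decide (colB w a < k)) &&
  ((x.1.all fun a => x.1.all fun b => !(adjB x a b) || !(decide (colB w a = colB w b))) &&
  (x.1.all fun a => x.1.all fun b => !(adjB x a b) || (x.1.all fun c => !(adjB x b c) ||
    (x.1.all fun d => !(adjB x c d) || (decide (a = c) || (decide (b = d) || (decide (a = d) ||
      !(decide (colB w a = colB w c) && decide (colB w b = colB w d)))))))))

theorem verB_sound {k : ℕ} {x : LG} {w : List (ℕ × ℕ)} (h : verB k x w = true) :
    ∃ c : {v : ℕ // v ∈ x.1} → Fin k, IsStar (gr x) c := by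
  simp only [verB, Bool.and_eq_true, List.all_eq_true, decide_eq_true_eq, Bool.or_eq_true,
    Bool.not_eq_true', decide_eq_false_iff_not] at h
  obtain ⟨h1, h2, h3⟩ := h
  refine ⟨fun v => ⟨colB w v.1, h1 v.1 v.2⟩, ?_, ?_⟩
  · intro u v huv e
    rw [← adjB_iff] at huv
    have := h2 u.1 u.2 v.1 v.2
    rw [huv] at this
    simp only [Bool.true_eq_false, false_or] at this
    exact this (congrArg Fin.val e)
  · intro a b c d hab hbc hcd hac hbd had ⟨e1, e2⟩
    rw [← adjB_iff] at hab hbc hcd
    have h4 := h3 a.1 a.2 b.1 b.2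
    rw [hab] at h4
    simp only [Bool.true_eq_false, false_or] at h4
    have h5 := h4 c.1 c.2
    rw [hbc] at h5
    simp only [Bool.true_eq_false, false_or] at h5
    have h6 := h5 d.1 d.2
    rw [hcd] at h6
    simp only [Bool.true_eq_false, false_or] at h6
    rcases h6 with h6 | h6 | h6 | h6
    · exact hac (Subtype.ext h6)
    · exact hbd (Subtype.ext h6)
    · exact had (Subtype.ext h6)
    · have g1 : colB w a.1 = colB w c.1 := congrArg Fin.val e1
      have g2 : colB w b.1 = colB w d.1 := congrArg Fin.val e2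
      rw [g1, g2] at h6
      simp at h6

theorem colB_map (l : List ℕ) (f : ℕ → ℕ) {v : ℕ} (hv : v ∈ l) :
    colB (l.map fun v => (v, f v)) v = f v := by
  unfold colB
  induction l with
  | nil => simp at hv
  | cons a l ih =>
    by_cases h : a = v
    · subst h
      simp
    · have hv' : v ∈ l := by
        rcases List.mem_cons.1 hv with h' | h'
        · exact absurd h'.symm h
        · exact h'
      rw [List.map_cons, List.filter_cons_of_neg (by simpa using h)]
      exact ih hv'

theorem verB_complete {k : ℕ} {x : LG} (c : {v : ℕ // v ∈ x.1} → Fin k)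
    (hc : IsStar (gr x) c) (f : ℕ → ℕ) (hf : ∀ v (hv : v ∈ x.1), f v = c ⟨v, hv⟩) :
    verB k x (x.1.map fun v => (v, f v)) = true := by
  have hcol : ∀ v (hv : v ∈ x.1), colB (x.1.map fun v => (v, f v)) v = c ⟨v, hv⟩ := fun v hv => by
    rw [colB_map _ _ hv, hf v hv]
  simp only [verB, Bool.and_eq_true, List.all_eq_true, decide_eq_true_eq, Bool.or_eq_true,
    Bool.not_eq_true', decide_eq_false_iff_not]
  refine ⟨fun v hv => by rw [hcol v hv]; exact (c ⟨v, hv⟩).2, ?_, ?_⟩
  · intro a ha b hb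
    by_cases h : adjB x a b = true
    · right
      rw [hcol a ha, hcol b hb]
      intro e
      exact hc.1 _ _ ((adjB_iff x ⟨a, ha⟩ ⟨b, hb⟩).1 h) (Fin.ext e)
    · left; exact Bool.eq_false_iff.2 h
  · intro a ha b hb
    by_cases h1 : adjB x a b = true
    swap
    · left; exact Bool.eq_false_iff.2 h1
    right
    intro c' hc'
    by_cases h2 : adjB x b c' = true
    swap
    · left; exact Bool.eq_false_iff.2 h2
    right
    intro d hd
    by_cases h3 : adjB x c' d = true
    swap
    · left; exact Bool.eq_false_iff.2 h3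
    right
    by_cases h4 : a = c'
    · left; exact h4
    right
    by_cases h5 : b = d
    · left; exact h5
    right
    by_cases h6 : a = d
    · left; exact h6
    right
    rw [Bool.eq_false_iff, ne_eq, Bool.and_eq_true, decide_eq_true_eq, decide_eq_true_eq,
      hcol a ha, hcol c' hc', hcol b hb, hcol d hd]
    rintro ⟨e1, e2⟩
    exact hc.2 ⟨a, ha⟩ ⟨b, hb⟩ ⟨c', hc'⟩ ⟨d, hd⟩ ((adjB_iff x ⟨a, ha⟩ ⟨b, hb⟩).1 h1)
      ((adjB_iff x ⟨b, hb⟩ ⟨c', hc'⟩).1 h2) ((adjB_iff x ⟨c', hc'⟩ ⟨d, hd⟩).1 h3)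
      (fun e => h4 (congrArg Subtype.val e)) (fun e => h5 (congrArg Subtype.val e))
      (fun e => h6 (congrArg Subtype.val e)) ⟨Fin.ext e1, Fin.ext e2⟩

/-! ### Polynomial time -/

section

variable {α : Type} [TEnc α]

theorem poly_adjB {x : α → LG} {u v : α → ℕ} (hx : Poly x) (hu : Poly u) (hv : Poly v) :
    Poly (fun a => adjB (x a) (u a) (v a)) := by
  refine (Poly.and (Poly.not (Poly.decide_eq hu hv))
    (Poly.or (Poly.decide_mem (Poly.pair hu hv) (Poly.snd hx))
      (Poly.decide_mem (Poly.pair hv hu) (Poly.snd hx)))).congr fun a => ?_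
  unfold adjB
  congr 2 <;> exact decide_eq_decide.2 Iff.rfl

theorem poly_tup {r : α → ℕ → ℕ → Bool} {l : α → List ℕ}
    (hr : Poly (fun y : α × ℕ × ℕ => r y.1 y.2.1 y.2.2)) (hl : Poly l) (n : ℕ) :
    Poly (fun a => tup (r a) (l a) n) := by
  induction n with
  | zero => exact NPC.Poly.const [[]]
  | succ n ih =>
    simp only [tup]
    refine Poly.flatMap (F := fun a t => ((l a).filter fun v => t.all fun u => r a v u).map
      fun v => v :: t) ih ?_
    refine NPC.Poly.map (F := fun (y : α × List ℕ) v => v :: y.2) ?_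
      (Poly.cons (Poly.snd Poly.id) (Poly.snd (Poly.fst Poly.id)))
    refine Poly.filter (p := fun (y : α × List ℕ) v => y.2.all fun u => r y.1 v u)
      (hl.comp (Poly.fst Poly.id)) ?_
    refine Poly.all (p := fun (y : (α × List ℕ) × ℕ) u => r y.1.1 y.2 u)
      (Poly.snd (Poly.fst Poly.id)) ?_
    exact hr.comp (f := fun y : ((α × List ℕ) × ℕ) × ℕ => (y.1.1.1, y.1.2, y.2))
      (Poly.pair (Poly.fst (Poly.fst (Poly.fst Poly.id)))
        (Poly.pair (Poly.snd (Poly.fst Poly.id)) (Poly.snd Poly.id)))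

theorem poly_nb {x : α → LG} {v : α → ℕ} (hx : Poly x) (hv : Poly v) :
    Poly (fun a => nb (x a) (v a)) := by
  unfold nb
  exact Poly.filter (p := fun a u => adjB (x a) (v a) u) (Poly.fst hx)
    (poly_adjB (hx.comp (Poly.fst Poly.id)) (hv.comp (Poly.fst Poly.id)) (Poly.snd Poly.id))

theorem poly_least {x : α → LG} {v : α → ℕ} (hx : Poly x) (hv : Poly v) (m : ℕ) :
    Poly (fun a => least (x a) (v a) m) := by
  unfold least
  refine Poly.not (Poly.isEmpty (poly_tup (r := fun _ => neB) ?_ (poly_nb hx hv) m))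
  unfold neB
  exact Poly.not (Poly.decide_eq (Poly.fst (Poly.snd Poly.id)) (Poly.snd (Poly.snd Poly.id)))

theorem poly_regB (d : ℕ) : Poly (regB d) := by
  unfold regB
  refine Poly.all (p := fun (x : LG) v => least x v d && !(least x v (d + 1)))
    (Poly.fst Poly.id) ?_
  exact Poly.and (poly_least (Poly.fst Poly.id) (Poly.snd Poly.id) _)
    (Poly.not (poly_least (Poly.fst Poly.id) (Poly.snd Poly.id) _))

theorem poly_freeB (m : ℕ) : Poly (freeB m) := by
  unfold freeB
  refine Poly.all (p := fun (x : LG) v => (tup (indB x) (nb x v) m).isEmpty)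
    (Poly.fst Poly.id) ?_
  refine Poly.isEmpty (poly_tup (r := fun (y : LG × ℕ) => indB y.1) ?_
    (poly_nb (Poly.fst Poly.id) (Poly.snd Poly.id)) m)
  unfold indB
  have h1 : Poly (fun y : (LG × ℕ) × ℕ × ℕ => y.2.1) := Poly.fst (Poly.snd Poly.id)
  have h2 : Poly (fun y : (LG × ℕ) × ℕ × ℕ => y.2.2) := Poly.snd (Poly.snd Poly.id)
  exact Poly.and (Poly.not (Poly.decide_eq h1 h2))
    (Poly.not (poly_adjB (Poly.fst (Poly.fst Poly.id)) h1 h2))

theorem poly_colB {w : α → List (ℕ × ℕ)} {v : α → ℕ} (hw : Poly w) (hv : Poly v) :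
    Poly (fun a => colB (w a) (v a)) := by
  unfold colB
  refine Poly.head?_getD (NPC.Poly.map (F := fun _ (e : ℕ × ℕ) => e.2) ?_
    (Poly.snd (Poly.snd Poly.id))) 0
  exact Poly.filter (p := fun a (e : ℕ × ℕ) => decide (e.1 = v a)) hw
    (Poly.decide_eq (Poly.fst (Poly.snd Poly.id)) (hv.comp (Poly.fst Poly.id)))

theorem poly_verB (k : ℕ) : Poly (fun y : LG × List (ℕ × ℕ) => verB k y.1 y.2) := by
  unfold verB
  refine Poly.and ?_ (Poly.and ?_ ?_)
  · refine Poly.all (p := fun (y : LG × List (ℕ × ℕ)) a => decide (colB y.2 a < k))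
      (Poly.fst (Poly.fst Poly.id)) ?_
    exact Poly.decide_lt (poly_colB (Poly.snd (Poly.fst Poly.id)) (Poly.snd Poly.id))
      (NPC.Poly.const k)
  · refine Poly.all (p := fun (y : LG × List (ℕ × ℕ)) a => y.1.1.all fun b =>
      !(adjB y.1 a b) || !(decide (colB y.2 a = colB y.2 b))) (Poly.fst (Poly.fst Poly.id)) ?_
    refine Poly.all (p := fun (y : (LG × List (ℕ × ℕ)) × ℕ) b =>
      !(adjB y.1.1 y.2 b) || !(decide (colB y.1.2 y.2 = colB y.1.2 b)))
      (Poly.fst (Poly.fst (Poly.fst Poly.id))) ?_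
    have hx : Poly (fun y : ((LG × List (ℕ × ℕ)) × ℕ) × ℕ => y.1.1.1) :=
      Poly.fst (Poly.fst (Poly.fst Poly.id))
    have hw : Poly (fun y : ((LG × List (ℕ × ℕ)) × ℕ) × ℕ => y.1.1.2) :=
      Poly.snd (Poly.fst (Poly.fst Poly.id))
    have ha : Poly (fun y : ((LG × List (ℕ × ℕ)) × ℕ) × ℕ => y.1.2) :=
      Poly.snd (Poly.fst Poly.id)
    have hb : Poly (fun y : ((LG × List (ℕ × ℕ)) × ℕ) × ℕ => y.2) := Poly.snd Poly.id
    exact Poly.or (Poly.not (poly_adjB hx ha hb))
      (Poly.not (Poly.decide_eq (poly_colB hw ha) (poly_colB hw hb)))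
  · refine Poly.all (p := fun (y : LG × List (ℕ × ℕ)) a => y.1.1.all fun b =>
      !(adjB y.1 a b) || (y.1.1.all fun c => !(adjB y.1 b c) ||
      (y.1.1.all fun d => !(adjB y.1 c d) || (decide (a = c) || (decide (b = d) ||
      (decide (a = d) || !(decide (colB y.2 a = colB y.2 c) &&
      decide (colB y.2 b = colB y.2 d)))))))) (Poly.fst (Poly.fst Poly.id)) ?_
    refine Poly.all (p := fun (y : (LG × List (ℕ × ℕ)) × ℕ) b =>
      !(adjB y.1.1 y.2 b) || (y.1.1.1.all fun c => !(adjB y.1.1 b c) ||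
      (y.1.1.1.all fun d => !(adjB y.1.1 c d) || (decide (y.2 = c) || (decide (b = d) ||
      (decide (y.2 = d) || !(decide (colB y.1.2 y.2 = colB y.1.2 c) &&
      decide (colB y.1.2 b = colB y.1.2 d)))))))) (Poly.fst (Poly.fst (Poly.fst Poly.id))) ?_
    refine Poly.or (Poly.not (poly_adjB (Poly.fst (Poly.fst (Poly.fst Poly.id)))
      (Poly.snd (Poly.fst Poly.id)) (Poly.snd Poly.id))) ?_
    refine Poly.all (p := fun (y : ((LG × List (ℕ × ℕ)) × ℕ) × ℕ) c =>
      !(adjB y.1.1.1 y.2 c) ||
      (y.1.1.1.1.all fun d => !(adjB y.1.1.1 c d) || (decide (y.1.2 = c) || (decide (y.2 = d) ||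
      (decide (y.1.2 = d) || !(decide (colB y.1.1.2 y.1.2 = colB y.1.1.2 c) &&
      decide (colB y.1.1.2 y.2 = colB y.1.1.2 d)))))))
      (Poly.fst (Poly.fst (Poly.fst (Poly.fst Poly.id)))) ?_
    refine Poly.or (Poly.not (poly_adjB (Poly.fst (Poly.fst (Poly.fst (Poly.fst Poly.id))))
      (Poly.snd (Poly.fst Poly.id)) (Poly.snd Poly.id))) ?_
    refine Poly.all (p := fun (y : (((LG × List (ℕ × ℕ)) × ℕ) × ℕ) × ℕ) d =>
      !(adjB y.1.1.1.1 y.2 d) || (decide (y.1.1.2 = y.2) || (decide (y.1.2 = d) ||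
      (decide (y.1.1.2 = d) || !(decide (colB y.1.1.1.2 y.1.1.2 = colB y.1.1.1.2 y.2) &&
      decide (colB y.1.1.1.2 y.1.2 = colB y.1.1.1.2 d))))))
      (Poly.fst (Poly.fst (Poly.fst (Poly.fst (Poly.fst Poly.id))))) ?_
    have hx : Poly (fun y : ((((LG × List (ℕ × ℕ)) × ℕ) × ℕ) × ℕ) × ℕ => y.1.1.1.1.1) :=
      Poly.fst (Poly.fst (Poly.fst (Poly.fst (Poly.fst Poly.id))))
    have hw : Poly (fun y : ((((LG × List (ℕ × ℕ)) × ℕ) × ℕ) × ℕ) × ℕ => y.1.1.1.1.2) :=
      Poly.snd (Poly.fst (Poly.fst (Poly.fst (Poly.fst Poly.id))))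
    have ha : Poly (fun y : ((((LG × List (ℕ × ℕ)) × ℕ) × ℕ) × ℕ) × ℕ => y.1.1.1.2) :=
      Poly.snd (Poly.fst (Poly.fst (Poly.fst Poly.id)))
    have hb : Poly (fun y : ((((LG × List (ℕ × ℕ)) × ℕ) × ℕ) × ℕ) × ℕ => y.1.1.2) :=
      Poly.snd (Poly.fst (Poly.fst Poly.id))
    have hc : Poly (fun y : ((((LG × List (ℕ × ℕ)) × ℕ) × ℕ) × ℕ) × ℕ => y.1.2) :=
      Poly.snd (Poly.fst Poly.id)
    have hd : Poly (fun y : ((((LG × List (ℕ × ℕ)) × ℕ) × ℕ) × ℕ) × ℕ => y.2) :=
      Poly.snd Poly.id
    exact Poly.or (Poly.not (poly_adjB hx hc hd)) (Poly.or (Poly.decide_eq ha hc)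
      (Poly.or (Poly.decide_eq hb hd) (Poly.or (Poly.decide_eq ha hd)
      (Poly.not (Poly.and (Poly.decide_eq (poly_colB hw ha) (poly_colB hw hc))
        (Poly.decide_eq (poly_colB hw hb) (poly_colB hw hd)))))))

end

theorem sz_cert (k : ℕ) (f : ℕ → ℕ) (hf : ∀ v, f v ≤ k) (l : List ℕ) :
    sz (l.map fun v => (v, f v)) ≤ (2 * sz k + 2) * sz l := by
  induction l with
  | nil => simp only [List.map_nil, sz_list_nil]; omega
  | cons a l ih =>
    rw [List.map_cons, sz_list_cons, sz_list_cons, sz_pair]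
    have h1 := sz_nat_mono_le (hf a)
    have h2 := sz_pos a
    have h3 := sz_pos k
    nlinarith

/-- Star colourability with `k` colours. -/
def StarCol (k : ℕ) {V : Type*} (G : SimpleGraph V) : Prop := ∃ c : V → Fin k, IsStar G c

/-- The restricted problem is in `NP`. -/
theorem inNP_restricted (d m k : ℕ) : InNPP (fun x : LG =>
    (∀ v, ((gr x).neighborSet v).ncard = d) ∧
    IsEmpty (completeBipartiteGraph (Fin 1) (Fin m) ↪g gr x) ∧ StarCol k (gr x)) := by
  refine inNPP_of (β := List (ℕ × ℕ)) (R := fun y => regB d y.1 && (freeB m y.1 && verB k y.1 y.2))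
    (Poly.and ((poly_regB d).comp (Poly.fst Poly.id)) (Poly.and ((poly_freeB m).comp
      (Poly.fst Poly.id)) (poly_verB k)))
    (Polynomial.C (2 * sz k + 2) * Polynomial.X) ?_
  intro x
  simp only [Bool.and_eq_true, regB_iff, freeB_iff]
  constructor
  · rintro ⟨h1, h2, c, hc⟩
    classical
    refine ⟨x.1.map fun v => (v, if h : v ∈ x.1 then (c ⟨v, h⟩).1 else 0), ?_, h1, h2, ?_⟩
    · refine (sz_cert k _ (fun v => ?_) x.1).trans ?_
      · split_ifs
        · exact (c _).2.le
        · exact Nat.zero_le _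
      · simp only [Polynomial.eval_mul, Polynomial.eval_C, Polynomial.eval_X]
        refine Nat.mul_le_mul_left _ ?_
        obtain ⟨x1, x2⟩ := x
        rw [sz_pair]
        simp only
        omega
    · exact verB_complete c hc _ (fun v hv => by rw [dif_pos hv])
  · rintro ⟨w, _, h1, h2, h3⟩
    exact ⟨h1, h2, verB_sound h3⟩

end Pool.Agent.V11256.ST
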