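import Pool.Agent.V11256.ST.Cover

/-!
# The hypergraph of the reduction

For every `c : C` there is a block `inl c` and for every slot `o = (c, k)` (with `k` different from
`z0` and `z1`) a block `inr o`; every block has one vertex for each arc `(i, j)`, and the hyperedges
of a block are the directed triangles, with the following changes.  The triangle `(z0, z1, k)` of
`inl c` and the triangle `(z0, z1, z2)` of `inr o` are replaced by the triangles
`{(inr o, z0, z1), (inl c', z1, k'), (inl c', k', z0)}` with `(c', k') = α o`, and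
`{(inl c, z0, z1), (inr (c, k), z1, z2), (inr (γ (c, k)), z2, z0)}`.
-/

set_option autoImplicit false
set_option linter.unusedSectionVars false

namespace Pool.Agent.V11256.ST

open Finset

/-- Data of the construction. -/
structure Dt (C Q : Type*) where
  /-- a point -/
  z0 : Q
  /-- a point -/
  z1 : Q
  /-- a point -/
  z2 : Q
  h01 : z0 ≠ z1
  h02 : z0 ≠ z2
  h12 : z1 ≠ z2
  /-- the permutation for the port `(z0, z1)` -/
  α : Equiv.Perm (C × Q)
  /-- the permutation for the port `(z2, z0)` -/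
  γ : Equiv.Perm (C × Q)
  hα : ∀ o, (o.2 ≠ z0 ∧ o.2 ≠ z1) ↔ ((α o).2 ≠ z0 ∧ (α o).2 ≠ z1)
  hγ : ∀ o, (o.2 ≠ z0 ∧ o.2 ≠ z1) ↔ ((γ o).2 ≠ z0 ∧ (γ o).2 ≠ z1)

namespace Dt

variable {C Q : Type*} [DecidableEq C] [DecidableEq Q] (X : Dt C Q)

/-- Valid slots. -/
def ok (o : C × Q) : Prop := o.2 ≠ X.z0 ∧ o.2 ≠ X.z1

/-- Valid blocks. -/
def bok : C ⊕ (C × Q) → Prop
  | Sum.inl _ => True
  | Sum.inr o => X.ok o

theorem ok_α {o : C × Q} (h : X.ok o) : X.ok (X.α o) := (X.hα o).1 h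
theorem ok_γ {o : C × Q} (h : X.ok o) : X.ok (X.γ o) := (X.hγ o).1 h
theorem ok_αs {o : C × Q} (h : X.ok o) : X.ok (X.α.symm o) :=
  (X.hα _).2 (by rw [Equiv.apply_symm_apply]; exact h)
theorem ok_γs {o : C × Q} (h : X.ok o) : X.ok (X.γ.symm o) :=
  (X.hγ _).2 (by rw [Equiv.apply_symm_apply]; exact h)

/-- Flags before validation. -/
abbrev Fl (C Q : Type*) : Type _ := (C ⊕ (C × Q)) × (Q × Q × Q)

/-- The rotation of flags. -/
def R (f : Fl C Q) : Fl C Q :=
  match f.1 with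
  | Sum.inl c =>
    if f.2.1 = X.z0 ∧ f.2.2.1 = X.z1 then (Sum.inr (c, f.2.2.2), (X.z1, X.z2, X.z0))
    else if f.2.2.1 = X.z0 ∧ f.2.2.2 = X.z1 then
      (Sum.inr (X.α.symm (c, f.2.1)), (X.z0, X.z1, X.z2))
    else (Sum.inl c, rot f.2)
  | Sum.inr o =>
    if f.2 = (X.z0, X.z1, X.z2) then (Sum.inl (X.α o).1, (X.z1, (X.α o).2, X.z0))
    else if f.2 = (X.z1, X.z2, X.z0) then (Sum.inr (X.γ o), (X.z2, X.z0, X.z1))
    else if f.2 = (X.z2, X.z0, X.z1) then
      (Sum.inl (X.γ.symm o).1, (X.z0, X.z1, (X.γ.symm o).2))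
    else (Sum.inr o, rot f.2)

/-- Valid flags. -/
def fok (f : Fl C Q) : Prop := X.bok f.1 ∧ D f.2

theorem R_a (c : C) (k : Q) : X.R (Sum.inl c, (X.z0, X.z1, k)) =
    (Sum.inr (c, k), (X.z1, X.z2, X.z0)) := by simp [R]

theorem R_c (c : C) (k : Q) (hk : k ≠ X.z0) : X.R (Sum.inl c, (k, X.z0, X.z1)) =
    (Sum.inr (X.α.symm (c, k)), (X.z0, X.z1, X.z2)) := by simp [R, hk]

theorem R_nl (c : C) (t : Q × Q × Q) (h : ¬ (t.1 = X.z0 ∧ t.2.1 = X.z1))
    (h' : ¬ (t.2.1 = X.z0 ∧ t.2.2 = X.z1)) : X.R (Sum.inl c, t) = (Sum.inl c, rot t) := by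
  simp only [R]; rw [if_neg h, if_neg h']

theorem R_b (c : C) (k : Q) (hk : k ≠ X.z0) : X.R (Sum.inl c, (X.z1, k, X.z0)) =
    (Sum.inl c, (k, X.z0, X.z1)) :=
  X.R_nl c _ (fun h => X.h01 h.1.symm) (fun h => hk h.1)

theorem R_A (o : C × Q) : X.R (Sum.inr o, (X.z0, X.z1, X.z2)) =
    (Sum.inl (X.α o).1, (X.z1, (X.α o).2, X.z0)) := by simp [R]

theorem R_B (o : C × Q) : X.R (Sum.inr o, (X.z1, X.z2, X.z0)) =
    (Sum.inr (X.γ o), (X.z2, X.z0, X.z1)) := by
  simp [R, X.h01.symm]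

theorem R_C (o : C × Q) : X.R (Sum.inr o, (X.z2, X.z0, X.z1)) =
    (Sum.inl (X.γ.symm o).1, (X.z0, X.z1, (X.γ.symm o).2)) := by
  simp [R, X.h02.symm, X.h12.symm]

theorem R_nr (o : C × Q) (t : Q × Q × Q) (h : t ≠ (X.z0, X.z1, X.z2))
    (h' : t ≠ (X.z1, X.z2, X.z0)) (h'' : t ≠ (X.z2, X.z0, X.z1)) :
    X.R (Sum.inr o, t) = (Sum.inr o, rot t) := by
  simp only [R]; rw [if_neg h, if_neg h', if_neg h'']

theorem R_ok {f : Fl C Q} (h : X.fok f) : X.fok (X.R f) := by
  obtain ⟨b, i, j, k⟩ := f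
  obtain ⟨hb, h1, h2, h3⟩ := h
  simp only at h1 h2 h3
  rcases b with c | o
  · by_cases e1 : i = X.z0 ∧ j = X.z1
    · obtain ⟨rfl, rfl⟩ := e1
      rw [R_a]
      exact ⟨⟨h3.symm, h2.symm⟩, X.h12, X.h02.symm, X.h01.symm⟩
    · by_cases e2 : j = X.z0 ∧ k = X.z1
      · obtain ⟨rfl, rfl⟩ := e2
        rw [R_c _ _ _ h1]
        exact ⟨X.ok_αs ⟨h1, h3⟩, X.h01, X.h12, X.h02⟩
      · rw [R_nl _ _ _ e1 e2]
        exact ⟨trivial, h2, h3.symm, h1.symm⟩
  · by_cases e1 : (i, j, k) = (X.z0, X.z1, X.z2)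
    · rw [e1, R_A]
      have := X.ok_α hb
      exact ⟨trivial, this.2.symm, this.1, X.h01.symm⟩
    · by_cases e2 : (i, j, k) = (X.z1, X.z2, X.z0)
      · rw [e2, R_B]
        exact ⟨X.ok_γ hb, X.h02.symm, X.h01, X.h12.symm⟩
      · by_cases e3 : (i, j, k) = (X.z2, X.z0, X.z1)
        · rw [e3, R_C]
          have := X.ok_γs hb
          exact ⟨trivial, X.h01, this.2.symm, this.1.symm⟩
        · rw [R_nr _ _ _ e1 e2 e3]
          exact ⟨hb, h2, h3.symm, h1.symm⟩

theorem R3 {f : Fl C Q} (h : X.fok f) : X.R (X.R (X.R f)) = f := by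
  obtain ⟨b, i, j, k⟩ := f
  obtain ⟨hb, h1, h2, h3⟩ := h
  simp only at h1 h2 h3
  rcases b with c | o
  · by_cases e1 : i = X.z0 ∧ j = X.z1
    · obtain ⟨rfl, rfl⟩ := e1
      rw [R_a, R_B, R_C]
      simp
    · by_cases e2 : j = X.z0 ∧ k = X.z1
      · obtain ⟨rfl, rfl⟩ := e2
        rw [R_c _ _ _ h1, R_A]
        simp only [Equiv.apply_symm_apply]
        rw [R_b _ _ _ h1]
      · rw [R_nl _ _ _ e1 e2]
        by_cases e3 : k = X.z0 ∧ i = X.z1
        · obtain ⟨rfl, rfl⟩ := e3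
          simp only [rot]
          rw [R_c _ _ _ h2, R_A]
          simp only [Equiv.apply_symm_apply]
        · rw [R_nl _ _ (rot (i, j, k)) e2 e3, R_nl _ _ (rot (rot (i, j, k))) e3 e1, rot3]
  · by_cases e1 : (i, j, k) = (X.z0, X.z1, X.z2)
    · rw [e1, R_A]
      have := X.ok_α hb
      rw [R_b _ _ _ this.1, R_c _ _ _ this.1]
      simp
    · by_cases e2 : (i, j, k) = (X.z1, X.z2, X.z0)
      · rw [e2, R_B, R_C]
        simp only [Equiv.symm_apply_apply]
        rw [R_a]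
      · by_cases e3 : (i, j, k) = (X.z2, X.z0, X.z1)
        · rw [e3, R_C, R_a]
          simp only [Prod.mk.eta]
          rw [R_B, Equiv.apply_symm_apply]
        · rw [R_nr _ _ _ e1 e2 e3]
          have f1 : rot (i, j, k) ≠ (X.z0, X.z1, X.z2) := fun e => e3 (by
            simp only [rot, Prod.mk.injEq] at e ⊢; tauto)
          have f2 : rot (i, j, k) ≠ (X.z1, X.z2, X.z0) := fun e => e1 (by
            simp only [rot, Prod.mk.injEq] at e ⊢; tauto)
          have f3 : rot (i, j, k) ≠ (X.z2, X.z0, X.z1) := fun e => e2 (by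
            simp only [rot, Prod.mk.injEq] at e ⊢; tauto)
          have g1 : rot (rot (i, j, k)) ≠ (X.z0, X.z1, X.z2) := fun e => e2 (by
            simp only [rot, Prod.mk.injEq] at e ⊢; tauto)
          have g2 : rot (rot (i, j, k)) ≠ (X.z1, X.z2, X.z0) := fun e => e3 (by
            simp only [rot, Prod.mk.injEq] at e ⊢; tauto)
          have g3 : rot (rot (i, j, k)) ≠ (X.z2, X.z0, X.z1) := fun e => e1 (by
            simp only [rot, Prod.mk.injEq] at e ⊢; tauto)
          rw [R_nr _ _ _ f1 f2 f3, R_nr _ _ _ g1 g2 g3, rot3]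

/-- The vertex of a flag. -/
def vt (f : Fl C Q) : (C ⊕ (C × Q)) × (Q × Q) := (f.1, f.2.1, f.2.2.1)

/-- The next vertex of a flag. -/
def outV (f : Fl C Q) : (C ⊕ (C × Q)) × (Q × Q) :=
  match f.1 with
  | Sum.inl c =>
    if f.2.1 = X.z0 ∧ f.2.2.1 = X.z1 then (Sum.inr (c, f.2.2.2), (X.z1, X.z2))
    else if f.2.2.1 = X.z0 ∧ f.2.2.2 = X.z1 then
      (Sum.inr (X.α.symm (c, f.2.1)), (X.z0, X.z1))
    else (Sum.inl c, f.2.2.1, f.2.2.2)
  | Sum.inr o =>
    if f.2 = (X.z0, X.z1, X.z2) then (Sum.inl (X.α o).1, (X.z1, (X.α o).2))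
    else if f.2 = (X.z1, X.z2, X.z0) then (Sum.inr (X.γ o), (X.z2, X.z0))
    else if f.2 = (X.z2, X.z0, X.z1) then (Sum.inl (X.γ.symm o).1, (X.z0, X.z1))
    else (Sum.inr o, f.2.2.1, f.2.2.2)

/-- The previous vertex of a flag. -/
def inV (f : Fl C Q) : (C ⊕ (C × Q)) × (Q × Q) :=
  match f.1 with
  | Sum.inl c =>
    if f.2.1 = X.z0 ∧ f.2.2.1 = X.z1 then (Sum.inr (X.γ (c, f.2.2.2)), (X.z2, X.z0))
    else if f.2.2.2 = X.z0 ∧ f.2.1 = X.z1 then
      (Sum.inr (X.α.symm (c, f.2.2.1)), (X.z0, X.z1))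
    else (Sum.inl c, f.2.2.2, f.2.1)
  | Sum.inr o =>
    if f.2 = (X.z0, X.z1, X.z2) then (Sum.inl (X.α o).1, ((X.α o).2, X.z0))
    else if f.2 = (X.z1, X.z2, X.z0) then (Sum.inl o.1, (X.z0, X.z1))
    else if f.2 = (X.z2, X.z0, X.z1) then (Sum.inr (X.γ.symm o), (X.z1, X.z2))
    else (Sum.inr o, f.2.2.2, f.2.1)

theorem vt_R (f : Fl C Q) : vt (X.R f) = X.outV f := by
  obtain ⟨b, t⟩ := f
  rcases b with c | o
  · simp only [R, outV]
    split_ifs <;> rfl
  · simp only [R, outV]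
    split_ifs <;> rfl

theorem vt_RR {f : Fl C Q} (h : X.fok f) : vt (X.R (X.R f)) = X.inV f := by
  obtain ⟨b, i, j, k⟩ := f
  obtain ⟨hb, h1, h2, h3⟩ := h
  simp only at h1 h2 h3
  rcases b with c | o
  · by_cases e1 : i = X.z0 ∧ j = X.z1
    · obtain ⟨rfl, rfl⟩ := e1
      rw [R_a, R_B]
      simp [vt, inV]
    · by_cases e2 : j = X.z0 ∧ k = X.z1
      · obtain ⟨rfl, rfl⟩ := e2
        rw [R_c _ _ _ h1, R_A]
        simp only [Equiv.apply_symm_apply]
        simp only [vt, inV]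
        rw [if_neg e1, if_neg (fun h => X.h01 h.1.symm)]
      · rw [R_nl _ _ _ e1 e2]
        by_cases e3 : k = X.z0 ∧ i = X.z1
        · obtain ⟨rfl, rfl⟩ := e3
          simp only [rot]
          rw [R_c _ _ _ h2]
          simp only [vt, inV]
          rw [if_neg e1, if_pos (by simp)]
        · rw [R_nl _ _ (rot (i, j, k)) e2 e3]
          simp only [vt, inV, rot]
          rw [if_neg e1, if_neg e3]
  · by_cases e1 : (i, j, k) = (X.z0, X.z1, X.z2)
    · rw [e1, R_A]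
      have := X.ok_α hb
      rw [R_b _ _ _ this.1]
      simp [vt, inV]
    · by_cases e2 : (i, j, k) = (X.z1, X.z2, X.z0)
      · rw [e2, R_B, R_C]
        simp [vt, inV, X.h01.symm]
      · by_cases e3 : (i, j, k) = (X.z2, X.z0, X.z1)
        · rw [e3, R_C, R_a]
          simp [vt, inV, X.h02.symm, X.h12.symm]
        · rw [R_nr _ _ _ e1 e2 e3]
          have f1 : rot (i, j, k) ≠ (X.z0, X.z1, X.z2) := fun e => e3 (by
            simp only [rot, Prod.mk.injEq] at e ⊢; tauto)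
          have f2 : rot (i, j, k) ≠ (X.z1, X.z2, X.z0) := fun e => e1 (by
            simp only [rot, Prod.mk.injEq] at e ⊢; tauto)
          have f3 : rot (i, j, k) ≠ (X.z2, X.z0, X.z1) := fun e => e2 (by
            simp only [rot, Prod.mk.injEq] at e ⊢; tauto)
          rw [R_nr _ _ _ f1 f2 f3]
          simp only [vt, inV, rot]
          rw [if_neg e1, if_neg e2, if_neg e3]

theorem out_ne {f : Fl C Q} (h : X.fok f) : X.outV f ≠ vt f := by
  obtain ⟨b, i, j, k⟩ := f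
  obtain ⟨hb, h1, h2, h3⟩ := h
  simp only at h1 h2 h3
  have a1 := X.h01
  have a2 := X.h02
  have a3 := X.h12
  rcases b with c | o
  · simp only [outV, vt]
    split_ifs with e1 e2 <;> simp
    intro e
    exact absurd e.symm h1
  · simp only [outV, vt]
    split_ifs with e1 e2 e3
    · simp
    · simp only [Prod.mk.injEq] at e2
      simp only [ne_eq, Prod.mk.injEq, Sum.inr.injEq, not_and]
      intro _ e
      exact absurd (e.trans e2.1) a3.symm
    · simp
    · simp only [ne_eq, Prod.mk.injEq, not_and, true_and]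
      intro e
      exact absurd e.symm h1

theorem nb1 {b : C ⊕ (C × Q)} {i j k k' : Q}
    (h : X.outV (b, i, j, k) = X.outV (b, i, j, k')) : k = k' := by
  have a1 := X.h01
  have a2 := X.h02
  have a3 := X.h12
  rcases b with c | o
  · simp only [outV] at h
    split_ifs at h with e1 e2 e3 e4
    · simpa using h
    · exact e2.2.trans e3.2.symm
    · simp at h
    · simp at h
    · simpa using h
  · simp only [outV] at h
    split_ifs at h with e1 e2 e3 e4 e5 e6 e7 e8 e9 e10 e11 e12 e13 e14 e15 <;>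
      simp only [Prod.mk.injEq, Sum.inl.injEq, Sum.inr.injEq, reduceCtorEq, false_and, true_and]
        at * <;> first | tauto | grind

theorem nb2 {b : C ⊕ (C × Q)} {i j k k' : Q}
    (h : X.inV (b, i, j, k) = X.inV (b, i, j, k')) : k = k' := by
  have a1 := X.h01
  have a2 := X.h02
  have a3 := X.h12
  rcases b with c | o
  · simp only [inV] at h
    split_ifs at h with e1 e2 e3 e4
    · simpa using h
    · exact e2.1.trans e3.1.symm
    · simp at h
    · simp at h
    · simpa using h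
  · simp only [inV] at h
    split_ifs at h with e1 e2 e3 e4 e5 e6 e7 e8 e9 e10 e11 e12 e13 e14 e15 <;>
      simp only [Prod.mk.injEq, Sum.inl.injEq, Sum.inr.injEq, reduceCtorEq, false_and, true_and]
        at * <;> first | tauto | grind

theorem nb3 {b : C ⊕ (C × Q)} {i j k k' : Q} (hf : X.fok (b, i, j, k))
    (hf' : X.fok (b, i, j, k')) : X.outV (b, i, j, k) ≠ X.inV (b, i, j, k') := by
  intro h
  have a1 := X.h01
  have a2 := X.h02
  have a3 := X.h12
  obtain ⟨hb, h1, h2, h3⟩ := hf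
  obtain ⟨_, h1', h2', h3'⟩ := hf'
  simp only at h1 h2 h3 h1' h2' h3'
  rcases b with c | o
  · simp only [outV, inV] at h
    split_ifs at h <;>
      simp only [Prod.mk.injEq, Sum.inl.injEq, Sum.inr.injEq, reduceCtorEq, false_and, true_and]
        at * <;> first | tauto | grind
  · simp only [outV, inV] at h
    split_ifs at h <;>
      simp only [Prod.mk.injEq, Sum.inl.injEq, Sum.inr.injEq, reduceCtorEq, false_and, true_and]
        at * <;> first | tauto | grind

end Dt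

end Pool.Agent.V11256.ST
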