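import Pool.Agent.V11256.ST.Iso

/-!
# Star colourings with few colours

A star colouring with `p + 2` colours of a `2p`-regular graph that is a union of triangles, each
vertex being in `p` of them, is the same as a covering of the hypergraph of directed triangles on
`p + 2` points.
-/

set_option autoImplicit false

namespace Pool.Agent.V11256.ST

open Finset

/-- Star colourings: proper colourings without two-coloured paths on four vertices. -/
def IsStar {V K : Type*} (G : SimpleGraph V) (c : V → K) : Prop :=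
  (∀ u v, G.Adj u v → c u ≠ c v) ∧
  ∀ x y z w, G.Adj x y → G.Adj y z → G.Adj z w → x ≠ z → y ≠ w → x ≠ w →
    ¬ (c x = c z ∧ c y = c w)

section out

variable {V : Type*} [Fintype V] [DecidableEq V] {p : ℕ} (G : SimpleGraph V)
  [DecidableRel G.Adj] {Q : Type*} [Fintype Q] [DecidableEq Q]

/-- `w` is the only neighbour of `v` of its colour. -/
def U (c : V → Q) (v w : V) : Prop := G.Adj v w ∧ ∀ w', G.Adj v w' → c w' = c w → w' = w

theorem U_or {c : V → Q} (hc : IsStar G c) {v w : V} (h : G.Adj v w) : U G c v w ∨ U G c w v := by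
  by_contra hn
  simp only [U, h, h.symm, true_and, not_or, not_forall, exists_prop] at hn
  obtain ⟨⟨w', h1, h2, h3⟩, v', h4, h5, h6⟩ := hn
  refine hc.2 w' v w v' h1.symm h h4 h3 (Ne.symm h6) ?_ ⟨h2, h5.symm⟩
  rintro rfl
  exact hc.1 v w h (h5.symm.trans h2)

theorem star_structure (hp : 2 ≤ p) (hQ : Fintype.card Q = p + 2)
    (hreg : ∀ v, G.degree v = 2 * p) {c : V → Q} (hc : IsStar G c) :
    ∃ d : V → Q, (∀ v, d v ≠ c v) ∧ (∀ v w, G.Adj v w → (c w = d v ↔ c v ≠ d w)) ∧
      ∀ v γ, γ ≠ c v → γ ≠ d v → ∃ w, G.Adj v w ∧ c w = γ ∧ ∀ w', G.Adj v w' → c w' = γ → w' = w := by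
  classical
  set A : V → Finset V := fun v => {w | U G c v w} with hA
  have hmemA : ∀ v w, w ∈ A v ↔ U G c v w := fun v w => by simp [hA]
  have hinj : ∀ v, Set.InjOn c (A v) := by
    intro v w hw w' hw' e
    rw [mem_coe, hmemA] at hw hw'
    exact hw'.2 w hw.1 e
  have hsub : ∀ v, (A v).image c ⊆ univ.erase (c v) := by
    intro v x hx
    obtain ⟨w, hw, rfl⟩ := mem_image.1 hx
    exact mem_erase.2 ⟨(hc.1 v w ((hmemA v w).1 hw).1).symm, mem_univ _⟩
  have hcard : ∀ v, #((A v).image c) = #(A v) := fun v => card_image_of_injOn (hinj v)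
  have herase : ∀ v, #(univ.erase (c v)) = p + 1 := fun v => by
    rw [card_erase_of_mem (mem_univ _), card_univ, hQ]; omega
  have hle : ∀ v, #(A v) ≤ p := by
    intro v
    by_contra hlt
    have h1 := card_le_card (hsub v)
    rw [hcard, herase] at h1
    have h2 : (A v).image c = univ.erase (c v) :=
      eq_of_subset_of_card_le (hsub v) (by rw [hcard, herase]; omega)
    have h3 : G.neighborFinset v ⊆ A v := by
      intro w hw
      rw [SimpleGraph.mem_neighborFinset] at hw
      have : c w ∈ (A v).image c := by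
        rw [h2]; exact mem_erase.2 ⟨(hc.1 v w hw).symm, mem_univ _⟩
      obtain ⟨w', hw', e⟩ := mem_image.1 this
      have := ((hmemA v w').1 hw').2 w hw e.symm
      rw [this]; exact hw'
    have h4 := card_le_card h3
    rw [SimpleGraph.card_neighborFinset_eq_degree, hreg] at h4
    omega
  -- global count
  set P : Finset (V × V) := {x | U G c x.1 x.2} with hP
  set P' : Finset (V × V) := {x | U G c x.2 x.1} with hP'
  set E : Finset (V × V) := {x | G.Adj x.1 x.2} with hE
  have cP : #P = ∑ v, #(A v) := by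
    rw [hP, card_filter, Fintype.sum_prod_type]
    refine sum_congr rfl fun v _ => ?_
    rw [hA, card_filter]
  have cE : #E = Fintype.card V * (2 * p) := by
    rw [hE, card_filter, Fintype.sum_prod_type]
    have : ∀ v : V, (∑ w : V, if G.Adj v w then 1 else 0) = 2 * p := by
      intro v
      rw [← hreg v, ← card_filter, ← SimpleGraph.card_neighborFinset_eq_degree]
      congr 1
      ext w; simp
    rw [sum_congr rfl fun v _ => this v]
    simp
  have cP' : #P' = #P := by
    refine card_bij (fun x _ => (x.2, x.1)) ?_ ?_ ?_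
    · intro x hx; simpa [hP, hP'] using hx
    · intro x _ y _ e
      simp only [Prod.mk.injEq] at e
      exact Prod.ext e.2 e.1
    · intro x hx
      exact ⟨(x.2, x.1), by simpa [hP, hP'] using hx, rfl⟩
  have hEU : E ⊆ P ∪ P' := by
    intro x hx
    simp only [hE, hP, hP', mem_filter, mem_univ, true_and, mem_union] at hx ⊢
    exact U_or G hc hx
  have h1 := card_le_card hEU
  have h2 := card_union_add_card_inter P P'
  have h3 : ∑ v, #(A v) ≤ ∑ _v : V, p := sum_le_sum fun v _ => hle v
  have h3' : ∑ _v : V, p = Fintype.card V * p := by simp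
  have h4 : ∑ v, #(A v) = ∑ _v : V, p := by
    rw [h3'] at h3 ⊢
    have : Fintype.card V * (2 * p) = 2 * (Fintype.card V * p) := by ring
    omega
  have hAp : ∀ v, #(A v) = p := by
    intro v
    by_contra hne
    have : #(A v) < p := lt_of_le_of_ne (hle v) hne
    have := sum_lt_sum (fun v (_ : v ∈ univ) => hle v) ⟨v, mem_univ v, this⟩
    omega
  have hex : #(P ∩ P') = 0 := by
    have : Fintype.card V * (2 * p) = 2 * (Fintype.card V * p) := by ring
    omega
  have hnot : ∀ v w, U G c v w → ¬ U G c w v := by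
    intro v w h h'
    have : (v, w) ∈ P ∩ P' := by simp [hP, hP', h, h']
    rw [card_eq_zero.1 hex] at this
    simp at this
  -- the missing colour
  have hd : ∀ v, ∃ d, d ≠ c v ∧ ∀ x, x ≠ c v → (x ∉ (A v).image c ↔ x = d) := by
    intro v
    have h5 : #(univ.erase (c v) \ (A v).image c) = 1 := by
      rw [card_sdiff_of_subset (hsub v), hcard, herase, hAp]; omega
    obtain ⟨d, hd⟩ := card_eq_one.1 h5
    have h6 : ∀ x, x ∈ univ.erase (c v) \ (A v).image c ↔ x = d := fun x => by
      rw [hd, mem_singleton]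
    refine ⟨d, ?_, fun x hx => ?_⟩
    · have := (h6 d).2 rfl
      rw [mem_sdiff, mem_erase] at this
      exact this.1.1
    · rw [← h6 x, mem_sdiff, mem_erase]
      simp [hx]
  choose d hd1 hd2 using hd
  have hUd : ∀ v w, G.Adj v w → (U G c v w ↔ c w ≠ d v) := by
    intro v w h
    constructor
    · intro hu e
      exact ((hd2 v (c w) (hc.1 v w h).symm).2 e) (mem_image_of_mem c ((hmemA v w).2 hu))
    · intro hne
      have : c w ∈ (A v).image c := by
        by_contra hn
        exact hne ((hd2 v (c w) (hc.1 v w h).symm).1 hn)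
      obtain ⟨w', hw', e⟩ := mem_image.1 this
      have := ((hmemA v w').1 hw').2 w h e.symm
      rw [this]; exact (hmemA v w').1 hw'
  refine ⟨d, hd1, fun v w h => ?_, fun v γ h1 h2 => ?_⟩
  · have e1 := hUd v w h
    have e2 := hUd w v h.symm
    have e3 := hnot v w
    have e4 := U_or G hc h
    tauto
  · have : γ ∈ (A v).image c := by
      by_contra hn
      exact h2 ((hd2 v γ h1).1 hn)
    obtain ⟨w, hw, e⟩ := mem_image.1 this
    exact ⟨w, ((hmemA v w).1 hw).1, e, fun w' hw' e' =>
      ((hmemA v w).1 hw).2 w' hw' (e'.trans e.symm)⟩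

end out

/-- A 3-uniform hypergraph given by its flags: `R` rotates the flags of a hyperedge. -/
structure FS (V F : Type*) [Fintype F] [DecidableEq V] (p : ℕ) where
  /-- the vertex of a flag -/
  vt : F → V
  /-- the next flag of the hyperedge -/
  R : F → F
  R3 : ∀ f, R (R (R f)) = f
  deg : ∀ v, #{f | vt f = v} = p
  simp : ∀ f, vt (R f) ≠ vt f
  nb1 : ∀ f g, vt f = vt g → vt (R f) = vt (R g) → f = g
  nb2 : ∀ f g, vt f = vt g → vt (R (R f)) = vt (R (R g)) → f = g
  nb3 : ∀ f g, vt f = vt g → vt (R f) ≠ vt (R (R g))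

namespace FS

variable {V F : Type*} [Fintype F] [DecidableEq V] {p : ℕ} (X : FS V F p)

/-- The graph: two vertices are adjacent if they are in a common hyperedge. -/
def G : SimpleGraph V where
  Adj x y := ∃ f, (X.vt f = x ∧ X.vt (X.R f) = y) ∨ (X.vt f = y ∧ X.vt (X.R f) = x)
  symm := ⟨fun x y ⟨f, h⟩ => ⟨f, h.symm⟩⟩
  loopless := ⟨fun x ⟨f, h⟩ => by
    rcases h with h | h
    · exact X.simp f (h.2.trans h.1.symm)
    · exact X.simp f (h.2.trans h.1.symm)⟩

theorem adj_iff {x y : V} : X.G.Adj x y ↔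
    ∃ f, X.vt f = x ∧ (X.vt (X.R f) = y ∨ X.vt (X.R (X.R f)) = y) := by
  constructor
  · rintro ⟨f, h | h⟩
    · exact ⟨f, h.1, Or.inl h.2⟩
    · exact ⟨X.R f, h.2, Or.inr (by rw [X.R3]; exact h.1)⟩
  · rintro ⟨f, h, h' | h'⟩
    · exact ⟨f, Or.inl ⟨h, h'⟩⟩
    · exact ⟨X.R (X.R f), Or.inr ⟨h', by rw [X.R3]; exact h⟩⟩

theorem adj_R (f : F) : X.G.Adj (X.vt f) (X.vt (X.R f)) := X.adj_iff.2 ⟨f, rfl, Or.inl rfl⟩

theorem adj_RR (f : F) : X.G.Adj (X.vt f) (X.vt (X.R (X.R f))) := X.adj_iff.2 ⟨f, rfl, Or.inr rfl⟩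

theorem nbr_card [Fintype V] [DecidableEq F] (v : V) :
    (X.G.neighborSet v).ncard = 2 * p := by
  classical
  have h : X.G.neighborSet v = ↑(({f | X.vt f = v} : Finset F).image (fun f => X.vt (X.R f)) ∪
      ({f | X.vt f = v} : Finset F).image (fun f => X.vt (X.R (X.R f)))) := by
    ext w
    rw [SimpleGraph.mem_neighborSet, X.adj_iff]
    simp only [coe_union, coe_image, coe_filter, mem_univ, true_and, Set.mem_union,
      Set.mem_image, Set.mem_setOf_eq]
    constructor
    · rintro ⟨f, h, h' | h'⟩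
      · exact Or.inl ⟨f, h, h'⟩
      · exact Or.inr ⟨f, h, h'⟩
    · rintro (⟨f, h, h'⟩ | ⟨f, h, h'⟩)
      · exact ⟨f, h, Or.inl h'⟩
      · exact ⟨f, h, Or.inr h'⟩
  rw [h, Set.ncard_coe_finset, card_union_of_disjoint, card_image_of_injOn, card_image_of_injOn,
    X.deg]
  · ring
  · intro f hf g hg e
    simp only [coe_filter, mem_univ, true_and, Set.mem_setOf_eq] at hf hg
    exact X.nb2 f g (hf.trans hg.symm) e
  · intro f hf g hg e
    simp only [coe_filter, mem_univ, true_and, Set.mem_setOf_eq] at hf hg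
    exact X.nb1 f g (hf.trans hg.symm) e
  · rw [disjoint_left]
    intro x hx hx'
    obtain ⟨f, hf, e⟩ := mem_image.1 hx
    obtain ⟨g, hg, e'⟩ := mem_image.1 hx'
    simp only [mem_filter, mem_univ, true_and] at hf hg
    exact X.nb3 f g (hf.trans hg.symm) (e.trans e'.symm)

/-- The graph has no induced star with `p + 1` leaves. -/
theorem claw_free : IsEmpty (completeBipartiteGraph (Fin 1) (Fin (p + 1)) ↪g X.G) := by
  classical
  refine ⟨fun φ => ?_⟩
  set x := φ (Sum.inl 0) with hx
  have hadj : ∀ i : Fin (p + 1), X.G.Adj x (φ (Sum.inr i)) := fun i => by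
    rw [hx, φ.map_adj_iff]; simp
  choose g hg1 hg2 using fun i => X.adj_iff.1 (hadj i)
  have : ∃ i ∈ (univ : Finset (Fin (p + 1))), ∃ j ∈ (univ : Finset (Fin (p + 1))),
      i ≠ j ∧ g i = g j :=
    exists_ne_map_eq_of_card_lt_of_maps_to (t := {f | X.vt f = x})
      (by rw [X.deg]; simp) (fun i _ => by simp [hg1])
  obtain ⟨i, _, j, _, hij, e⟩ := this
  have hne : φ (Sum.inr i) ≠ φ (Sum.inr j) := fun h => hij (by simpa using φ.injective h)
  have hnadj : ¬ X.G.Adj (φ (Sum.inr i)) (φ (Sum.inr j)) := by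
    rw [φ.map_adj_iff]; simp
  rcases hg2 i with h | h <;> rcases hg2 j with h' | h' <;> rw [← e] at h'
  · exact hne (h.symm.trans h')
  · apply hnadj
    rw [← h, ← h']
    exact X.adj_R (X.R (g i))
  · apply hnadj
    rw [← h, ← h']
    exact (X.adj_R (X.R (g i))).symm
  · exact hne (h.symm.trans h')

/-- A covering of the hypergraph of directed triangles: `img f` is a triple `(x, y, z)` of points,
`(x, y)` depending only on the vertex of the flag. -/
structure Cov (Q : Type*) where
  /-- the arc of a vertex -/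
  h : V → Q × Q
  /-- the third point of a flag -/
  lab : F → Q
  dist : ∀ f, D ((h (X.vt f)).1, (h (X.vt f)).2, lab f)
  hrot : ∀ f, let im := fun g => ((h (X.vt g)).1, (h (X.vt g)).2, lab g)
    (im (X.R f) = rot (im f) ∧ im (X.R (X.R f)) = rot (rot (im f))) ∨
      (im (X.R f) = rot (rot (im f)) ∧ im (X.R (X.R f)) = rot (im f))
  exist : ∀ v z, z ≠ (h v).1 → z ≠ (h v).2 → ∃ f, X.vt f = v ∧ lab f = z
  unique : ∀ f g, X.vt f = X.vt g → lab f = lab g → f = g

/-- From star colourings to coverings. -/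
theorem exists_cov [Fintype V] [DecidableEq F] (hp : 2 ≤ p) {Q : Type*} [Fintype Q]
    [DecidableEq Q] (hQ : Fintype.card Q = p + 2) {c : V → Q} (hc : IsStar X.G c) :
    Nonempty (X.Cov Q) := by
  classical
  obtain ⟨d, hd1, hd2, hd3⟩ := star_structure X.G hp hQ (fun v => by
    rw [← SimpleGraph.card_neighborSet_eq_degree, ← Nat.card_eq_fintype_card, Nat.card_coe_set_eq]
    exact X.nbr_card v) hc
  have key : ∀ f, (c (X.vt (X.R (X.R f))) = d (X.vt f) ∧ c (X.vt f) = d (X.vt (X.R f)) ∧
        c (X.vt (X.R f)) = d (X.vt (X.R (X.R f)))) ∨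
      (c (X.vt (X.R f)) = d (X.vt f) ∧ c (X.vt (X.R (X.R f))) = d (X.vt (X.R f)) ∧
        c (X.vt f) = d (X.vt (X.R (X.R f)))) := by
    intro f
    have a1 := X.adj_R f
    have a2 := X.adj_R (X.R f)
    have a3 := X.adj_RR f
    have e1 := hd2 _ _ a1
    have e2 := hd2 _ _ a2
    have e3 := hd2 _ _ a3
    have c1 := hc.1 _ _ a1
    have c2 := hc.1 _ _ a2
    have c3 := hc.1 _ _ a3
    by_cases h1 : c (X.vt (X.R f)) = d (X.vt f)
    · right
      have h3 : ¬ c (X.vt (X.R (X.R f))) = d (X.vt f) := fun e => c2 (h1.trans e.symm)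
      have h4 : c (X.vt f) = d (X.vt (X.R (X.R f))) := by
        by_contra hne; exact h3 (e3.2 hne)
      have h5 : ¬ c (X.vt (X.R f)) = d (X.vt (X.R (X.R f))) := fun e => c1 (h4.trans e.symm)
      exact ⟨h1, e2.2 h5, h4⟩
    · left
      have h2 : c (X.vt f) = d (X.vt (X.R f)) := by
        by_contra hne; exact h1 (e1.2 hne)
      have h4 : ¬ c (X.vt (X.R (X.R f))) = d (X.vt (X.R f)) := fun e => c3 (h2.trans e.symm)
      have h5 : c (X.vt (X.R f)) = d (X.vt (X.R (X.R f))) := by
        by_contra hne; exact h4 (e2.2 hne)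
      refine ⟨e3.2 fun e => c1 (e.trans h5.symm), h2, h5⟩
  set lab : F → Q := fun f => if c (X.vt (X.R f)) = d (X.vt f) then c (X.vt (X.R (X.R f)))
    else c (X.vt (X.R f)) with hlab
  have ne1 : ∀ f, c (X.vt f) ≠ c (X.vt (X.R f)) := fun f => hc.1 _ _ (X.adj_R f)
  have ne2 : ∀ f, c (X.vt f) ≠ c (X.vt (X.R (X.R f))) := fun f => hc.1 _ _ (X.adj_RR f)
  have lab_cases : ∀ f, (c (X.vt (X.R (X.R f))) = d (X.vt f) ∧ lab f = c (X.vt (X.R f))) ∨
      (c (X.vt (X.R f)) = d (X.vt f) ∧ lab f = c (X.vt (X.R (X.R f)))) := by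
    intro f
    rcases key f with h | h
    · left
      refine ⟨h.1, ?_⟩
      simp only [hlab]
      rw [if_neg]
      intro e
      exact ne1 (X.R f) (e.trans h.1.symm)
    · right
      exact ⟨h.1, by simp only [hlab]; rw [if_pos h.1]⟩
  refine ⟨⟨fun v => (d v, c v), lab, fun f => ⟨hd1 _, ?_, ?_⟩, fun f => ?_, fun v z h1 h2 => ?_,
    fun f g hfg hl => ?_⟩⟩
  · show c (X.vt f) ≠ lab f
    rcases lab_cases f with h | h
    · rw [h.2]; exact ne1 f
    · rw [h.2]; exact ne2 f
  · show d (X.vt f) ≠ lab f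
    rcases lab_cases f with h | h
    · rw [h.2, ← h.1]; exact (ne1 (X.R f)).symm
    · rw [h.2, ← h.1]; exact ne1 (X.R f)
  · have k := key f
    have k1 := ne1 f
    have k2 := ne2 f
    have k3 := ne1 (X.R f)
    have hl1 := lab_cases f
    have hl2 := lab_cases (X.R f)
    have hl3 := lab_cases (X.R (X.R f))
    rw [X.R3 f] at hl2 hl3
    simp only [rot, Prod.mk.injEq]
    rcases k with ⟨k4, k5, k6⟩ | ⟨k4, k5, k6⟩
    · left
      have l1 : lab f = c (X.vt (X.R f)) := by
        rcases hl1 with h | h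
        · exact h.2
        · exact absurd (h.1.trans k4.symm) k3
      have l2 : lab (X.R f) = c (X.vt (X.R (X.R f))) := by
        rcases hl2 with h | h
        · exact h.2
        · exact absurd (k5.trans h.1.symm) k2
      have l3 : lab (X.R (X.R f)) = c (X.vt f) := by
        rcases hl3 with h | h
        · exact h.2
        · exact absurd (h.1.trans k6.symm) k1
      rw [l1, l2, l3]
      refine ⟨⟨k5.symm, rfl, k4⟩, ⟨k6.symm, k4, rfl⟩⟩
    · right
      have l1 : lab f = c (X.vt (X.R (X.R f))) := by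
        rcases hl1 with h | h
        · exact absurd (k4.trans h.1.symm) k3
        · exact h.2
      have l2 : lab (X.R f) = c (X.vt f) := by
        rcases hl2 with h | h
        · exact absurd (h.1.trans k5.symm) k2
        · exact h.2
      have l3 : lab (X.R (X.R f)) = c (X.vt (X.R f)) := by
        rcases hl3 with h | h
        · exact absurd (k6.trans h.1.symm) k1
        · exact h.2
      rw [l1, l2, l3]
      refine ⟨⟨k5.symm, k4, rfl⟩, ⟨k6.symm, rfl, k4⟩⟩
  · obtain ⟨w, hw1, hw2, _⟩ := hd3 v z h2 h1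
    obtain ⟨f, hf, hf'⟩ := X.adj_iff.1 hw1
    refine ⟨f, hf, ?_⟩
    rcases lab_cases f with h | h
    · rcases hf' with e | e
      · rw [h.2, e, hw2]
      · exfalso
        apply h1
        rw [← hf, ← h.1, e, hw2]
    · rcases hf' with e | e
      · exfalso
        apply h1
        rw [← hf, ← h.1, e, hw2]
      · rw [h.2, e, hw2]
  · -- uniqueness
    have hz1 : lab f ≠ c (X.vt f) := by
      rcases lab_cases f with h | h
      · rw [h.2]; exact (ne1 f).symm
      · rw [h.2]; exact (ne2 f).symm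
    have hz2 : lab f ≠ d (X.vt f) := by
      rcases lab_cases f with h | h
      · rw [h.2, ← h.1]; exact ne1 (X.R f)
      · rw [h.2, ← h.1]; exact (ne1 (X.R f)).symm
    obtain ⟨w, _, _, hu⟩ := hd3 (X.vt f) (lab f) hz1 hz2
    have hf : X.vt (X.R f) = w ∨ X.vt (X.R (X.R f)) = w := by
      rcases lab_cases f with h | h
      · exact Or.inl (hu _ (X.adj_R f) h.2.symm)
      · exact Or.inr (hu _ (X.adj_RR f) h.2.symm)
    have hg : X.vt (X.R g) = w ∨ X.vt (X.R (X.R g)) = w := by
      rcases lab_cases g with h | h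
      · exact Or.inl (hu _ (by rw [hfg]; exact X.adj_R g) (by rw [hl]; exact h.2.symm))
      · exact Or.inr (hu _ (by rw [hfg]; exact X.adj_RR g) (by rw [hl]; exact h.2.symm))
    rcases hf with e | e <;> rcases hg with e' | e'
    · exact X.nb1 f g hfg (e.trans e'.symm)
    · exact absurd (e.trans e'.symm) (X.nb3 f g hfg)
    · exact absurd (e'.trans e.symm) (X.nb3 g f hfg.symm)
    · exact X.nb2 f g hfg (e.trans e'.symm)

/-- From coverings to star colourings. -/
theorem star_of_cov {Q : Type*} (Y : X.Cov Q) : IsStar X.G (fun v => (Y.h v).2) := by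
  -- the colour of a neighbour
  have key : ∀ f, ((Y.h (X.vt (X.R f))).2 = Y.lab f ∧ (Y.h (X.vt (X.R (X.R f)))).2 = (Y.h (X.vt f)).1
      ∧ (Y.h (X.vt (X.R f))).1 = (Y.h (X.vt f)).2) ∨
      ((Y.h (X.vt (X.R (X.R f)))).2 = Y.lab f ∧ (Y.h (X.vt (X.R f))).2 = (Y.h (X.vt f)).1
      ∧ (Y.h (X.vt (X.R (X.R f)))).1 = (Y.h (X.vt f)).2) := by
    intro f
    have := Y.hrot f
    simp only [rot, Prod.mk.injEq] at this
    rcases this with h | h
    · exact Or.inl ⟨h.1.2.1, h.2.2.1, h.1.1⟩
    · exact Or.inr ⟨h.2.2.1, h.1.2.1, h.2.1⟩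
  -- neighbours: either a unique one, or its arc points to `v`
  have nb : ∀ v w, X.G.Adj v w → ((Y.h v).2 = (Y.h w).1 ∧ (Y.h w).2 ≠ (Y.h v).1 ∧
      (Y.h w).2 ≠ (Y.h v).2 ∧ (∀ w', X.G.Adj v w' → (Y.h w').2 = (Y.h w).2 → w' = w)) ∨
      ((Y.h w).2 = (Y.h v).1) := by
    intro v w hvw
    obtain ⟨f, hf, hf'⟩ := X.adj_iff.1 hvw
    have hD := Y.dist f
    have hD1 : Y.lab f ≠ (Y.h v).1 := by rw [← hf]; exact fun e => hD.2.2 e.symm
    have hD2 : Y.lab f ≠ (Y.h v).2 := by rw [← hf]; exact fun e => hD.2.1 e.symm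
    -- uniqueness for the label
    have uniq : ∀ w', X.G.Adj v w' → (Y.h w').2 = Y.lab f →
        (w' = X.vt (X.R f) ∧ (Y.h (X.vt (X.R f))).2 = Y.lab f) ∨
        (w' = X.vt (X.R (X.R f)) ∧ (Y.h (X.vt (X.R (X.R f)))).2 = Y.lab f) := by
      intro w' hw' e
      obtain ⟨g, hg, hg'⟩ := X.adj_iff.1 hw'
      have hgf : Y.lab g = Y.lab f := by
        rcases key g with h | h <;> rcases hg' with e' | e'
        · rw [← h.1, e', e]
        · exfalso; apply hD1; rw [← e, ← e', h.2.1, hg]
        · exfalso; apply hD1; rw [← e, ← e', h.2.1, hg]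
        · rw [← h.1, e', e]
      have : g = f := Y.unique g f (hg.trans hf.symm) hgf
      subst this
      rcases hg' with e' | e'
      · exact Or.inl ⟨e'.symm, by rw [e']; exact e⟩
      · exact Or.inr ⟨e'.symm, by rw [e']; exact e⟩
    rcases key f with h | h <;> rcases hf' with e | e
    · left
      rw [e, hf] at h
      refine ⟨h.2.2.symm, by rw [h.1]; exact hD1, by rw [h.1]; exact hD2, fun w' hw' ew => ?_⟩
      rcases uniq w' hw' (ew.trans h.1) with u | u
      · rw [u.1, e]
      · exfalso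
        apply hD1
        rw [← u.2, h.2.1]
    · right
      rw [e, hf] at h
      exact h.2.1
    · right
      rw [e, hf] at h
      exact h.2.1
    · left
      rw [e, hf] at h
      refine ⟨h.2.2.symm, by rw [h.1]; exact hD1, by rw [h.1]; exact hD2, fun w' hw' ew => ?_⟩
      rcases uniq w' hw' (ew.trans h.1) with u | u
      · exfalso
        apply hD1
        rw [← u.2, h.2.1]
      · rw [u.1, e]
  have dist' : ∀ v w, X.G.Adj v w → (Y.h v).1 ≠ (Y.h v).2 := by
    intro v w h
    obtain ⟨f, hf, _⟩ := X.adj_iff.1 h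
    rw [← hf]; exact (Y.dist f).1
  constructor
  · intro u v h e
    rcases nb u v h with h' | h'
    · exact h'.2.2.1 e.symm
    · exact dist' u v h (h'.symm.trans e.symm)
  · intro x y z w hxy hyz hzw hxz hyw hxw ⟨e1, e2⟩
    simp only at e1 e2
    rcases nb y z hyz with h | h
    · exact hxz (h.2.2.2 x hxy.symm e1)
    · rcases nb z y hyz.symm with h' | h'
      · exact hyw (h'.2.2.2 w hzw e2.symm).symm
      · -- both directions: impossible
        exfalso
        obtain ⟨f, hf, hf'⟩ := X.adj_iff.1 hyz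
        have hD := Y.dist f
        rcases key f with k | k <;> rcases hf' with e | e
        · rw [e, hf] at k
          rw [hf] at hD
          exact hD.2.2 (h.symm.trans k.1)
        · have := Y.hrot f
          simp only [rot, Prod.mk.injEq] at this
          rw [e, hf] at this
          rw [hf] at hD
          rcases this with t | t
          · exact hD.2.1 (h'.trans t.2.1)
          · exact hD.2.2 (h.symm.trans t.2.2.1)
        · have := Y.hrot f
          simp only [rot, Prod.mk.injEq] at this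
          rw [e, hf] at this
          rw [hf] at hD
          rcases this with t | t
          · exact hD.2.2 (h.symm.trans t.1.2.1)
          · exact hD.2.1 (h'.trans t.1.1)
        · rw [e, hf] at k
          rw [hf] at hD
          exact hD.2.2 (h.symm.trans k.1)

end FS

end Pool.Agent.V11256.ST
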