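import Pool.Agent.V11256.ST.Red

/-!
# The reduction as a function on lists
-/

set_option autoImplicit false
set_option linter.unusedSectionVars false

namespace Pool.Agent.V11256.ST

open Pool.Agent.NPC Pool.Agent.H692R2

/-- The graph with a given list of vertices and a given list of edges. -/
def gr (x : List ℕ × List (ℕ × ℕ)) : SimpleGraph {v : ℕ // v ∈ x.1} where
  Adj u v := u ≠ v ∧ ((u.1, v.1) ∈ x.2 ∨ (v.1, u.1) ∈ x.2)
  symm := ⟨fun _ _ h => ⟨h.1.symm, h.2.symm⟩⟩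
  loopless := ⟨fun _ h => h.1 rfl⟩

/-- Names of the vertices. -/
def cK (q c i j : ℕ) : ℕ := 2 * ((c * q + i) * q + j)
/-- Names of the vertices. -/
def cW (q c k i j : ℕ) : ℕ := 2 * (((c * q + k) * q + i) * q + j) + 1

theorem dq {q a b a' b' : ℕ} (hb : b < q) (hb' : b' < q) (h : a * q + b = a' * q + b') :
    a = a' ∧ b = b' := by
  rcases lt_trichotomy a a' with h1 | h1 | h1
  · exfalso
    have : (a + 1) * q ≤ a' * q := Nat.mul_le_mul_right q h1
    rw [Nat.add_mul] at this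
    omega
  · subst h1; exact ⟨rfl, by omega⟩
  · exfalso
    have : (a' + 1) * q ≤ a * q := Nat.mul_le_mul_right q h1
    rw [Nat.add_mul] at this
    omega

/-- The name of a vertex. -/
def code {M q : ℕ} : (Fin M ⊕ (Fin M × Fin q)) × (Fin q × Fin q) → ℕ
  | (Sum.inl c, i, j) => cK q c i j
  | (Sum.inr o, i, j) => cW q o.1 o.2 i j

theorem code_inj {M q : ℕ} : Function.Injective (code (M := M) (q := q)) := by
  rintro ⟨b, i, j⟩ ⟨b', i', j'⟩ h
  rcases b with c | ⟨c, k⟩ <;> rcases b' with c' | ⟨c', k'⟩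
  · simp only [code, cK] at h
    obtain ⟨h1, h2⟩ := dq j.2 j'.2 (Nat.eq_of_mul_eq_mul_left (by norm_num) h)
    obtain ⟨h3, h4⟩ := dq i.2 i'.2 h1
    rw [Fin.ext h3, Fin.ext h4, Fin.ext h2]
  · simp only [code, cK, cW] at h
    omega
  · simp only [code, cK, cW] at h
    omega
  · simp only [code, cW] at h
    have h0 : 2 * ((((c : ℕ) * q + k) * q + i) * q + j) =
      2 * ((((c' : ℕ) * q + k') * q + i') * q + j') := by omega
    obtain ⟨h1, h2⟩ := dq j.2 j'.2 (Nat.eq_of_mul_eq_mul_left (by norm_num) h0)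
    obtain ⟨h3, h4⟩ := dq i.2 i'.2 h1
    obtain ⟨h5, h6⟩ := dq k.2 k'.2 h3
    rw [Fin.ext h5, Fin.ext h6, Fin.ext h4, Fin.ext h2]

/-- All quadruples of numbers below `q`. -/
def quads (q : ℕ) : List (ℕ × ℕ × ℕ × ℕ) :=
  (List.range q).flatMap fun k => (List.range q).flatMap fun i => (List.range q).flatMap fun j =>
    (List.range q).map fun l => (k, i, j, l)

theorem mem_quads {q k i j l : ℕ} : (k, i, j, l) ∈ quads q ↔ k < q ∧ i < q ∧ j < q ∧ l < q := by
  simp [quads, List.mem_flatMap, List.mem_map, List.mem_range]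

/-- Vertices. -/
def vF (q c : ℕ) (x : ℕ × ℕ × ℕ × ℕ) : List ℕ :=
  if x.2.1 ≠ x.2.2.1 then cK q c x.2.1 x.2.2.1 ::
    (if x.1 ≠ 0 ∧ x.1 ≠ 1 then [cW q c x.1 x.2.1 x.2.2.1] else []) else []

/-- The list of the vertices. -/
def VL (p : ℕ) (E : List (ℕ × ℕ)) : List ℕ :=
  (List.range (3 * E.length)).flatMap fun c => (quads (p + 2)).flatMap fun x => vF (p + 2) c x

/-- Edges in the blocks `inl c`. -/
def e1 (q c : ℕ) (x : ℕ × ℕ × ℕ × ℕ) : List (ℕ × ℕ) :=
  if (x.2.1 ≠ x.2.2.1 ∧ x.2.2.1 ≠ x.2.2.2 ∧ x.2.1 ≠ x.2.2.2) ∧ ¬ (x.2.1 = 0 ∧ x.2.2.1 = 1) ∧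
    ¬ (x.2.2.1 = 0 ∧ x.2.2.2 = 1) then
    [(cK q c x.2.1 x.2.2.1, cK q c x.2.2.1 x.2.2.2)] else []

/-- Edges between blocks. -/
def e2 (E : List (ℕ × ℕ)) (q c : ℕ) (x : ℕ × ℕ × ℕ × ℕ) : List (ℕ × ℕ) :=
  if x.1 ≠ 0 ∧ x.1 ≠ 1 then
    [(cK q c 0 1, cW q c x.1 1 2), (cK q c 0 1, cW q (gN E c x.1).1 (gN E c x.1).2 2 0),
      (cW q c x.1 1 2, cW q (gN E c x.1).1 (gN E c x.1).2 2 0),
      (cW q c x.1 0 1, cK q (a1 E.length c x.1) 1 x.1),
      (cW q c x.1 0 1, cK q (a1 E.length c x.1) x.1 0)] else []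

/-- Edges in the blocks `inr (c, k)`. -/
def e3 (q c : ℕ) (x : ℕ × ℕ × ℕ × ℕ) : List (ℕ × ℕ) :=
  if (x.1 ≠ 0 ∧ x.1 ≠ 1) ∧ (x.2.1 ≠ x.2.2.1 ∧ x.2.2.1 ≠ x.2.2.2 ∧ x.2.1 ≠ x.2.2.2) ∧
    x.2 ≠ (0, 1, 2) ∧ x.2 ≠ (1, 2, 0) ∧ x.2 ≠ (2, 0, 1) then
    [(cW q c x.1 x.2.1 x.2.2.1, cW q c x.1 x.2.2.1 x.2.2.2)] else []

/-- The list of the edges. -/
def EL (p : ℕ) (E : List (ℕ × ℕ)) : List (ℕ × ℕ) :=
  (List.range (3 * E.length)).flatMap fun c => (quads (p + 2)).flatMap fun x =>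
    e1 (p + 2) c x ++ (e2 E (p + 2) c x ++ e3 (p + 2) c x)

theorem mem_VL {p : ℕ} {E : List (ℕ × ℕ)} {n : ℕ} : n ∈ VL p E ↔
    ∃ c < 3 * E.length, ∃ x ∈ quads (p + 2), n ∈ vF (p + 2) c x := by
  simp [VL, List.mem_flatMap, List.mem_range]

theorem mem_EL {p : ℕ} {E : List (ℕ × ℕ)} {n : ℕ × ℕ} : n ∈ EL p E ↔
    ∃ c < 3 * E.length, ∃ x ∈ quads (p + 2), n ∈ e1 (p + 2) c x ∨ n ∈ e2 E (p + 2) c x ∨
      n ∈ e3 (p + 2) c x := by
  simp only [EL, List.mem_flatMap, List.mem_range, List.mem_append]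

section iso

variable (E : List (ℕ × ℕ)) (p : ℕ) (hp : 3 ≤ p)

theorem code_mem (v : (data E p hp).V) : code v.1 ∈ VL p E := by
  obtain ⟨⟨b, i, j⟩, hb, hij⟩ := v
  have hij' : i.1 ≠ j.1 := fun e => hij (Fin.ext e)
  rw [mem_VL]
  rcases b with c | ⟨c, k⟩
  · refine ⟨c, c.2, (0, i, j, 0), mem_quads.2 ⟨by omega, i.2, j.2, by omega⟩, ?_⟩
    simp only [vF, code]
    rw [if_pos hij']
    simp
  · refine ⟨c, c.2, (k, i, j, 0), mem_quads.2 ⟨k.2, i.2, j.2, by omega⟩, ?_⟩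
    have hk := (ok_iff E p hp (c, k)).1 hb
    simp only [vF, code]
    rw [if_pos hij', if_pos hk]
    simp

theorem code_surj {n : ℕ} (hn : n ∈ VL p E) : ∃ v : (data E p hp).V, code v.1 = n := by
  rw [mem_VL] at hn
  obtain ⟨c, hc, ⟨k, i, j, l⟩, hx, hn⟩ := hn
  obtain ⟨h1, h2, h3, h4⟩ := mem_quads.1 hx
  simp only [vF] at hn
  split_ifs at hn with g1 g2
  · simp only [List.mem_cons, List.not_mem_nil, or_false] at hn
    have hne : (⟨i, h2⟩ : Fin (p + 2)) ≠ ⟨j, h3⟩ := fun e => g1 (congrArg Fin.val e)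
    rcases hn with rfl | rfl
    · exact ⟨⟨(Sum.inl ⟨c, hc⟩, ⟨i, h2⟩, ⟨j, h3⟩), trivial, hne⟩, rfl⟩
    · exact ⟨⟨(Sum.inr (⟨c, hc⟩, ⟨k, h1⟩), ⟨i, h2⟩, ⟨j, h3⟩), (ok_iff E p hp _).2 g2, hne⟩, rfl⟩
  · simp only [List.mem_cons, List.not_mem_nil, or_false] at hn
    have hne : (⟨i, h2⟩ : Fin (p + 2)) ≠ ⟨j, h3⟩ := fun e => g1 (congrArg Fin.val e)
    subst hn
    exact ⟨⟨(Sum.inl ⟨c, hc⟩, ⟨i, h2⟩, ⟨j, h3⟩), trivial, hne⟩, rfl⟩
  · simp at hn

theorem out_adj (f : (data E p hp).F) : ∃ u v : (data E p hp).V, u.1 = Dt.vt f.1 ∧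
    v.1 = (data E p hp).outV f.1 ∧ ((data E p hp).fs (hQ p)).G.Adj u v :=
  ⟨(data E p hp).vt' f, (data E p hp).vt' ((data E p hp).R' f), rfl, (data E p hp).vt_R f.1,
    ((data E p hp).fs (hQ p)).adj_R f⟩

theorem in_adj (f : (data E p hp).F) : ∃ u v : (data E p hp).V, u.1 = Dt.vt f.1 ∧
    v.1 = (data E p hp).inV f.1 ∧ ((data E p hp).fs (hQ p)).G.Adj u v :=
  ⟨(data E p hp).vt' f, (data E p hp).vt' ((data E p hp).R' ((data E p hp).R' f)), rfl,
    (data E p hp).vt_RR f.2, ((data E p hp).fs (hQ p)).adj_RR f⟩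

theorem αP_eq (c : Fin (3 * E.length)) (k : Fin (p + 2)) :
    (data E p hp).α (c, k) = (⟨a1 E.length c k, a1_lt c.2⟩, k) := rfl

theorem γP_eq (c : Fin (3 * E.length)) (k : Fin (p + 2)) :
    (data E p hp).γ (c, k) = (⟨(gN E c k).1, gN_lt E c.2⟩,
      ⟨(gN E c k).2, gN_lt2 E k.2 (by omega)⟩) := rfl

theorem EL_sound {n : ℕ × ℕ} (hn : n ∈ EL p E) : ∃ u v : (data E p hp).V,
    n = (code u.1, code v.1) ∧ ((data E p hp).fs (hQ p)).G.Adj u v := by
  rw [mem_EL] at hn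
  obtain ⟨c, hc, ⟨k, i, j, l⟩, hx, hn⟩ := hn
  obtain ⟨h1, h2, h3, h4⟩ := mem_quads.1 hx
  have useO : ∀ f : (data E p hp).F, n = (code (Dt.vt f.1), code ((data E p hp).outV f.1)) →
      ∃ u v : (data E p hp).V, n = (code u.1, code v.1) ∧
        ((data E p hp).fs (hQ p)).G.Adj u v := by
    intro f hf
    obtain ⟨u, v, hu, hv, ha⟩ := out_adj E p hp f
    exact ⟨u, v, by rw [hu, hv]; exact hf, ha⟩
  have useI : ∀ f : (data E p hp).F, n = (code (Dt.vt f.1), code ((data E p hp).inV f.1)) →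
      ∃ u v : (data E p hp).V, n = (code u.1, code v.1) ∧
        ((data E p hp).fs (hQ p)).G.Adj u v := by
    intro f hf
    obtain ⟨u, v, hu, hv, ha⟩ := in_adj E p hp f
    exact ⟨u, v, by rw [hu, hv]; exact hf, ha⟩
  rcases hn with hn | hn | hn
  · unfold e1 at hn
    split_ifs at hn with g
    · obtain ⟨⟨g1, g2, g3⟩, g4, g5⟩ := g
      simp only [List.mem_cons, List.not_mem_nil, or_false] at hn
      refine useO ⟨(Sum.inl ⟨c, hc⟩, ⟨i, h2⟩, ⟨j, h3⟩, ⟨l, h4⟩), trivial,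
        fun e => g1 (congrArg Fin.val e), fun e => g2 (congrArg Fin.val e),
        fun e => g3 (congrArg Fin.val e)⟩ ?_
      rw [hn]
      simp only [Dt.vt, Dt.outV]
      rw [if_neg (fun h => g4 ⟨congrArg Fin.val h.1, congrArg Fin.val h.2⟩),
        if_neg (fun h => g5 ⟨congrArg Fin.val h.1, congrArg Fin.val h.2⟩)]
      rfl
    · simp at hn
  · unfold e2 at hn
    split_ifs at hn with g
    · simp only at g
      have hok : (data E p hp).ok (⟨c, hc⟩, ⟨k, h1⟩) := (ok_iff E p hp _).2 g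
      simp only [List.mem_cons, List.not_mem_nil, or_false] at hn
      rcases hn with hn | hn | hn | hn | hn
      · refine useO ((data E p hp).fv (⟨c, hc⟩, ⟨k, h1⟩) hok) ?_
        rw [← Dt.vt_R, hn]
        simp only [Dt.fv, Dt.R_a]
        rfl
      · refine useI ((data E p hp).fv (⟨c, hc⟩, ⟨k, h1⟩) hok) ?_
        rw [← Dt.vt_RR _ ((data E p hp).fv (⟨c, hc⟩, ⟨k, h1⟩) hok).2, hn]
        simp only [Dt.fv, Dt.R_a, Dt.R_B, γP_eq]
        rfl
      · refine useO ((data E p hp).fB (⟨c, hc⟩, ⟨k, h1⟩) hok) ?_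
        rw [← Dt.vt_R, hn]
        simp only [Dt.fB, Dt.R_B, γP_eq]
        rfl
      · refine useO ((data E p hp).fA (⟨c, hc⟩, ⟨k, h1⟩) hok) ?_
        rw [← Dt.vt_R, hn]
        simp only [Dt.fA, Dt.R_A, αP_eq]
        rfl
      · refine useI ((data E p hp).fA (⟨c, hc⟩, ⟨k, h1⟩) hok) ?_
        rw [← Dt.vt_RR _ ((data E p hp).fA (⟨c, hc⟩, ⟨k, h1⟩) hok).2, hn]
        simp only [Dt.fA, Dt.R_A, αP_eq]
        rw [Dt.R_b _ _ _ hok.1]
        rfl
    · simp at hn
  · unfold e3 at hn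
    split_ifs at hn with g
    · obtain ⟨g0, ⟨g1, g2, g3⟩, g4, g5, g6⟩ := g
      simp only [List.mem_cons, List.not_mem_nil, or_false] at hn
      simp only at g0
      have hok : (data E p hp).ok (⟨c, hc⟩, ⟨k, h1⟩) := (ok_iff E p hp _).2 g0
      refine useO ⟨(Sum.inr (⟨c, hc⟩, ⟨k, h1⟩), ⟨i, h2⟩, ⟨j, h3⟩, ⟨l, h4⟩), hok,
        fun e => g1 (congrArg Fin.val e), fun e => g2 (congrArg Fin.val e),
        fun e => g3 (congrArg Fin.val e)⟩ ?_
      rw [← Dt.vt_R, hn]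
      simp only
      rw [Dt.R_nr]
      · rfl
      · intro h
        simp only [Prod.mk.injEq] at h
        exact g4 (Prod.ext (congrArg Fin.val h.1)
          (Prod.ext (congrArg Fin.val h.2.1) (congrArg Fin.val h.2.2)))
      · intro h
        simp only [Prod.mk.injEq] at h
        exact g5 (Prod.ext (congrArg Fin.val h.1)
          (Prod.ext (congrArg Fin.val h.2.1) (congrArg Fin.val h.2.2)))
      · intro h
        simp only [Prod.mk.injEq] at h
        exact g6 (Prod.ext (congrArg Fin.val h.1)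
          (Prod.ext (congrArg Fin.val h.2.1) (congrArg Fin.val h.2.2)))
    · simp at hn

theorem mem_e2 {q c k : ℕ} (hk : k ≠ 0 ∧ k ≠ 1) :
    (cK q c 0 1, cW q c k 1 2) ∈ e2 E q c (k, 0, 0, 0) ∧
    (cK q c 0 1, cW q (gN E c k).1 (gN E c k).2 2 0) ∈ e2 E q c (k, 0, 0, 0) ∧
    (cW q c k 1 2, cW q (gN E c k).1 (gN E c k).2 2 0) ∈ e2 E q c (k, 0, 0, 0) ∧
    (cW q c k 0 1, cK q (a1 E.length c k) 1 k) ∈ e2 E q c (k, 0, 0, 0) ∧
    (cW q c k 0 1, cK q (a1 E.length c k) k 0) ∈ e2 E q c (k, 0, 0, 0) := by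
  unfold e2
  simp only [if_pos hk]
  simp

theorem eq3 {n : ℕ} {i j k a b c : Fin n} (h1 : i.1 = a.1) (h2 : j.1 = b.1) (h3 : k.1 = c.1) :
    (i, j, k) = (a, b, c) := by
  rw [Fin.ext h1, Fin.ext h2, Fin.ext h3]

theorem EL_complete (f : (data E p hp).F) :
    (code (Dt.vt f.1), code ((data E p hp).outV f.1)) ∈ EL p E ∨
    (code ((data E p hp).outV f.1), code (Dt.vt f.1)) ∈ EL p E := by
  obtain ⟨⟨b, i, j, k⟩, hb, h1, h2, h3⟩ := f
  simp only at h1 h2 h3
  have hz0 : (data E p hp).z0 = (⟨0, by omega⟩ : Fin (p + 2)) := rfl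
  have hz1 : (data E p hp).z1 = (⟨1, by omega⟩ : Fin (p + 2)) := rfl
  have hz2 : (data E p hp).z2 = (⟨2, by omega⟩ : Fin (p + 2)) := rfl
  have he2 : ∀ (c : Fin (3 * E.length)) (k : Fin (p + 2)) (n : ℕ × ℕ),
      n ∈ e2 E (p + 2) c (k.1, 0, 0, 0) → n ∈ EL p E := fun c k n h =>
    mem_EL.2 ⟨c, c.2, _, mem_quads.2 ⟨k.2, by omega, by omega, by omega⟩, Or.inr (Or.inl h)⟩
  simp only
  rw [← Dt.vt_R]
  rcases b with c | ⟨c, s⟩
  · by_cases g1 : i = (data E p hp).z0 ∧ j = (data E p hp).z1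
    · obtain ⟨rfl, rfl⟩ := g1
      left
      rw [Dt.R_a]
      have hk : k.1 ≠ 0 ∧ k.1 ≠ 1 :=
        ⟨fun e => h3 (Fin.ext e).symm, fun e => h2 (Fin.ext e).symm⟩
      exact he2 c k _ (mem_e2 E hk).1
    · by_cases g2 : j = (data E p hp).z0 ∧ k = (data E p hp).z1
      · obtain ⟨rfl, rfl⟩ := g2
        right
        rw [Dt.R_c _ _ _ h1]
        have hi : i.1 ≠ 0 ∧ i.1 ≠ 1 := ⟨fun e => h1 (Fin.ext e), fun e => h3 (Fin.ext e)⟩
        obtain ⟨⟨c', k'⟩, hck⟩ : ∃ o, o = (data E p hp).α.symm (c, i) := ⟨_, rfl⟩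
        rw [← hck]
        have hα : (data E p hp).α (c', k') = (c, i) := by rw [hck, Equiv.apply_symm_apply]
        rw [αP_eq, Prod.mk.injEq] at hα
        obtain ⟨ha1, ha2⟩ := hα
        subst ha2
        subst ha1
        exact he2 c' k' _ (mem_e2 E hi).2.2.2.2
      · left
        rw [Dt.R_nl _ _ _ g1 g2]
        refine mem_EL.2 ⟨c, c.2, (0, i, j, k), mem_quads.2 ⟨by omega, i.2, j.2, k.2⟩, Or.inl ?_⟩
        unfold e1
        rw [if_pos]
        · simp [code, Dt.vt, rot]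
        · exact ⟨⟨fun e => h1 (Fin.ext e), fun e => h2 (Fin.ext e), fun e => h3 (Fin.ext e)⟩,
            fun h => g1 ⟨Fin.ext h.1, Fin.ext h.2⟩, fun h => g2 ⟨Fin.ext h.1, Fin.ext h.2⟩⟩
  · have hs : s.1 ≠ 0 ∧ s.1 ≠ 1 := (ok_iff E p hp (c, s)).1 hb
    by_cases g1 : (i, j, k) = ((data E p hp).z0, (data E p hp).z1, (data E p hp).z2)
    · left
      rw [g1, Dt.R_A, αP_eq]
      simp only [Prod.mk.injEq] at g1
      exact he2 c s _ (mem_e2 E hs).2.2.2.1
    · by_cases g2 : (i, j, k) = ((data E p hp).z1, (data E p hp).z2, (data E p hp).z0)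
      · left
        rw [g2, Dt.R_B, γP_eq]
        exact he2 c s _ (mem_e2 E hs).2.2.1
      · by_cases g3 : (i, j, k) = ((data E p hp).z2, (data E p hp).z0, (data E p hp).z1)
        · right
          rw [g3, Dt.R_C]
          obtain ⟨⟨c', k'⟩, hck⟩ : ∃ o, o = (data E p hp).γ.symm (c, s) := ⟨_, rfl⟩
          rw [← hck]
          have hok := (data E p hp).ok_γs hb
          rw [← hck] at hok
          have hk' := (ok_iff E p hp _).1 hok
          have hγ : (data E p hp).γ (c', k') = (c, s) := by rw [hck, Equiv.apply_symm_apply]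
          rw [γP_eq, Prod.mk.injEq] at hγ
          obtain ⟨ha1, ha2⟩ := hγ
          subst ha2
          subst ha1
          exact he2 c' k' _ (mem_e2 E hk').2.1
        · left
          rw [Dt.R_nr _ _ _ g1 g2 g3]
          refine mem_EL.2 ⟨c, c.2, (s, i, j, k), mem_quads.2 ⟨s.2, i.2, j.2, k.2⟩,
            Or.inr (Or.inr ?_)⟩
          unfold e3
          rw [if_pos]
          · simp [code, Dt.vt, rot]
          · refine ⟨hs, ⟨fun e => h1 (Fin.ext e), fun e => h2 (Fin.ext e),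
              fun e => h3 (Fin.ext e)⟩, ?_, ?_, ?_⟩
            · intro h
              simp only [Prod.mk.injEq] at h
              exact g1 (eq3 h.1 h.2.1 h.2.2)
            · intro h
              simp only [Prod.mk.injEq] at h
              exact g2 (eq3 h.1 h.2.1 h.2.2)
            · intro h
              simp only [Prod.mk.injEq] at h
              exact g3 (eq3 h.1 h.2.1 h.2.2)

/-- The constructed graph is the graph given by the lists. -/
theorem listIso : Nonempty (((data E p hp).fs (hQ p)).G ≃g gr (VL p E, EL p E)) := by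
  refine ⟨⟨Equiv.ofBijective (fun v => ⟨code v.1, code_mem E p hp v⟩) ⟨?_, ?_⟩, ?_⟩⟩
  · intro u v h
    simp only [Subtype.mk.injEq] at h
    exact Subtype.ext (code_inj h)
  · rintro ⟨n, hn⟩
    obtain ⟨v, hv⟩ := code_surj E p hp hn
    exact ⟨v, Subtype.ext hv⟩
  · intro u v
    simp only [Equiv.ofBijective_apply]
    constructor
    · rintro ⟨_, h | h⟩
      · obtain ⟨u', v', h1, h2⟩ := EL_sound E p hp h
        simp only [Prod.mk.injEq] at h1
        have e1 : u = u' := Subtype.ext (code_inj h1.1)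
        have e2 : v = v' := Subtype.ext (code_inj h1.2)
        rw [e1, e2]; exact h2
      · obtain ⟨u', v', h1, h2⟩ := EL_sound E p hp h
        simp only [Prod.mk.injEq] at h1
        have e1 : v = u' := Subtype.ext (code_inj h1.1)
        have e2 : u = v' := Subtype.ext (code_inj h1.2)
        rw [e1, e2]; exact h2.symm
    · intro h
      refine ⟨fun e => h.ne (Subtype.ext (code_inj (congrArg Subtype.val e))), ?_⟩
      obtain ⟨f, hf | hf⟩ := h
      · have h1 : Dt.vt f.1 = u.1 := congrArg Subtype.val hf.1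
        have h2 : (data E p hp).outV f.1 = v.1 := by
          rw [← Dt.vt_R]; exact congrArg Subtype.val hf.2
        have := EL_complete E p hp f
        rw [h1, h2] at this
        exact this
      · have h1 : Dt.vt f.1 = v.1 := congrArg Subtype.val hf.1
        have h2 : (data E p hp).outV f.1 = u.1 := by
          rw [← Dt.vt_R]; exact congrArg Subtype.val hf.2
        have := EL_complete E p hp f
        rw [h1, h2] at this
        exact this.symm

end iso

/-! ### Polynomial time -/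

section

variable {α : Type} [TEnc α]

theorem poly_val {E : α → List (ℕ × ℕ)} {t : α → ℕ} (hE : Poly E) (ht : Poly t) :
    Poly (fun a => val (E a) (t a)) := by
  unfold val
  have h : Poly (fun a => (E a).getD (t a / 2) (0, 0)) :=
    Poly.getD hE (Poly.div ht (NPC.Poly.const 2)) (NPC.Poly.const (0, 0))
  exact Poly.ite (Poly.decide_eq (Poly.mod ht (NPC.Poly.const 2)) (NPC.Poly.const 0)) (Poly.fst h)
    (Poly.snd h)

theorem poly_wr {N t i : α → ℕ} (hN : Poly N) (ht : Poly t) (hi : Poly i) :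
    Poly (fun a => wr (N a) (t a) (i a)) := by
  unfold wr
  have h : Poly (fun a => t a + 1 + i a) := Poly.add (Poly.succ ht) hi
  exact Poly.ite (Poly.decide_lt h hN) h (Poly.sub h hN)

theorem poly_i0 {E : α → List (ℕ × ℕ)} {t : α → ℕ} (hE : Poly E) (ht : Poly t) :
    Poly (fun a => i0 (E a) (t a)) := by
  unfold i0
  have hN : UPoly (fun a => 2 * (E a).length) := UPoly.mul (UPoly.const 2) (UPoly.length hE)
  refine Poly.head?_getD (Poly.filter (p := fun a i => decide (val (E a)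
    (wr (2 * (E a).length) (t a) i) = val (E a) (t a))) hN.range ?_) 0
  have hE' : Poly (fun x : α × ℕ => E x.1) := hE.comp (Poly.fst Poly.id)
  have ht' : Poly (fun x : α × ℕ => t x.1) := ht.comp (Poly.fst Poly.id)
  have hN' : Poly (fun x : α × ℕ => 2 * (E x.1).length) := hN.toPoly.comp (Poly.fst Poly.id)
  exact Poly.decide_eq (poly_val hE' (poly_wr hN' ht' (Poly.snd Poly.id))) (poly_val hE' ht')

theorem poly_nx {E : α → List (ℕ × ℕ)} {t : α → ℕ} (hE : Poly E) (ht : Poly t) :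
    Poly (fun a => nx (E a) (t a)) := by
  unfold nx
  exact poly_wr (UPoly.mul (UPoly.const 2) (UPoly.length hE)).toPoly ht (poly_i0 hE ht)

theorem poly_gN {E : α → List (ℕ × ℕ)} {c k : α → ℕ} (hE : Poly E) (hc : Poly c) (hk : Poly k) :
    Poly (fun a => gN (E a) (c a) (k a)) := by
  unfold gN
  have ht : Poly (fun a => nx (E a) (2 * (c a / 3) + (k a - 2))) :=
    poly_nx hE (Poly.add (Poly.mul (NPC.Poly.const 2) (Poly.div hc (NPC.Poly.const 3)))
      (Poly.sub hk (NPC.Poly.const 2)))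
  exact Poly.ite (Poly.decide_and (Poly.decide_eq (Poly.mod hc (NPC.Poly.const 3)) (NPC.Poly.const 0))
      (Poly.decide_or (Poly.decide_eq hk (NPC.Poly.const 2)) (Poly.decide_eq hk (NPC.Poly.const 3))))
    (Poly.pair (Poly.mul (NPC.Poly.const 3) (Poly.div ht (NPC.Poly.const 2)))
      (Poly.add (NPC.Poly.const 2) (Poly.mod ht (NPC.Poly.const 2))))
    (Poly.pair hc hk)

theorem poly_a1 {m c k : α → ℕ} (hm : Poly m) (hc : Poly c) (hk : Poly k) :
    Poly (fun a => a1 (m a) (c a) (k a)) := by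
  unfold a1
  have c3 : Poly (fun a => c a % 3) := Poly.mod hc (NPC.Poly.const 3)
  refine Poly.ite (Poly.decide_eq hk (NPC.Poly.const 4))
    (Poly.ite (Poly.decide_eq c3 (NPC.Poly.const 2)) (Poly.sub hc (NPC.Poly.const 2))
      (Poly.add hc (NPC.Poly.const 1)))
    (Poly.ite (Poly.decide_and (Poly.decide_eq hk (NPC.Poly.const 3))
        (Poly.decide_and (Poly.decide_eq c3 (NPC.Poly.const 1))
          (Poly.decide_lt (Poly.add hc (NPC.Poly.const 4)) (Poly.mul (NPC.Poly.const 3) hm))))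
      (Poly.add hc (NPC.Poly.const 4))
      (Poly.ite (Poly.decide_and (Poly.decide_eq hk (NPC.Poly.const 3))
        (Poly.decide_and (Poly.decide_eq c3 (NPC.Poly.const 2))
          (Poly.decide_le (NPC.Poly.const 4) hc)))
        (Poly.sub hc (NPC.Poly.const 4)) hc))

theorem poly_cK (q : ℕ) {c i j : α → ℕ} (hc : Poly c) (hi : Poly i) (hj : Poly j) :
    Poly (fun a => cK q (c a) (i a) (j a)) := by
  unfold cK
  exact Poly.mul (NPC.Poly.const 2) (Poly.add (Poly.mul (Poly.add (Poly.mul hc (NPC.Poly.const q)) hi)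
    (NPC.Poly.const q)) hj)

theorem poly_cW (q : ℕ) {c k i j : α → ℕ} (hc : Poly c) (hk : Poly k) (hi : Poly i)
    (hj : Poly j) : Poly (fun a => cW q (c a) (k a) (i a) (j a)) := by
  unfold cW
  exact Poly.add (Poly.mul (NPC.Poly.const 2) (Poly.add (Poly.mul (Poly.add (Poly.mul
    (Poly.add (Poly.mul hc (NPC.Poly.const q)) hk) (NPC.Poly.const q)) hi) (NPC.Poly.const q)) hj))
    (NPC.Poly.const 1)

variable {x : α → ℕ × ℕ × ℕ × ℕ} {c : α → ℕ}

theorem poly_vF (q : ℕ) (hc : Poly c) (hx : Poly x) : Poly (fun a => vF q (c a) (x a)) := by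
  unfold vF
  have x1 := Poly.fst hx
  have x2 := Poly.fst (Poly.snd hx)
  have x3 := Poly.fst (Poly.snd (Poly.snd hx))
  exact Poly.ite (Poly.decide_not (Poly.decide_eq x2 x3))
    (Poly.cons (poly_cK q hc x2 x3)
      (Poly.ite (Poly.decide_and (Poly.decide_not (Poly.decide_eq x1 (NPC.Poly.const 0)))
          (Poly.decide_not (Poly.decide_eq x1 (NPC.Poly.const 1))))
        (Poly.cons (poly_cW q hc x1 x2 x3) (NPC.Poly.const [])) (NPC.Poly.const [])))
    (NPC.Poly.const [])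

theorem poly_e1 (q : ℕ) (hc : Poly c) (hx : Poly x) : Poly (fun a => e1 q (c a) (x a)) := by
  unfold e1
  have x2 := Poly.fst (Poly.snd hx)
  have x3 := Poly.fst (Poly.snd (Poly.snd hx))
  have x4 := Poly.snd (Poly.snd (Poly.snd hx))
  exact Poly.ite (Poly.decide_and (Poly.decide_and (Poly.decide_not (Poly.decide_eq x2 x3))
      (Poly.decide_and (Poly.decide_not (Poly.decide_eq x3 x4))
        (Poly.decide_not (Poly.decide_eq x2 x4))))
      (Poly.decide_and (Poly.decide_not (Poly.decide_and (Poly.decide_eq x2 (NPC.Poly.const 0))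
        (Poly.decide_eq x3 (NPC.Poly.const 1))))
        (Poly.decide_not (Poly.decide_and (Poly.decide_eq x3 (NPC.Poly.const 0))
        (Poly.decide_eq x4 (NPC.Poly.const 1))))))
    (Poly.cons (Poly.pair (poly_cK q hc x2 x3) (poly_cK q hc x3 x4)) (NPC.Poly.const []))
    (NPC.Poly.const [])

theorem poly_e2 (q : ℕ) {E : α → List (ℕ × ℕ)} (hE : Poly E) (hc : Poly c) (hx : Poly x) :
    Poly (fun a => e2 (E a) q (c a) (x a)) := by
  unfold e2
  have x1 := Poly.fst hx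
  have h0 : Poly (fun _ : α => 0) := NPC.Poly.const 0
  have h1 : Poly (fun _ : α => 1) := NPC.Poly.const 1
  have h2 : Poly (fun _ : α => 2) := NPC.Poly.const 2
  have hg := poly_gN hE hc x1
  have ha := poly_a1 (UPoly.length hE).toPoly hc x1
  have g1 := poly_cW q (Poly.fst hg) (Poly.snd hg) h2 h0
  exact Poly.ite (Poly.decide_and (Poly.decide_not (Poly.decide_eq x1 (NPC.Poly.const 0)))
      (Poly.decide_not (Poly.decide_eq x1 (NPC.Poly.const 1))))
    (Poly.cons (Poly.pair (poly_cK q hc h0 h1) (poly_cW q hc x1 h1 h2))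
      (Poly.cons (Poly.pair (poly_cK q hc h0 h1) g1)
        (Poly.cons (Poly.pair (poly_cW q hc x1 h1 h2) g1)
          (Poly.cons (Poly.pair (poly_cW q hc x1 h0 h1) (poly_cK q ha h1 x1))
            (Poly.cons (Poly.pair (poly_cW q hc x1 h0 h1) (poly_cK q ha x1 h0))
              (NPC.Poly.const []))))))
    (NPC.Poly.const [])

theorem poly_e3 (q : ℕ) (hc : Poly c) (hx : Poly x) : Poly (fun a => e3 q (c a) (x a)) := by
  unfold e3
  have x1 := Poly.fst hx
  have xr := Poly.snd hx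
  have x2 := Poly.fst (Poly.snd hx)
  have x3 := Poly.fst (Poly.snd (Poly.snd hx))
  have x4 := Poly.snd (Poly.snd (Poly.snd hx))
  exact Poly.ite (Poly.decide_and (Poly.decide_and
        (Poly.decide_not (Poly.decide_eq x1 (NPC.Poly.const 0)))
        (Poly.decide_not (Poly.decide_eq x1 (NPC.Poly.const 1))))
      (Poly.decide_and (Poly.decide_and (Poly.decide_not (Poly.decide_eq x2 x3))
      (Poly.decide_and (Poly.decide_not (Poly.decide_eq x3 x4))
        (Poly.decide_not (Poly.decide_eq x2 x4))))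
      (Poly.decide_and (Poly.decide_not (Poly.decide_eq xr (NPC.Poly.const (0, 1, 2))))
        (Poly.decide_and (Poly.decide_not (Poly.decide_eq xr (NPC.Poly.const (1, 2, 0))))
        (Poly.decide_not (Poly.decide_eq xr (NPC.Poly.const (2, 0, 1))))))))
    (Poly.cons (Poly.pair (poly_cW q hc x1 x2 x3) (poly_cW q hc x1 x3 x4)) (NPC.Poly.const []))
    (NPC.Poly.const [])

theorem poly_red (p : ℕ) : Poly (fun E : List (ℕ × ℕ) => (VL p E, EL p E)) := by
  have hM : UPoly (fun E : List (ℕ × ℕ) => 3 * E.length) :=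
    UPoly.mul (UPoly.const 3) (UPoly.length Poly.id)
  refine Poly.pair ?_ ?_
  · unfold VL
    refine Poly.flatMap (F := fun (_ : List (ℕ × ℕ)) c => (quads (p + 2)).flatMap fun x =>
      vF (p + 2) c x) hM.range ?_
    refine Poly.flatMap (F := fun (y : List (ℕ × ℕ) × ℕ) x => vF (p + 2) y.2 x)
      (NPC.Poly.const _) ?_
    exact poly_vF _ (Poly.snd (Poly.fst Poly.id)) (Poly.snd Poly.id)
  · unfold EL
    refine Poly.flatMap (F := fun (E : List (ℕ × ℕ)) c => (quads (p + 2)).flatMap fun x =>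
      e1 (p + 2) c x ++ (e2 E (p + 2) c x ++ e3 (p + 2) c x)) hM.range ?_
    refine Poly.flatMap (F := fun (y : List (ℕ × ℕ) × ℕ) x => e1 (p + 2) y.2 x ++
      (e2 y.1 (p + 2) y.2 x ++ e3 (p + 2) y.2 x)) (NPC.Poly.const _) ?_
    exact Poly.append (poly_e1 _ (Poly.snd (Poly.fst Poly.id)) (Poly.snd Poly.id))
      (Poly.append (poly_e2 _ (Poly.fst (Poly.fst Poly.id)) (Poly.snd (Poly.fst Poly.id))
        (Poly.snd Poly.id)) (poly_e3 _ (Poly.snd (Poly.fst Poly.id)) (Poly.snd Poly.id)))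

end

end Pool.Agent.V11256.ST
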