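import Pool.Agent.V11256.ST.Blocks

/-!
# Counting in the blocks of a covering
-/

set_option autoImplicit false
set_option linter.unusedSectionVars false

namespace Pool.Agent.V11256.ST

open Finset

namespace FS

variable {V F : Type*} [Fintype V] [Fintype F] [DecidableEq V] [DecidableEq F] {p : ℕ}
  {X : FS V F p} {Q : Type*} [Fintype Q] [DecidableEq Q] (Y : X.Cov Q)

/-- The image of a flag. -/
def Cov.im (f : F) : Q × Q × Q := ((Y.h (X.vt f)).1, (Y.h (X.vt f)).2, Y.lab f)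

theorem Cov.im_D (f : F) : D (Y.im f) := Y.dist f

theorem Cov.im_rot (f : F) : (Y.im (X.R f) = rot (Y.im f) ∧ Y.im (X.R (X.R f)) =
    rot (rot (Y.im f))) ∨ (Y.im (X.R f) = rot (rot (Y.im f)) ∧ Y.im (X.R (X.R f)) =
    rot (Y.im f)) := Y.hrot f

theorem R_inj : Function.Injective X.R := fun f g h => by
  rw [← X.R3 f, ← X.R3 g, h]

theorem Cov.rot_le (S : Finset F) (hS : ∀ f ∈ S, X.R f ∈ S) (t : Q × Q × Q) :
    #{f ∈ S | Y.im f = t} ≤ #{f ∈ S | Y.im f = rot t} := by
  refine card_le_card_of_injOn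
    (fun f => if Y.im (X.R f) = rot (Y.im f) then X.R f else X.R (X.R f)) ?_ ?_
  · intro f hf
    simp only [coe_filter, Set.mem_setOf_eq] at hf ⊢
    split_ifs with h
    · exact ⟨hS _ hf.1, by rw [h, hf.2]⟩
    · refine ⟨hS _ (hS _ hf.1), ?_⟩
      rcases Y.im_rot f with h' | h'
      · exact absurd h'.1 h
      · rw [h'.2, hf.2]
  · intro f hf g hg e
    simp only [coe_filter, Set.mem_setOf_eq] at hf hg
    have key : ∀ f g : F, Y.im f = t → Y.im g = t → X.R (X.R f) = X.R g → f = g := by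
      intro f g hf hg e
      exfalso
      have h1 : X.R f = g := R_inj e
      have hD := Y.im_D f
      rcases Y.im_rot f with h | h
      · rw [h1, hg, hf] at h
        rw [hf] at hD
        exact rot_ne hD h.1.symm
      · rw [h1, hg, hf] at h
        rw [hf] at hD
        exact rot2_ne hD h.1.symm
    simp only at e
    split_ifs at e with h1 h2 h2
    · exact R_inj e
    · exact (key g f hg.2 hf.2 e.symm).symm
    · exact key f g hf.2 hg.2 e
    · exact R_inj (R_inj e)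

theorem Cov.rot_eq (S : Finset F) (hS : ∀ f ∈ S, X.R f ∈ S) (t : Q × Q × Q) :
    #{f ∈ S | Y.im f = t} = #{f ∈ S | Y.im f = rot t} := by
  have h1 := Y.rot_le S hS t
  have h2 := Y.rot_le S hS (rot t)
  have h3 := Y.rot_le S hS (rot (rot t))
  rw [rot3] at h3
  omega

theorem Cov.nf (Vs : Finset V) (t : Q × Q × Q) (ht : D t) :
    #{v ∈ Vs | Y.h v = (t.1, t.2.1)} = #{f : F | X.vt f ∈ Vs ∧ Y.im f = t} := by
  obtain ⟨x, y, z⟩ := t
  symm
  refine card_bij (fun f _ => X.vt f) ?_ ?_ ?_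
  · intro f hf
    simp only [mem_filter, mem_univ, true_and, Cov.im, Prod.mk.injEq] at hf ⊢
    exact ⟨hf.1, Prod.ext hf.2.1 hf.2.2.1⟩
  · intro f hf g hg e
    simp only [mem_filter, mem_univ, true_and, Cov.im, Prod.mk.injEq] at hf hg
    exact Y.unique f g e (hf.2.2.2.trans hg.2.2.2.symm)
  · intro v hv
    simp only [mem_filter] at hv
    obtain ⟨f, hf, hf'⟩ := Y.exist v z (by rw [hv.2]; exact ht.2.2.symm)
      (by rw [hv.2]; exact ht.2.1.symm)
    exact ⟨f, by simp [Cov.im, hf, hf', hv.1, hv.2], hf⟩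

theorem Cov.arc_ne (hp : 0 < p) (v : V) : (Y.h v).1 ≠ (Y.h v).2 := by
  have : (#{f | X.vt f = v} : ℕ) ≠ 0 := by rw [X.deg]; omega
  obtain ⟨f, hf⟩ := card_pos.1 (Nat.pos_of_ne_zero this)
  simp only [mem_filter, mem_univ, true_and] at hf
  rw [← hf]
  exact (Y.dist f).1

theorem Cov.sum_n (hp : 0 < p) (Vs : Finset V) :
    ∑ e ∈ (univ : Finset Q).offDiag, #{v ∈ Vs | Y.h v = e} = #Vs := by
  symm
  refine card_eq_sum_card_fiberwise fun v _ => ?_
  simp [Y.arc_ne hp v]

theorem Cov.sum_μ (Es : Finset F) : ∑ t ∈ trip Q, #{f ∈ Es | Y.im f = t} = #Es := by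
  symm
  exact card_eq_sum_card_fiberwise fun f _ => mem_trip.2 (Y.im_D f)

/-- Blocks with three deficient flags. -/
theorem Cov.block3 (hp : 3 ≤ p) (hQ : Fintype.card Q = p + 2) (Vs : Finset V) (Fi Es : Finset F)
    (hVs : #Vs = Fintype.card Q * Fintype.card Q - Fintype.card Q)
    (hdis : Disjoint Fi Es) (hun : ∀ f, X.vt f ∈ Vs ↔ f ∈ Fi ∪ Es)
    (hR : ∀ f ∈ Fi, X.R f ∈ Fi) (hE : #Es ≤ 3) (t : Q × Q × Q) (ht : D t) :
    #{f ∈ Es | Y.im f = t} = #{f ∈ Es | Y.im f = rot t} := by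
  set n : Q → Q → ℕ := fun x y => #{v ∈ Vs | Y.h v = (x, y)} with hn
  have hrel : ∀ t : Q × Q × Q, D t → n t.1 t.2.1 = #{f ∈ Fi | Y.im f = t} +
      #{f ∈ Es | Y.im f = t} := by
    intro t ht
    rw [hn]
    simp only
    rw [Y.nf Vs t ht, ← card_union_of_disjoint (disjoint_filter_filter hdis), ← filter_union]
    congr 1
    ext f
    simp only [mem_filter, mem_univ, true_and, hun]
  have hrel2 : ∀ t : Q × Q × Q, D t → n t.1 t.2.1 + #{f ∈ Es | Y.im f = rot t} =
      n t.2.1 t.2.2 + #{f ∈ Es | Y.im f = t} := by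
    intro t ht
    have h1 := hrel t ht
    have h2 := hrel (rot t) (D_rot ht)
    have h3 := Y.rot_eq Fi hR t
    simp only [rot] at h2 h3 ⊢
    omega
  have hoff : #((univ : Finset Q).offDiag) = Fintype.card Q * Fintype.card Q - Fintype.card Q := by
    rw [offDiag_card, card_univ]
  have hsum : ∑ e ∈ (univ : Finset Q).offDiag, n e.1 e.2 =
      #((univ : Finset Q).offDiag) := by
    rw [hoff, ← hVs]
    exact Y.sum_n (by omega) Vs
  have hμ : ∑ t ∈ trip Q, #{f ∈ Es | Y.im f = t} < 2 * (Fintype.card Q - 2) := by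
    rw [Y.sum_μ, hQ]; omega
  have hno := fun (z w : Q) (hzw : z ≠ w) (h0 : n z w = 0) =>
    no_two (by omega) n (fun t => #{f ∈ Es | Y.im f = t}) (fun t ht => by
      have := hrel2 t ht; omega) hμ hzw h0
  have hpos : ∀ e ∈ (univ : Finset Q).offDiag, 1 ≤ n e.1 e.2 := by
    intro e he
    by_contra hlt
    have h0 : n e.1 e.2 = 0 := by omega
    have hne : e.1 ≠ e.2 := by simpa using he
    have h1 := hno e.1 e.2 hne h0
    have h2 : ∑ e ∈ (univ : Finset Q).offDiag, n e.1 e.2 <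
        ∑ e ∈ (univ : Finset Q).offDiag, 1 :=
      sum_lt_sum (fun i hi => h1 i.1 i.2 (by simpa using hi)) ⟨e, he, by omega⟩
    rw [hsum] at h2
    simp at h2
  have hone : ∀ e ∈ (univ : Finset Q).offDiag, n e.1 e.2 = 1 := by
    intro e he
    by_contra hne
    have h2 : ∑ e ∈ (univ : Finset Q).offDiag, 1 < ∑ e ∈ (univ : Finset Q).offDiag, n e.1 e.2 :=
      sum_lt_sum (fun i hi => hpos i hi) ⟨e, he, by have := hpos e he; omega⟩
    rw [hsum] at h2
    simp at h2
  have h1 := hone (t.1, t.2.1) (by simpa using ht.1)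
  have h2 := hone (t.2.1, t.2.2) (by simpa using ht.2.1)
  have h3 := hrel2 t ht
  simp only at h1 h2
  omega

/-- Blocks without one vertex. -/
theorem Cov.blockp (hp : 3 ≤ p) (hQ : Fintype.card Q = p + 2) (Vs : Finset V) (Fc Es : Finset F)
    (hVs : #Vs + 1 = Fintype.card Q * Fintype.card Q - Fintype.card Q)
    (hdis : ∀ f ∈ Es, X.vt f ∉ Vs) (hun : ∀ f, f ∈ Fc ↔ X.vt f ∈ Vs ∨ f ∈ Es)
    (hR : ∀ f ∈ Fc, X.R f ∈ Fc) (hE : #Es = p) :
    ∃ e : Q × Q, ∀ f ∈ Es, Y.h (X.vt f) = e := by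
  set n : Q → Q → ℕ := fun x y => #{v ∈ Vs | Y.h v = (x, y)} with hn
  have hrel : ∀ t : Q × Q × Q, D t → n t.1 t.2.1 + #{f ∈ Es | Y.im f = t} =
      #{f ∈ Fc | Y.im f = t} := by
    intro t ht
    rw [hn]
    simp only
    rw [Y.nf Vs t ht, ← card_union_of_disjoint]
    · congr 1
      ext f
      simp only [mem_union, mem_filter, mem_univ, true_and, hun]
      tauto
    · rw [disjoint_left]
      intro f h1 h2
      simp only [mem_filter, mem_univ, true_and] at h1 h2
      exact hdis f h2.1 h1.1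
  have hrel2 : ∀ t : Q × Q × Q, D t → n t.1 t.2.1 + #{f ∈ Es | Y.im f = t} =
      n t.2.1 t.2.2 + #{f ∈ Es | Y.im f = rot t} := by
    intro t ht
    have h1 := hrel t ht
    have h2 := hrel (rot t) (D_rot ht)
    have h3 := Y.rot_eq Fc hR t
    simp only [rot] at h2 h3 ⊢
    omega
  have hoff : #((univ : Finset Q).offDiag) = Fintype.card Q * Fintype.card Q - Fintype.card Q := by
    rw [offDiag_card, card_univ]
  have hsum : ∑ e ∈ (univ : Finset Q).offDiag, n e.1 e.2 + 1 =
      #((univ : Finset Q).offDiag) := by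
    rw [hoff, ← hVs]
    congr 1
    exact Y.sum_n (by omega) Vs
  have hμ : ∑ t ∈ trip Q, #{f ∈ Es | Y.im f = t} < 2 * (Fintype.card Q - 2) := by
    rw [Y.sum_μ, hQ]; omega
  have hex : ∃ e ∈ (univ : Finset Q).offDiag, n e.1 e.2 = 0 := by
    by_contra hc
    push Not at hc
    have h2 : ∑ e ∈ (univ : Finset Q).offDiag, 1 ≤ ∑ e ∈ (univ : Finset Q).offDiag, n e.1 e.2 :=
      sum_le_sum fun i hi => Nat.one_le_iff_ne_zero.2 (hc i hi)
    simp only [sum_const, smul_eq_mul, mul_one] at h2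
    omega
  obtain ⟨e, he, h0⟩ := hex
  have hne : e.1 ≠ e.2 := by simpa using he
  have hle : ∀ x y, x ≠ y → n x y ≤ 1 :=
    no_two (by omega) n (fun t => #{f ∈ Es | Y.im f = t}) (fun t ht => by
      have := hrel2 t ht; omega) hμ hne h0
  have huniq : ∀ e' ∈ (univ : Finset Q).offDiag, e' ≠ e → n e'.1 e'.2 = 1 := by
    intro e' he' hne'
    have hne2 : e'.1 ≠ e'.2 := by simpa using he'
    by_contra hn1
    have h0' : n e'.1 e'.2 = 0 := by have := hle e'.1 e'.2 hne2; omega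
    have h3 : ∑ i ∈ (univ : Finset Q).offDiag, n i.1 i.2 ≤
        ∑ i ∈ (univ : Finset Q).offDiag, (if i = e ∨ i = e' then 0 else 1) := by
      refine sum_le_sum fun i hi => ?_
      split_ifs with h
      · rcases h with h | h
        · rw [h]; omega
        · rw [h]; omega
      · exact hle i.1 i.2 (by simpa using hi)
    have h4 : ∑ i ∈ (univ : Finset Q).offDiag, (if i = e ∨ i = e' then 0 else 1) +
        ∑ i ∈ (univ : Finset Q).offDiag, (if i = e ∨ i = e' then 1 else 0) =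
        #((univ : Finset Q).offDiag) := by
      rw [← sum_add_distrib, card_eq_sum_ones]
      refine sum_congr rfl fun i _ => ?_
      split_ifs <;> rfl
    have h5 : 2 ≤ ∑ i ∈ (univ : Finset Q).offDiag, (if i = e ∨ i = e' then 1 else 0) := by
      rw [← card_filter]
      have : ({e, e'} : Finset (Q × Q)) ⊆
          {i ∈ (univ : Finset Q).offDiag | i = e ∨ i = e'} := by
        intro i hi
        simp only [mem_insert, mem_singleton] at hi
        rcases hi with rfl | rfl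
        · exact mem_filter.2 ⟨he, Or.inl rfl⟩
        · exact mem_filter.2 ⟨he', Or.inr rfl⟩
      have h6 := card_le_card this
      rwa [card_pair hne'.symm] at h6
    omega
  have hμ1 : ∀ z, z ≠ e.1 → z ≠ e.2 → ∃ f ∈ Es, Y.im f = (e.1, e.2, z) := by
    intro z hz1 hz2
    have ht : D (e.1, e.2, z) := ⟨hne, hz2.symm, hz1.symm⟩
    have h1 := hrel2 _ ht
    have h2 := huniq (e.2, z) (by simp [hz2.symm]) (fun h => by
      rw [← h] at hne; exact hz2 (by rw [← h]))
    simp only at h1 h2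
    have h3 : 0 < #{f ∈ Es | Y.im f = (e.1, e.2, z)} := by omega
    obtain ⟨f, hf⟩ := card_pos.1 h3
    exact ⟨f, (mem_filter.1 hf).1, (mem_filter.1 hf).2⟩
  refine ⟨e, ?_⟩
  have hsub : {f ∈ Es | Y.h (X.vt f) = e} ⊆ Es := filter_subset _ _
  have hge : p ≤ #{f ∈ Es | Y.h (X.vt f) = e} := by
    have hc : #((univ.erase e.1).erase e.2) = p := by
      rw [card_erase_of_mem (mem_erase.2 ⟨hne.symm, mem_univ _⟩), card_erase_of_mem (mem_univ _),
        card_univ, hQ]
      omega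
    refine hc.symm.le.trans ?_
    refine card_le_card_of_surjOn Y.lab ?_
    intro z hz
    simp only [coe_erase, coe_univ, Set.mem_diff, Set.mem_univ, true_and,
      Set.mem_singleton_iff] at hz
    obtain ⟨f, hf, hf'⟩ := hμ1 z hz.1 hz.2
    simp only [Cov.im, Prod.mk.injEq] at hf'
    refine ⟨f, ?_, hf'.2.2⟩
    simp only [coe_filter, Set.mem_setOf_eq]
    exact ⟨hf, Prod.ext hf'.1 hf'.2.1⟩
  have heq := eq_of_subset_of_card_le hsub (by rw [hE]; exact hge)
  intro f hf
  rw [← heq] at hf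
  exact (mem_filter.1 hf).2

end FS

end Pool.Agent.V11256.ST
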