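import Mathlib

/-!
# An isoperimetric inequality for the arcs of a complete digraph
-/

set_option autoImplicit false

namespace Pool.Agent.V11256.ST

open Finset

/-- Ordered triples of distinct elements. -/
def D {Q : Type*} (t : Q × Q × Q) : Prop := t.1 ≠ t.2.1 ∧ t.2.1 ≠ t.2.2 ∧ t.1 ≠ t.2.2

instance {Q : Type*} [DecidableEq Q] : DecidablePred (D (Q := Q)) := fun _ => by
  unfold D; infer_instance

/-- Rotation. -/
def rot {Q : Type*} (t : Q × Q × Q) : Q × Q × Q := (t.2.1, t.2.2, t.1)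

theorem rot3 {Q : Type*} (t : Q × Q × Q) : rot (rot (rot t)) = t := rfl

theorem rot_inj {Q : Type*} : Function.Injective (rot (Q := Q)) := fun t s h => by
  rw [← rot3 t, ← rot3 s, h]

theorem D_rot {Q : Type*} {t : Q × Q × Q} (h : D t) : D (rot t) :=
  ⟨h.2.1, h.2.2.symm, h.1.symm⟩

theorem D_rot_iff {Q : Type*} {t : Q × Q × Q} : D (rot t) ↔ D t :=
  ⟨fun h => by rw [← rot3 t]; exact D_rot (D_rot h), D_rot⟩

theorem rot_ne {Q : Type*} {t : Q × Q × Q} (h : D t) : rot t ≠ t := fun e =>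
  h.1 (congrArg Prod.fst e).symm

theorem rot2_ne {Q : Type*} {t : Q × Q × Q} (h : D t) : rot (rot t) ≠ t := fun e =>
  h.2.2 (congrArg Prod.fst e).symm

theorem local_aux {N : Type*} [Fintype N] [DecidableEq N] (hN : 3 ≤ Fintype.card N)
    (a b : N → Prop) [DecidablePred a] [DecidablePred b]
    (h : (∃ i, a i) ∧ (∃ i, ¬ a i) ∨ (∀ i j, a i ↔ ¬ b j)) :
    Fintype.card N - 1 ≤ #{x : N × N | x.1 ≠ x.2 ∧ ¬ (a x.1 ↔ b x.2)} := by
  classical
  set P : Finset (N × N) := {x : N × N | x.1 ≠ x.2 ∧ ¬ (a x.1 ↔ b x.2)} with hP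
  have hmem : ∀ i k, i ≠ k → ¬ (a i ↔ b k) → k ∈ P.image Prod.snd := fun i k h1 h2 =>
    mem_image.2 ⟨(i, k), by simp [hP, h1, h2], rfl⟩
  have hbad : #((P.image Prod.snd)ᶜ) ≤ 1 := by
    rw [card_le_one]
    intro k hk k' hk'
    rw [mem_compl] at hk hk'
    have e1 : ∀ i, i ≠ k → (a i ↔ b k) := fun i hi => by
      by_contra hc; exact hk (hmem i k hi hc)
    have e2 : ∀ i, i ≠ k' → (a i ↔ b k') := fun i hi => by
      by_contra hc; exact hk' (hmem i k' hi hc)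
    by_contra hne
    rcases h with ⟨⟨i1, h1⟩, ⟨i2, h2⟩⟩ | h
    · obtain ⟨i3, h3⟩ : ∃ i3, i3 ∉ ({k, k'} : Finset N) := by
        by_contra hc
        push Not at hc
        have : (univ : Finset N) ⊆ {k, k'} := fun x _ => hc x
        have := card_le_card this
        rw [card_univ] at this
        have h2 : #({k, k'} : Finset N) ≤ 2 := card_le_two
        omega
      simp only [mem_insert, mem_singleton, not_or] at h3
      have f1 := e1 i3 h3.1
      have f2 := e2 i3 h3.2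
      have f3 := e1 k' (Ne.symm hne)
      have f4 := e2 k hne
      by_cases g1 : i1 = k
      · subst g1
        by_cases g2 : i2 = k'
        · subst g2; tauto
        · have := e2 i2 g2; tauto
      · have g1' := e1 i1 g1
        by_cases g2 : i2 = k
        · subst g2; tauto
        · have := e1 i2 g2; tauto
    · have f3 := e1 k' (Ne.symm hne)
      have := h k' k
      tauto
  have h1 : #(P.image Prod.snd) ≤ #P := card_image_le
  have h2 := card_compl (P.image Prod.snd)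
  have h3 : #(P.image Prod.snd) ≤ Fintype.card N := card_le_univ _
  omega

theorem local_count {N : Type*} [Fintype N] [DecidableEq N] (hN : 3 ≤ Fintype.card N)
    (a b : N → Prop) [DecidablePred a] [DecidablePred b]
    (h : ¬ ((∀ i, a i) ∧ (∀ i, b i))) (h' : ¬ ((∀ i, ¬ a i) ∧ (∀ i, ¬ b i))) :
    Fintype.card N - 1 ≤ #{x : N × N | x.1 ≠ x.2 ∧ ¬ (a x.1 ↔ b x.2)} := by
  classical
  by_cases hb : (∃ i, b i) ∧ (∃ i, ¬ b i)
  · refine (local_aux hN b a (Or.inl hb)).trans (le_of_eq ?_)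
    refine card_bij (fun x _ => (x.2, x.1)) ?_ ?_ ?_
    · intro x hx
      simp only [mem_filter, mem_univ, true_and] at hx ⊢
      exact ⟨hx.1.symm, fun e => hx.2 e.symm⟩
    · intro x _ y _ e
      simp only [Prod.mk.injEq] at e
      exact Prod.ext e.2 e.1
    · intro x hx
      simp only [mem_filter, mem_univ, true_and] at hx
      exact ⟨(x.2, x.1), by simpa using ⟨hx.1.symm, fun e => hx.2 e.symm⟩, rfl⟩
  · by_cases ha : (∃ i, a i) ∧ (∃ i, ¬ a i)
    · exact local_aux hN a b (Or.inl ha)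
    · refine local_aux hN a b (Or.inr fun i j => ?_)
      push Not at ha hb h h'
      have i0 := i
      by_cases h1 : a i
      · have h2 := ha ⟨i, h1⟩
        have h3 := h h2
        obtain ⟨k, hk⟩ := h3
        have h4 : ¬ b j := fun hj => hk (hb ⟨j, hj⟩ k)
        tauto
      · have h2 : ∀ i, ¬ a i := fun i' hi' => h1 (ha ⟨i', hi'⟩ i)
        obtain ⟨k, hk⟩ := h' h2
        have := hb ⟨k, hk⟩ j
        tauto

variable {Q : Type*} [Fintype Q] [DecidableEq Q]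

/-- The set of ordered triples of distinct elements. -/
def trip (Q : Type*) [Fintype Q] [DecidableEq Q] : Finset (Q × Q × Q) := {t | D t}

theorem mem_trip {t : Q × Q × Q} : t ∈ trip Q ↔ D t := by simp [trip]

theorem mid_count (hq : 5 ≤ Fintype.card Q) (S : Q → Q → Prop) [∀ i j, Decidable (S i j)]
    (j : Q) (h : ¬ ∀ i, i ≠ j → S i j ∧ S j i) (h' : ¬ ∀ i, i ≠ j → ¬ S i j ∧ ¬ S j i) :
    Fintype.card Q - 2 ≤ #{t ∈ trip Q | ¬ (S t.1 t.2.1 ↔ S t.2.1 t.2.2) ∧ t.2.1 = j} := by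
  classical
  have hc : Fintype.card {i : Q // i ≠ j} = Fintype.card Q - 1 := by
    simp [Fintype.card_subtype_compl]
  have := local_count (N := {i : Q // i ≠ j}) (by omega) (fun i => S i j) (fun k => S j k)
    (fun hh => h fun i hi => ⟨hh.1 ⟨i, hi⟩, hh.2 ⟨i, hi⟩⟩)
    (fun hh => h' fun i hi => ⟨hh.1 ⟨i, hi⟩, hh.2 ⟨i, hi⟩⟩)
  rw [hc] at this
  refine le_trans (by omega) (this.trans ?_)
  refine card_le_card_of_injOn (fun x => (x.1.1, j, x.2.1)) ?_ ?_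
  · intro x hx
    simp only [coe_filter, mem_univ, true_and, Set.mem_setOf_eq] at hx ⊢
    exact ⟨mem_trip.2 ⟨x.1.2, x.2.2.symm, fun e => hx.1 (Subtype.ext e)⟩, hx.2, trivial⟩
  · intro x _ y _ e
    simp only [Prod.mk.injEq, true_and] at e
    exact Prod.ext (Subtype.ext e.1) (Subtype.ext e.2)

theorem iso (hq : 5 ≤ Fintype.card Q) (S : Q → Q → Prop) [∀ i j, Decidable (S i j)]
    {x y z w : Q} (hxy : x ≠ y) (hS : S x y) (hzw : z ≠ w) (hnS : ¬ S z w) :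
    2 * (Fintype.card Q - 2) ≤ #{t ∈ trip Q | ¬ (S t.1 t.2.1 ↔ S t.2.1 t.2.2)} := by
  classical
  have key : ∃ a b : Q, a ≠ b ∧ (¬ ∀ i, i ≠ a → S i a ∧ S a i) ∧
      (¬ ∀ i, i ≠ a → ¬ S i a ∧ ¬ S a i) ∧ (¬ ∀ i, i ≠ b → S i b ∧ S b i) ∧
      (¬ ∀ i, i ≠ b → ¬ S i b ∧ ¬ S b i) := by
    have nz : ¬ ∀ i, i ≠ z → S i z ∧ S z i := fun h => hnS (h w hzw.symm).2
    have nw : ¬ ∀ i, i ≠ w → S i w ∧ S w i := fun h => hnS (h z hzw).1
    have nx : ¬ ∀ i, i ≠ x → ¬ S i x ∧ ¬ S x i := fun h => (h y hxy.symm).2 hS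
    have ny : ¬ ∀ i, i ≠ y → ¬ S i y ∧ ¬ S y i := fun h => (h x hxy).1 hS
    by_cases fx : ∀ i, i ≠ x → S i x ∧ S x i
    · have h1 : z ≠ x := fun e => by subst e; exact nz fx
      have h2 : w ≠ x := fun e => by subst e; exact nw fx
      exact ⟨z, w, hzw, nz, fun h => (h x h1.symm).1 (fx z h1).2, nw,
        fun h => (h x h2.symm).1 (fx w h2).2⟩
    · by_cases fy : ∀ i, i ≠ y → S i y ∧ S y i
      · have h1 : z ≠ y := fun e => by subst e; exact nz fy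
        have h2 : w ≠ y := fun e => by subst e; exact nw fy
        exact ⟨z, w, hzw, nz, fun h => (h y h1.symm).1 (fy z h1).2, nw,
          fun h => (h y h2.symm).1 (fy w h2).2⟩
      · exact ⟨x, y, hxy, fx, nx, fy, ny⟩
  obtain ⟨a, b, hab, ha1, ha2, hb1, hb2⟩ := key
  have ha := mid_count hq S a ha1 ha2
  have hb := mid_count hq S b hb1 hb2
  have hdis : Disjoint {t ∈ trip Q | ¬ (S t.1 t.2.1 ↔ S t.2.1 t.2.2) ∧ t.2.1 = a}
      {t ∈ trip Q | ¬ (S t.1 t.2.1 ↔ S t.2.1 t.2.2) ∧ t.2.1 = b} := by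
    rw [disjoint_filter]
    intro t _ h1 h2
    exact hab (h1.2.symm.trans h2.2)
  have h3 : {t ∈ trip Q | ¬ (S t.1 t.2.1 ↔ S t.2.1 t.2.2) ∧ t.2.1 = a} ∪
      {t ∈ trip Q | ¬ (S t.1 t.2.1 ↔ S t.2.1 t.2.2) ∧ t.2.1 = b} ⊆
      {t ∈ trip Q | ¬ (S t.1 t.2.1 ↔ S t.2.1 t.2.2)} := by
    intro t ht
    simp only [mem_union, mem_filter] at ht ⊢
    rcases ht with ht | ht
    · exact ⟨ht.1, ht.2.1⟩
    · exact ⟨ht.1, ht.2.1⟩
  have := card_le_card h3
  rw [card_union_of_disjoint hdis] at this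
  omega

theorem sum_rot (f : Q × Q × Q → ℕ) : ∑ t ∈ trip Q, f (rot t) = ∑ t ∈ trip Q, f t := by
  refine sum_bij (fun t _ => rot t) (fun t ht => mem_trip.2 (D_rot (mem_trip.1 ht)))
    (fun a _ b _ h => rot_inj h) (fun t ht => ⟨rot (rot t), ?_, rot3 t⟩) (fun _ _ => rfl)
  exact mem_trip.2 (D_rot (D_rot (mem_trip.1 ht)))

theorem coarea (hq : 5 ≤ Fintype.card Q) (n : Q → Q → ℕ) {x y z w : Q} (hxy : x ≠ y)
    (h2 : 2 ≤ n x y) (hzw : z ≠ w) (h0 : n z w = 0) :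
    4 * (Fintype.card Q - 2) ≤
      ∑ t ∈ trip Q, ((n t.1 t.2.1 : ℤ) - n t.2.1 t.2.2).natAbs := by
  have i1 := iso hq (fun i j => 1 ≤ n i j) hxy (by omega) hzw (by omega)
  have i2 := iso hq (fun i j => 2 ≤ n i j) hxy (by omega) hzw (by omega)
  rw [card_filter] at i1 i2
  have h : ∑ t ∈ trip Q, ((if ¬ (1 ≤ n t.1 t.2.1 ↔ 1 ≤ n t.2.1 t.2.2) then 1 else 0) +
      (if ¬ (2 ≤ n t.1 t.2.1 ↔ 2 ≤ n t.2.1 t.2.2) then 1 else 0)) ≤
      ∑ t ∈ trip Q, ((n t.1 t.2.1 : ℤ) - n t.2.1 t.2.2).natAbs := by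
    refine sum_le_sum fun t _ => ?_
    split_ifs <;> omega
  rw [sum_add_distrib] at h
  omega

/-- If the discrepancies are few, then the numbers are at most 1 as soon as one of them is 0. -/
theorem no_two (hq : 5 ≤ Fintype.card Q) (n : Q → Q → ℕ) (μ : Q × Q × Q → ℕ)
    (hrel : ∀ t, D t → ((n t.1 t.2.1 : ℤ) - n t.2.1 t.2.2).natAbs ≤ μ t + μ (rot t))
    (hμ : ∑ t ∈ trip Q, μ t < 2 * (Fintype.card Q - 2)) {z w : Q} (hzw : z ≠ w)
    (h0 : n z w = 0) (x y : Q) (hxy : x ≠ y) : n x y ≤ 1 := by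
  by_contra hc
  have h1 := coarea hq n hxy (by omega) hzw h0
  have h2 : ∑ t ∈ trip Q, ((n t.1 t.2.1 : ℤ) - n t.2.1 t.2.2).natAbs ≤
      ∑ t ∈ trip Q, (μ t + μ (rot t)) := sum_le_sum fun t ht => hrel t (mem_trip.1 ht)
  rw [sum_add_distrib, sum_rot] at h2
  omega

end Pool.Agent.V11256.ST
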