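import Pool.Agent.V11256.ST.Sound
import Pool.Agent.H692R2.Col

/-!
# The reduction from graph colouring
-/

set_option autoImplicit false
set_option linter.unusedSectionVars false

namespace Pool.Agent.V11256.ST

open Pool.Agent.NPC Pool.Agent.H692R2

/-! ### The successor of an end of an edge among the ends with the same vertex -/

/-- The vertex at position `t` of the list of the ends of the edges. -/
def val (E : List (ℕ × ℕ)) (t : ℕ) : ℕ :=
  if t % 2 = 0 then (E.getD (t / 2) (0, 0)).1 else (E.getD (t / 2) (0, 0)).2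

/-- The position `t + 1 + i`, cyclically. -/
def wr (N t i : ℕ) : ℕ := if t + 1 + i < N then t + 1 + i else t + 1 + i - N

/-- The least `i` such that the position `wr N t i` has the same vertex as `t`. -/
def i0 (E : List (ℕ × ℕ)) (t : ℕ) : ℕ :=
  ((List.range (2 * E.length)).filter
    (fun i => decide (val E (wr (2 * E.length) t i) = val E t))).head?.getD 0

/-- The next position. -/
def nx (E : List (ℕ × ℕ)) (t : ℕ) : ℕ := wr (2 * E.length) t (i0 E t)

theorem i0_spec (E : List (ℕ × ℕ)) {t : ℕ} (ht : t < 2 * E.length) :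
    i0 E t < 2 * E.length ∧ val E (nx E t) = val E t ∧
      ∀ i < i0 E t, val E (wr (2 * E.length) t i) ≠ val E t := by
  have hex : ∃ i, i < 2 * E.length ∧ val E (wr (2 * E.length) t i) = val E t :=
    ⟨2 * E.length - 1, by omega, by
      have : wr (2 * E.length) t (2 * E.length - 1) = t := by unfold wr; split_ifs <;> omega
      rw [this]⟩
  have hfind : ∃ i, (List.range (2 * E.length)).find?
      (fun i => decide (val E (wr (2 * E.length) t i) = val E t)) = some i := by
    rw [← Option.isSome_iff_exists, List.find?_isSome]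
    obtain ⟨i, h1, h2⟩ := hex
    exact ⟨i, List.mem_range.2 h1, by simpa using h2⟩
  obtain ⟨i, hi⟩ := hfind
  have h0 : i0 E t = i := by
    unfold i0
    rw [List.head?_filter, hi]
    rfl
  rw [List.find?_range_eq_some] at hi
  obtain ⟨h1, h2, h3⟩ := hi
  refine ⟨by rw [h0]; exact List.mem_range.1 h2, ?_, ?_⟩
  · unfold nx; rw [h0]; simpa using h1
  · intro j hj
    rw [h0] at hj
    simpa using h3 j hj

theorem nx_lt (E : List (ℕ × ℕ)) {t : ℕ} (ht : t < 2 * E.length) : nx E t < 2 * E.length := by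
  have := (i0_spec E ht).1
  unfold nx wr
  split_ifs <;> omega

theorem nx_inj (E : List (ℕ × ℕ)) {t t' : ℕ} (ht : t < 2 * E.length) (ht' : t' < 2 * E.length)
    (h : nx E t = nx E t') : t = t' := by
  have key : ∀ t t' : ℕ, t < 2 * E.length → t' < 2 * E.length → nx E t = nx E t' →
      i0 E t < i0 E t' → False := by
    intro t t' ht ht' h hlt
    obtain ⟨a1, a2, a3⟩ := i0_spec E ht
    obtain ⟨b1, b2, b3⟩ := i0_spec E ht'
    apply b3 (i0 E t' - i0 E t - 1) (by omega)
    have : wr (2 * E.length) t' (i0 E t' - i0 E t - 1) = t := by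
      unfold nx wr at h
      unfold wr
      split_ifs at h ⊢ <;> omega
    rw [this, ← a2, h, b2]
  rcases lt_trichotomy (i0 E t) (i0 E t') with h1 | h1 | h1
  · exact absurd (key t t' ht ht' h h1) (by simp)
  · obtain ⟨a1, _, _⟩ := i0_spec E ht
    unfold nx wr at h
    rw [h1] at h a1
    split_ifs at h <;> omega
  · exact absurd (key t' t ht' ht h.symm h1) (by simp)

theorem nx_conn (E : List (ℕ × ℕ)) {T : Type} (l : ℕ → T)
    (hl : ∀ t < 2 * E.length, l (nx E t) = l t) {t t' : ℕ} (ht : t < 2 * E.length)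
    (ht' : t' < 2 * E.length) (h : val E t = val E t') : l t = l t' := by
  have key : ∀ n, ∀ i, i ≤ n → ∀ t, t < 2 * E.length → i < 2 * E.length →
      val E (wr (2 * E.length) t i) = val E t → l (wr (2 * E.length) t i) = l t := by
    intro n
    induction n with
    | zero =>
      intro i hi t ht hi2 hv
      have hi0 : i = 0 := by omega
      subst hi0
      obtain ⟨a1, a2, a3⟩ := i0_spec E ht
      have : i0 E t = 0 := by
        by_contra hne
        exact a3 0 (by omega) hv
      have h2 := hl t ht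
      unfold nx at h2
      rw [this] at h2
      exact h2
    | succ n ih =>
      intro i hi t ht hi2 hv
      obtain ⟨a1, a2, a3⟩ := i0_spec E ht
      have hle : i0 E t ≤ i := by
        by_contra hlt
        exact a3 i (by omega) hv
      rcases Nat.lt_or_ge (i0 E t) i with hlt | hge
      · have e1 : wr (2 * E.length) (nx E t) (i - i0 E t - 1) = wr (2 * E.length) t i := by
          unfold nx wr
          split_ifs <;> omega
        have e2 := ih (i - i0 E t - 1) (by omega) (nx E t) (nx_lt E ht) (by omega)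
          (by rw [e1, hv, a2])
        rw [e1, hl t ht] at e2
        exact e2
      · have : i = i0 E t := by omega
        rw [this]
        exact hl t ht
  by_cases hlt : t < t'
  · have e : wr (2 * E.length) t (t' - t - 1) = t' := by unfold wr; split_ifs <;> omega
    have := key _ (t' - t - 1) le_rfl t ht (by omega) (by rw [e]; exact h.symm)
    rw [e] at this
    exact this.symm
  · have e : wr (2 * E.length) t (t' + 2 * E.length - t - 1) = t' := by
      unfold wr; split_ifs <;> omega
    have := key _ (t' + 2 * E.length - t - 1) le_rfl t ht (by omega) (by rw [e]; exact h.symm)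
    rw [e] at this
    exact this.symm

/-! ### The two permutations -/

/-- The first component of `α (c, k)`. -/
def a1 (m c k : ℕ) : ℕ :=
  if k = 4 then (if c % 3 = 2 then c - 2 else c + 1)
  else if k = 3 ∧ c % 3 = 1 ∧ c + 4 < 3 * m then c + 4
  else if k = 3 ∧ c % 3 = 2 ∧ 4 ≤ c then c - 4
  else c

theorem a1_lt {m c k : ℕ} (h : c < 3 * m) : a1 m c k < 3 * m := by
  unfold a1; split_ifs <;> omega

theorem a1_inj {m c c' k : ℕ} (h : c < 3 * m) (h' : c' < 3 * m) (e : a1 m c k = a1 m c' k) :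
    c = c' := by
  unfold a1 at e
  split_ifs at e <;> omega

/-- The permutation `γ` on pairs of numbers. -/
def gN (E : List (ℕ × ℕ)) (c k : ℕ) : ℕ × ℕ :=
  if c % 3 = 0 ∧ (k = 2 ∨ k = 3) then
    (3 * (nx E (2 * (c / 3) + (k - 2)) / 2), 2 + nx E (2 * (c / 3) + (k - 2)) % 2)
  else (c, k)

theorem gN_lt (E : List (ℕ × ℕ)) {c k : ℕ} (h : c < 3 * E.length) :
    (gN E c k).1 < 3 * E.length := by
  unfold gN
  split_ifs with h1
  · have := nx_lt E (t := 2 * (c / 3) + (k - 2)) (by omega)
    simp only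
    omega
  · exact h

theorem gN_lt2 (E : List (ℕ × ℕ)) {c k q : ℕ} (hk : k < q) (hq : 4 ≤ q) :
    (gN E c k).2 < q := by
  unfold gN
  split_ifs with h1
  · simp only
    omega
  · exact hk

theorem gN_ok (E : List (ℕ × ℕ)) {c k : ℕ} :
    (k ≠ 0 ∧ k ≠ 1) ↔ ((gN E c k).2 ≠ 0 ∧ (gN E c k).2 ≠ 1) := by
  unfold gN
  split_ifs with h1
  · simp only
    omega
  · exact Iff.rfl

theorem gN_inj (E : List (ℕ × ℕ)) {c k c' k' : ℕ} (h : c < 3 * E.length) (h' : c' < 3 * E.length)
    (e : gN E c k = gN E c' k') : c = c' ∧ k = k' := by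
  unfold gN at e
  split_ifs at e with h1 h2 h2
  · simp only [Prod.mk.injEq] at e
    have := nx_inj E (t := 2 * (c / 3) + (k - 2)) (t' := 2 * (c' / 3) + (k' - 2)) (by omega)
      (by omega) (by omega)
    omega
  · simp only [Prod.mk.injEq] at e
    omega
  · simp only [Prod.mk.injEq] at e
    omega
  · simpa using e

section data

variable (E : List (ℕ × ℕ)) (p : ℕ) (hp : 3 ≤ p)

/-- The permutation `α`. -/
noncomputable def αP : Equiv.Perm (Fin (3 * E.length) × Fin (p + 2)) :=
  Equiv.ofBijective (fun o => (⟨a1 E.length o.1 o.2, a1_lt o.1.2⟩, o.2))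
    (Finite.injective_iff_bijective.1 fun o o' h => by
      simp only [Prod.mk.injEq, Fin.mk.injEq] at h
      obtain ⟨h1, h2⟩ := h
      rw [h2] at h1
      exact Prod.ext (Fin.ext (a1_inj o.1.2 o'.1.2 h1)) h2)

/-- The permutation `γ`. -/
noncomputable def γP : Equiv.Perm (Fin (3 * E.length) × Fin (p + 2)) :=
  Equiv.ofBijective (fun o => (⟨(gN E o.1 o.2).1, gN_lt E o.1.2⟩,
      ⟨(gN E o.1 o.2).2, gN_lt2 E o.2.2 (by omega)⟩))
    (Finite.injective_iff_bijective.1 fun o o' h => by
      simp only [Prod.mk.injEq, Fin.mk.injEq] at h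
      have := gN_inj E o.1.2 o'.1.2 (Prod.ext h.1 h.2)
      exact Prod.ext (Fin.ext this.1) (Fin.ext this.2))

/-- The data of the construction. -/
noncomputable def data : Dt (Fin (3 * E.length)) (Fin (p + 2)) where
  z0 := ⟨0, by omega⟩
  z1 := ⟨1, by omega⟩
  z2 := ⟨2, by omega⟩
  h01 := by simp
  h02 := by simp
  h12 := by simp
  α := αP E p
  γ := γP E p hp
  hα o := Iff.rfl
  hγ o := by
    have h := gN_ok E (c := o.1) (k := o.2)
    have key : ∀ k : Fin (p + 2), (k ≠ ⟨0, by omega⟩ ∧ k ≠ ⟨1, by omega⟩) ↔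
        (k.1 ≠ 0 ∧ k.1 ≠ 1) := fun k =>
      ⟨fun h => ⟨fun e => h.1 (Fin.ext e), fun e => h.2 (Fin.ext e)⟩,
        fun h => ⟨fun e => h.1 (congrArg Fin.val e), fun e => h.2 (congrArg Fin.val e)⟩⟩
    rw [key, key]
    exact h

theorem hQ : Fintype.card (Fin (p + 2)) = p + 2 := by simp

theorem ok_iff (o : Fin (3 * E.length) × Fin (p + 2)) :
    (data E p hp).ok o ↔ (o.2.1 ≠ 0 ∧ o.2.1 ≠ 1) :=
  ⟨fun h => ⟨fun e => h.1 (Fin.ext e), fun e => h.2 (Fin.ext e)⟩,
    fun h => ⟨fun e => h.1 (congrArg Fin.val e), fun e => h.2 (congrArg Fin.val e)⟩⟩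

/-- Soundness: a star colouring of the graph gives a colouring. -/
theorem col_of_star {col : (data E p hp).V → Fin (p + 2)}
    (hc : IsStar ((data E p hp).fs (hQ p)).G col) : Col p E := by
  classical
  set X := data E p hp with hX
  obtain ⟨x, y, l, hxy, hl1, hl2, hl3⟩ := X.sound hp (hQ p) (hQ p) (by
    intro T f g h
    have hγ0 : ∀ o : Fin (3 * E.length) × Fin (p + 2),
        (o.1.1 % 3 ≠ 0 ∨ o.2.1 = 4) → X.γ o = o := by
      intro o ho
      have : gN E o.1 o.2 = (o.1.1, o.2.1) := by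
        unfold gN
        rw [if_neg]
        omega
      apply Prod.ext
      · apply Fin.ext
        show (gN E o.1 o.2).1 = _
        rw [this]
      · apply Fin.ext
        show (gN E o.1 o.2).2 = _
        rw [this]
    have step : ∀ (c c' : Fin (3 * E.length)) (k : ℕ) (hk : k < p + 2), 2 ≤ k →
        (c.1 % 3 ≠ 0 ∨ k = 4) → a1 E.length c k = c' → f c = g c' := by
      intro c c' k hk hk2 ho ha
      have h1 := h (c, ⟨k, hk⟩) ((ok_iff E p hp _).2 ⟨by simp only; omega, by simp only; omega⟩)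
        (hγ0 _ ho)
      have h2 : (X.α (c, ⟨k, hk⟩)).1 = c' := Fin.ext ha
      rw [h2] at h1
      exact h1
    -- inside a group of three
    have grp : ∀ j (h0 : 3 * j < 3 * E.length) (h1 : 3 * j + 1 < 3 * E.length)
        (h2 : 3 * j + 2 < 3 * E.length), f ⟨3 * j, h0⟩ = f ⟨3 * j + 1, h1⟩ ∧
        f ⟨3 * j, h0⟩ = f ⟨3 * j + 2, h2⟩ ∧ f ⟨3 * j, h0⟩ = g ⟨3 * j + 1, h1⟩ ∧
        f ⟨3 * j, h0⟩ = g ⟨3 * j + 2, h2⟩ := by
      intro j h0 h1 h2
      have e1 := step ⟨3 * j, h0⟩ ⟨3 * j + 1, h1⟩ 4 (by omega) (by omega) (Or.inr rfl) (by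
        unfold a1; rw [if_pos rfl, if_neg (by simp only; omega)])
      have e2 := step ⟨3 * j + 1, h1⟩ ⟨3 * j + 2, h2⟩ 4 (by omega) (by omega) (Or.inr rfl) (by
        unfold a1; rw [if_pos rfl, if_neg (by simp only; omega)])
      have e4 := step ⟨3 * j + 1, h1⟩ ⟨3 * j + 1, h1⟩ 2 (by omega) (by omega)
        (Or.inl (by simp only; omega)) (by
        unfold a1; simp)
      have e5 := step ⟨3 * j + 2, h2⟩ ⟨3 * j + 2, h2⟩ 2 (by omega) (by omega)
        (Or.inl (by simp only; omega)) (by
        unfold a1; simp)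
      refine ⟨e1.trans e4.symm, ?_, e1, ?_⟩
      · rw [e5, ← e2, e4, e1]
      · rw [← e2, e4, e1]
    have nxt : ∀ j (h0 : 3 * j < 3 * E.length) (h3 : 3 * (j + 1) < 3 * E.length),
        f ⟨3 * j, h0⟩ = f ⟨3 * (j + 1), h3⟩ := by
      intro j h0 h3
      have e1 := step ⟨3 * j + 1, by omega⟩ ⟨3 * (j + 1) + 2, by omega⟩ 3 (by omega) (by omega)
        (Or.inl (by simp only; omega)) (by
        unfold a1
        rw [if_neg (by omega), if_pos ⟨rfl, by simp only; omega, by simp only; omega⟩]
        simp only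
        omega)
      have g1 := grp j h0 (by omega) (by omega)
      have g2 := grp (j + 1) h3 (by omega) (by omega)
      rw [g1.1, e1, ← g2.2.2.2]
    have all0 : ∀ j (h0 : 3 * j < 3 * E.length) (hh : 3 * 0 < 3 * E.length),
        f ⟨3 * j, h0⟩ = f ⟨3 * 0, hh⟩ := by
      intro j
      induction j with
      | zero => intro h0 hh; rfl
      | succ j ih =>
        intro h0 hh
        rw [← nxt j (by omega) h0, ih (by omega) hh]
    have allc : ∀ (c : Fin (3 * E.length)) (hh : 3 * 0 < 3 * E.length), f c = f ⟨3 * 0, hh⟩ := by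
      intro c hh
      obtain ⟨c, hcl⟩ := c
      have h0 : 3 * (c / 3) < 3 * E.length := by omega
      have g1 := grp (c / 3) h0 (by omega) (by omega)
      rw [← all0 (c / 3) h0 hh]
      have hcases : c = 3 * (c / 3) ∨ c = 3 * (c / 3) + 1 ∨ c = 3 * (c / 3) + 2 := by omega
      rcases hcases with e | e | e
      · congr 1; exact Fin.ext e
      · rw [g1.1]; congr 1; exact Fin.ext e
      · rw [g1.2.1]; congr 1; exact Fin.ext e
    intro c c'
    have hh : 3 * 0 < 3 * E.length := by have := c.2; omega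
    rw [allc c hh, allc c' hh]) hc
  -- labels of the positions
  have hpos : ∀ t, t < 2 * E.length → 3 * (t / 2) < 3 * E.length := fun t ht => by omega
  have hpos2 : ∀ t, 2 + t % 2 < p + 2 := fun t => by omega
  set lN : ℕ → Fin (p + 2) := fun t => if h : t < 2 * E.length then
    l (⟨3 * (t / 2), hpos t h⟩, ⟨2 + t % 2, hpos2 t⟩) else x with hlN
  have hok : ∀ t (h : t < 2 * E.length),
      X.ok (⟨3 * (t / 2), hpos t h⟩, ⟨2 + t % 2, hpos2 t⟩) := fun t h =>
    (ok_iff E p hp _).2 ⟨by simp only; omega, by simp only; omega⟩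
  have hinv : ∀ t < 2 * E.length, lN (nx E t) = lN t := by
    intro t ht
    have h1 := hl3 _ (hok t ht)
    have h2 : X.γ (⟨3 * (t / 2), hpos t ht⟩, ⟨2 + t % 2, hpos2 t⟩) =
        (⟨3 * (nx E t / 2), hpos _ (nx_lt E ht)⟩, ⟨2 + nx E t % 2, hpos2 _⟩) := by
      have h3 : gN E (3 * (t / 2)) (2 + t % 2) = (3 * (nx E t / 2), 2 + nx E t % 2) := by
        unfold gN
        rw [if_pos (by omega)]
        have : 2 * (3 * (t / 2) / 3) + (2 + t % 2 - 2) = t := by omega
        rw [this]
      apply Prod.ext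
      · apply Fin.ext
        show (gN E (3 * (t / 2)) (2 + t % 2)).1 = _
        rw [h3]
      · apply Fin.ext
        show (gN E (3 * (t / 2)) (2 + t % 2)).2 = _
        rw [h3]
    rw [h2] at h1
    simp only [hlN, dif_pos ht, dif_pos (nx_lt E ht)]
    exact h1
  have hcardS : Fintype.card {z : Fin (p + 2) // z ≠ x ∧ z ≠ y} = p := by
    have h1 : Fintype.card {z : Fin (p + 2) // z ≠ x ∧ z ≠ y} =
        (((Finset.univ : Finset (Fin (p + 2))).erase x).erase y).card := by
      rw [Fintype.card_subtype]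
      congr 1
      ext z
      simp [and_comm]
    rw [h1, Finset.card_erase_of_mem (Finset.mem_erase.2 ⟨hxy.symm, Finset.mem_univ _⟩),
      Finset.card_erase_of_mem (Finset.mem_univ _), Finset.card_univ, hQ]
    omega
  let e := Fintype.equivFinOfCardEq hcardS
  have hne : ∀ t < 2 * E.length, lN t ≠ x ∧ lN t ≠ y := by
    intro t ht
    simp only [hlN, dif_pos ht]
    exact hl1 _ (hok t ht)
  refine ⟨fun v => if h : ∃ t, t < 2 * E.length ∧ val E t = v then
    e ⟨lN h.choose, hne _ h.choose_spec.1⟩ else ⟨0, by omega⟩, fun ed hed => ?_⟩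
  obtain ⟨j, hj, hje⟩ := List.mem_iff_getElem.1 hed
  have hval1 : val E (2 * j) = ed.1 := by
    unfold val
    rw [if_pos (by omega), show 2 * j / 2 = j by omega, List.getD_eq_getElem _ _ hj, hje]
  have hval2 : val E (2 * j + 1) = ed.2 := by
    unfold val
    rw [if_neg (by omega), show (2 * j + 1) / 2 = j by omega, List.getD_eq_getElem _ _ hj, hje]
  have hx1 : ∃ t, t < 2 * E.length ∧ val E t = ed.1 := ⟨2 * j, by omega, hval1⟩
  have hx2 : ∃ t, t < 2 * E.length ∧ val E t = ed.2 := ⟨2 * j + 1, by omega, hval2⟩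
  simp only [dif_pos hx1, dif_pos hx2]
  intro heq
  have h3 := congrArg Subtype.val (e.injective heq)
  simp only at h3
  rw [nx_conn E lN hinv hx1.choose_spec.1 (show 2 * j < 2 * E.length by omega)
      (hx1.choose_spec.2.trans hval1.symm),
    nx_conn E lN hinv hx2.choose_spec.1 (show 2 * j + 1 < 2 * E.length by omega)
      (hx2.choose_spec.2.trans hval2.symm)] at h3
  simp only [hlN, dif_pos (show 2 * j < 2 * E.length by omega),
    dif_pos (show 2 * j + 1 < 2 * E.length by omega)] at h3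
  have hf : (⟨3 * ((2 * j + 1) / 2), hpos _ (by omega)⟩ : Fin (3 * E.length)) =
      ⟨3 * (2 * j / 2), hpos _ (by omega)⟩ := Fin.ext (by simp only; omega)
  rw [hf] at h3
  have h4 := hl2 _ _ _ (hok (2 * j) (by omega)) (by
    have := hok (2 * j + 1) (by omega)
    rw [hf] at this
    exact this) h3
  simp only [Fin.mk.injEq] at h4
  omega

theorem exists_perm {q : ℕ} {z0 z1 a b a' b' : Fin q} (hab : a ≠ b) (hab' : a' ≠ b')
    (ha : a ≠ z0 ∧ a ≠ z1) (hb : b ≠ z0 ∧ b ≠ z1) (ha' : a' ≠ z0 ∧ a' ≠ z1)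
    (hb' : b' ≠ z0 ∧ b' ≠ z1) :
    ∃ π : Equiv.Perm (Fin q), π z0 = z0 ∧ π z1 = z1 ∧ π a = a' ∧ π b = b' := by
  set b1 := Equiv.swap a a' b with hb1
  have h0 : Equiv.swap a a' z0 = z0 := Equiv.swap_apply_of_ne_of_ne ha.1.symm ha'.1.symm
  have h1 : Equiv.swap a a' z1 = z1 := Equiv.swap_apply_of_ne_of_ne ha.2.symm ha'.2.symm
  have g0 : b1 ≠ z0 := fun e => hb.1 ((Equiv.swap a a').injective (e.trans h0.symm))
  have g1 : b1 ≠ z1 := fun e => hb.2 ((Equiv.swap a a').injective (e.trans h1.symm))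
  have g2 : b1 ≠ a' := fun e => hab ((Equiv.swap a a').injective
    (by rw [Equiv.swap_apply_left]; exact e.symm))
  refine ⟨(Equiv.swap a a').trans (Equiv.swap b1 b'), ?_, ?_, ?_, ?_⟩
  · rw [Equiv.trans_apply, h0, Equiv.swap_apply_of_ne_of_ne g0.symm hb'.1.symm]
  · rw [Equiv.trans_apply, h1, Equiv.swap_apply_of_ne_of_ne g1.symm hb'.2.symm]
  · rw [Equiv.trans_apply, Equiv.swap_apply_left, Equiv.swap_apply_of_ne_of_ne g2.symm hab']
  · rw [Equiv.trans_apply, ← hb1, Equiv.swap_apply_left]

/-- Completeness: a colouring gives a star colouring of the graph. -/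
theorem star_of_col (h : Col p E) :
    ∃ col : (data E p hp).V → Fin (p + 2), IsStar ((data E p hp).fs (hQ p)).G col := by
  classical
  obtain ⟨χ, hχ⟩ := h
  set z0 : Fin (p + 2) := ⟨0, by omega⟩ with hz0
  set z1 : Fin (p + 2) := ⟨1, by omega⟩ with hz1
  set k2 : Fin (p + 2) := ⟨2, by omega⟩ with hk2
  set k3 : Fin (p + 2) := ⟨3, by omega⟩ with hk3
  set k4 : Fin (p + 2) := ⟨4, by omega⟩ with hk4
  set χ' : ℕ → Fin (p + 2) := fun v => ⟨(χ v).1 + 2, by have := (χ v).2; omega⟩ with hχ'
  have χ0 : ∀ v, χ' v ≠ z0 ∧ χ' v ≠ z1 := fun v => by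
    simp [hχ', hz0, hz1, Fin.ext_iff]
  have hA : ∀ j : ℕ, ∃ π : Equiv.Perm (Fin (p + 2)), π z0 = z0 ∧ π z1 = z1 ∧
      (j < E.length → π k2 = χ' (E.getD j (0, 0)).1 ∧ π k3 = χ' (E.getD j (0, 0)).2) := by
    intro j
    by_cases hj : j < E.length
    · have hne : χ' (E.getD j (0, 0)).1 ≠ χ' (E.getD j (0, 0)).2 := by
        have := hχ (E.getD j (0, 0)) (by
          rw [List.getD_eq_getElem _ _ hj]; exact List.getElem_mem hj)
        intro e
        apply this
        simp only [hχ', Fin.mk.injEq, Nat.add_right_cancel_iff] at e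
        exact Fin.ext e
      obtain ⟨π, h0, h1, h2, h3⟩ := exists_perm (z0 := z0) (z1 := z1) (a := k2) (b := k3)
        (by simp [hk2, hk3]) hne (by simp [hk2, hz0, hz1]) (by simp [hk3, hz0, hz1])
        (χ0 _) (χ0 _)
      exact ⟨π, h0, h1, fun _ => ⟨h2, h3⟩⟩
    · exact ⟨1, rfl, rfl, fun h => absurd h hj⟩
  choose πA hA0 hA1 hA2 using hA
  set y : ℕ → Fin (p + 2) := fun j => πA j k4 with hy
  have hy0 : ∀ j, y j ≠ z0 ∧ y j ≠ z1 := fun j =>
    ⟨fun e => by
      have := (πA j).injective (e.trans (hA0 j).symm)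
      simp [hk4, hz0] at this, fun e => by
      have := (πA j).injective (e.trans (hA1 j).symm)
      simp [hk4, hz1] at this⟩
  have hlam : ∀ j : ℕ, ∃ z : Fin (p + 2), z ≠ z0 ∧ z ≠ z1 ∧ z ≠ y j ∧ z ≠ y (j + 1) := by
    intro j
    by_contra hc
    push Not at hc
    have : (Finset.univ : Finset (Fin (p + 2))) ⊆ {z0, z1, y j, y (j + 1)} := by
      intro z _
      simp only [Finset.mem_insert, Finset.mem_singleton]
      by_contra hn
      simp only [not_or] at hn
      exact hn.2.2.2 (hc z hn.1 hn.2.1 hn.2.2.1)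
    have h1 := Finset.card_le_card this
    have h2 : ({z0, z1, y j, y (j + 1)} : Finset (Fin (p + 2))).card ≤ 4 := Finset.card_le_four
    rw [Finset.card_univ, hQ] at h1
    omega
  choose lam hlam0 hlam1 hlam2 hlam3 using hlam
  have hB : ∀ j : ℕ, ∃ π : Equiv.Perm (Fin (p + 2)), π z0 = z0 ∧ π z1 = z1 ∧
      π k4 = y j ∧ π k3 = lam j := fun j =>
    exists_perm (by simp [hk3, hk4]) (hlam2 j).symm (by simp [hk4, hz0, hz1])
      (by simp [hk3, hz0, hz1]) (hy0 j) ⟨hlam0 j, hlam1 j⟩
  have hC : ∀ j : ℕ, ∃ π : Equiv.Perm (Fin (p + 2)), π z0 = z0 ∧ π z1 = z1 ∧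
      π k4 = y j ∧ π k3 = lam (j - 1) := fun j =>
    exists_perm (by simp [hk3, hk4]) (by
        rcases Nat.eq_zero_or_pos j with rfl | hj
        · exact (hlam2 0).symm
        · have := hlam3 (j - 1)
          rw [Nat.sub_add_cancel hj] at this
          exact this.symm) (by simp [hk4, hz0, hz1])
      (by simp [hk3, hz0, hz1]) (hy0 j) ⟨hlam0 _, hlam1 _⟩
  choose πB hB0 hB1 hB4 hB3 using hB
  choose πC hC0 hC1 hC4 hC3 using hC
  set π : Fin (3 * E.length) → Equiv.Perm (Fin (p + 2)) := fun c =>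
    if c.1 % 3 = 0 then πA (c.1 / 3) else if c.1 % 3 = 1 then πB (c.1 / 3) else πC (c.1 / 3) with hπ
  refine (data E p hp).complete (hQ p) π (fun c => ?_) (fun c => ?_) (fun o ho => ?_)
    (fun o ho => ?_)
  · show π c z0 = z0
    simp only [hπ]
    split_ifs
    · exact hA0 _
    · exact hB0 _
    · exact hC0 _
  · show π c z1 = z1
    simp only [hπ]
    split_ifs
    · exact hA1 _
    · exact hB1 _
    · exact hC1 _
  · obtain ⟨⟨c, hcl⟩, k⟩ := o
    show π ⟨a1 E.length c k, _⟩ k = π ⟨c, hcl⟩ k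
    simp only [hπ]
    by_cases e4 : k.1 = 4
    · have hk : k = k4 := Fin.ext e4
      have this : a1 E.length c k = if c % 3 = 2 then c - 2 else c + 1 := by
        unfold a1; rw [if_pos e4]
      have hc3 : c % 3 = 0 ∨ c % 3 = 1 ∨ c % 3 = 2 := by omega
      rcases hc3 with h | h | h
      · rw [if_neg (by omega)] at this
        simp only [this]
        rw [hk, if_neg (by omega), if_pos (by omega), if_pos h, hB4,
          show (c + 1) / 3 = c / 3 by omega]
      · rw [if_neg (by omega)] at this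
        simp only [this]
        rw [hk, if_neg (by omega), if_neg (by omega), if_neg (by omega),
          if_pos h, hC4, hB4, show (c + 1) / 3 = c / 3 by omega]
      · rw [if_pos h] at this
        simp only [this]
        rw [hk, if_pos (by omega), if_neg (by omega), if_neg (by omega), hC4,
          show (c - 2) / 3 = c / 3 by omega]
    · by_cases e3 : k.1 = 3 ∧ c % 3 = 1 ∧ c + 4 < 3 * E.length
      · have hk : k = k3 := Fin.ext e3.1
        have : a1 E.length c k = c + 4 := by
          unfold a1; rw [if_neg e4, if_pos e3]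
        simp only [this]
        rw [hk, if_neg (by omega), if_neg (by omega), if_neg (by omega), if_pos (by omega),
          hC3, hB3, show (c + 4) / 3 - 1 = c / 3 by omega]
      · by_cases e3' : k.1 = 3 ∧ c % 3 = 2 ∧ 4 ≤ c
        · have hk : k = k3 := Fin.ext e3'.1
          have : a1 E.length c k = c - 4 := by
            unfold a1; rw [if_neg e4, if_neg e3, if_pos e3']
          simp only [this]
          rw [hk, if_neg (by omega), if_pos (by omega), if_neg (by omega), if_neg (by omega),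
            hC3, hB3, show (c - 4) / 3 = c / 3 - 1 by omega]
        · have : a1 E.length c k = c := by
            unfold a1; rw [if_neg e4, if_neg e3, if_neg e3']
          simp only [this]
  · obtain ⟨⟨c, hcl⟩, k⟩ := o
    show π ⟨(gN E c k).1, _⟩ ⟨(gN E c k).2, _⟩ = π ⟨c, hcl⟩ k
    by_cases hr : c % 3 = 0 ∧ (k.1 = 2 ∨ k.1 = 3)
    · have hv : ∀ t (ht : t < 2 * E.length), π ⟨3 * (t / 2), by omega⟩ ⟨2 + t % 2, by omega⟩ =
          χ' (val E t) := by
        intro t ht
        simp only [hπ]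
        rw [if_pos (by omega), show 3 * (t / 2) / 3 = t / 2 by omega]
        have h2 := hA2 (t / 2) (by omega)
        unfold val
        rcases Nat.mod_two_eq_zero_or_one t with h | h
        · rw [if_pos h]
          rw [← h2.1]
          congr 1
          exact Fin.ext (by simp only [hk2]; omega)
        · rw [if_neg (by omega)]
          rw [← h2.2]
          congr 1
          exact Fin.ext (by simp only [hk3]; omega)
      have ht : 2 * (c / 3) + (k.1 - 2) < 2 * E.length := by omega
      have e1 := hv _ ht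
      have e2 := hv _ (nx_lt E ht)
      rw [(i0_spec E ht).2.1] at e2
      have g1 : (gN E c k).1 = 3 * (nx E (2 * (c / 3) + (k.1 - 2)) / 2) := by
        unfold gN; rw [if_pos hr]
      have g2 : (gN E c k).2 = 2 + nx E (2 * (c / 3) + (k.1 - 2)) % 2 := by
        unfold gN; rw [if_pos hr]
      simp only [g1, g2]
      rw [e2, ← e1]
      have f1 : (⟨3 * ((2 * (c / 3) + (k.1 - 2)) / 2), by omega⟩ : Fin (3 * E.length)) =
          ⟨c, hcl⟩ := Fin.ext (by simp only; omega)
      have f2 : (⟨2 + (2 * (c / 3) + (k.1 - 2)) % 2, by omega⟩ : Fin (p + 2)) = k :=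
        Fin.ext (by simp only; omega)
      rw [f1, f2]
    · have : gN E c k = (c, k.1) := by unfold gN; rw [if_neg hr]
      simp only [this]

end data

end Pool.Agent.V11256.ST
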