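import Pool.Agent.V11256.ST.Frag

/-!
# Correctness of the construction
-/

set_option autoImplicit false
set_option linter.unusedSectionVars false

namespace Pool.Agent.V11256.ST

open Finset

namespace Dt

variable {C Q : Type} [Fintype C] [DecidableEq C] [Fintype Q] [DecidableEq Q] (X : Dt C Q)

/-- Valid vertices. -/
def vok (v : (C ⊕ (C × Q)) × (Q × Q)) : Prop := X.bok v.1 ∧ v.2.1 ≠ v.2.2

/-- The vertices. -/
abbrev V := {v : (C ⊕ (C × Q)) × (Q × Q) // X.vok v}

/-- The flags. -/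
abbrev F := {f : Fl C Q // X.fok f}

noncomputable instance : Fintype X.V := by classical exact Subtype.fintype _

noncomputable instance : Fintype X.F := by classical exact Subtype.fintype _

/-- The vertex of a flag. -/
def vt' (f : X.F) : X.V := ⟨Dt.vt f.1, f.2.1, f.2.2.1⟩

/-- Rotation of flags. -/
def R' (f : X.F) : X.F := ⟨X.R f.1, X.R_ok f.2⟩

theorem deg (v : X.V) : #{f : X.F | X.vt' f = v} = Fintype.card Q - 2 := by
  obtain ⟨⟨b, i, j⟩, hb, hij⟩ := v
  simp only at hij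
  have hc : #((univ.erase i).erase j) = Fintype.card Q - 2 := by
    rw [card_erase_of_mem (mem_erase.2 ⟨hij.symm, mem_univ _⟩), card_erase_of_mem (mem_univ _),
      card_univ]
    omega
  rw [← hc]
  symm
  refine card_bij (fun k hk => ⟨(b, i, j, k), hb, hij, ?_, ?_⟩) ?_ ?_ ?_
  · simp only [mem_erase, mem_univ, and_true] at hk; exact fun e => hk.1 e.symm
  · simp only [mem_erase, mem_univ, and_true] at hk; exact fun e => hk.2 e.symm
  · intro k hk
    simp only [mem_filter, mem_univ, true_and]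
    rfl
  · intro k hk k' hk' e
    simpa using e
  · rintro ⟨⟨b', i', j', k'⟩, hf⟩ h
    simp only [mem_filter, mem_univ, true_and, vt', vt, Subtype.mk.injEq, Prod.mk.injEq] at h
    obtain ⟨rfl, rfl, rfl⟩ := h
    refine ⟨k', ?_, rfl⟩
    simp only [mem_erase, mem_univ, and_true]
    exact ⟨fun e => hf.2.2.1 e.symm, fun e => hf.2.2.2 e.symm⟩

/-- The hypergraph. -/
noncomputable def fs {p : ℕ} (hQ : Fintype.card Q = p + 2) : FS X.V X.F p where
  vt := X.vt'
  R := X.R'
  R3 f := Subtype.ext (X.R3 f.2)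
  deg v := by rw [X.deg, hQ]; omega
  simp f := fun e => X.out_ne f.2 (by rw [← X.vt_R]; exact congrArg Subtype.val e)
  nb1 := by
    rintro ⟨⟨b, i, j, k⟩, hf⟩ ⟨⟨b', i', j', k'⟩, hg⟩ h h'
    simp only [vt', vt, Subtype.mk.injEq, Prod.mk.injEq] at h
    obtain ⟨rfl, rfl, rfl⟩ := h
    have e := congrArg Subtype.val h'
    change vt (X.R _) = vt (X.R _) at e
    rw [X.vt_R, X.vt_R] at e
    have := X.nb1 e
    subst this
    rfl
  nb2 := by
    rintro ⟨⟨b, i, j, k⟩, hf⟩ ⟨⟨b', i', j', k'⟩, hg⟩ h h'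
    simp only [vt', vt, Subtype.mk.injEq, Prod.mk.injEq] at h
    obtain ⟨rfl, rfl, rfl⟩ := h
    have e := congrArg Subtype.val h'
    change vt (X.R (X.R _)) = vt (X.R (X.R _)) at e
    rw [X.vt_RR hf, X.vt_RR hg] at e
    have := X.nb2 e
    subst this
    rfl
  nb3 := by
    rintro ⟨⟨b, i, j, k⟩, hf⟩ ⟨⟨b', i', j', k'⟩, hg⟩ h h'
    simp only [vt', vt, Subtype.mk.injEq, Prod.mk.injEq] at h
    obtain ⟨rfl, rfl, rfl⟩ := h
    have e := congrArg Subtype.val h'
    change vt (X.R _) = vt (X.R (X.R _)) at e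
    rw [X.vt_R, X.vt_RR hg] at e
    exact X.nb3 hf hg e

/-- The three special flags of the block `inr o`. -/
def fA (o : C × Q) (ho : X.ok o) : X.F :=
  ⟨(Sum.inr o, (X.z0, X.z1, X.z2)), ho, X.h01, X.h12, X.h02⟩
/-- The three special flags of the block `inr o`. -/
def fB (o : C × Q) (ho : X.ok o) : X.F :=
  ⟨(Sum.inr o, (X.z1, X.z2, X.z0)), ho, X.h12, X.h02.symm, X.h01.symm⟩
/-- The three special flags of the block `inr o`. -/
def fC (o : C × Q) (ho : X.ok o) : X.F :=
  ⟨(Sum.inr o, (X.z2, X.z0, X.z1)), ho, X.h02.symm, X.h01, X.h12.symm⟩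
/-- The flag of `(inl c, z0, z1)` for the slot `o = (c, k)`. -/
def fv (o : C × Q) (ho : X.ok o) : X.F :=
  ⟨(Sum.inl o.1, (X.z0, X.z1, o.2)), trivial, X.h01, ho.2.symm, ho.1.symm⟩

theorem R_fv (o : C × Q) (ho : X.ok o) : X.R' (X.fv o ho) = X.fB o ho :=
  Subtype.ext (X.R_a o.1 o.2)

theorem R_fB (o : C × Q) (ho : X.ok o) : X.R' (X.fB o ho) = X.fC (X.γ o) (X.ok_γ ho) :=
  Subtype.ext (X.R_B o)

theorem card_block (b : C ⊕ (C × Q)) (hb : X.bok b) :
    #{v : X.V | v.1.1 = b} = Fintype.card Q * Fintype.card Q - Fintype.card Q := by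
  rw [← card_univ, ← offDiag_card]
  symm
  refine card_bij (fun e he => ⟨(b, e), hb, by simpa using he⟩) ?_ ?_ ?_
  · intro e he; simp
  · intro e he e' he' h
    simpa using h
  · rintro ⟨⟨b', e⟩, hv⟩ h
    simp only [mem_filter, mem_univ, true_and] at h
    subst h
    exact ⟨e, by simpa using hv.2, rfl⟩

section sound

variable {p : ℕ} (hp : 3 ≤ p) (hQ : Fintype.card Q = p + 2) {Q' : Type} [Fintype Q']
  [DecidableEq Q'] (hQ' : Fintype.card Q' = p + 2) (Y : (X.fs hQ).Cov Q')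

include hp hQ' in
theorem blockW (o : C × Q) (ho : X.ok o) (t : Q' × Q' × Q') (ht : D t) :
    #{f ∈ ({X.fA o ho, X.fB o ho, X.fC o ho} : Finset X.F) | Y.im f = t} =
    #{f ∈ ({X.fA o ho, X.fB o ho, X.fC o ho} : Finset X.F) | Y.im f = rot t} := by
  classical
  refine Y.block3 hp hQ' ({v : X.V | v.1.1 = Sum.inr o})
    ({f : X.F | f.1.1 = Sum.inr o ∧ f.1.2 ≠ (X.z0, X.z1, X.z2) ∧ f.1.2 ≠ (X.z1, X.z2, X.z0) ∧
      f.1.2 ≠ (X.z2, X.z0, X.z1)}) _ ?_ ?_ ?_ ?_ card_le_three t ht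
  · rw [X.card_block (Sum.inr o) ho, hQ, hQ']
  · rw [disjoint_left]
    intro f hf hf'
    simp only [mem_filter, mem_univ, true_and] at hf
    simp only [mem_insert, mem_singleton] at hf'
    rcases hf' with rfl | rfl | rfl
    · exact hf.2.1 rfl
    · exact hf.2.2.1 rfl
    · exact hf.2.2.2 rfl
  · rintro ⟨⟨b, t⟩, hf⟩
    simp only [mem_filter, mem_univ, true_and, mem_union, mem_insert, mem_singleton]
    constructor
    · intro h
      change b = Sum.inr o at h
      subst h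
      by_cases e1 : t = (X.z0, X.z1, X.z2)
      · subst e1; exact Or.inr (Or.inl rfl)
      · by_cases e2 : t = (X.z1, X.z2, X.z0)
        · subst e2; exact Or.inr (Or.inr (Or.inl rfl))
        · by_cases e3 : t = (X.z2, X.z0, X.z1)
          · subst e3; exact Or.inr (Or.inr (Or.inr rfl))
          · exact Or.inl ⟨rfl, e1, e2, e3⟩
    · rintro (h | h | h | h)
      · exact h.1
      · rw [h]; rfl
      · rw [h]; rfl
      · rw [h]; rfl
  · rintro ⟨⟨b, i, j, k⟩, hf⟩ h
    simp only [mem_filter, mem_univ, true_and] at h ⊢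
    obtain ⟨h0, h1, h2, h3⟩ := h
    subst h0
    have : (X.fs hQ).R ⟨(Sum.inr o, i, j, k), hf⟩ = ⟨(Sum.inr o, rot (i, j, k)), hf.1, D_rot hf.2⟩ :=
      Subtype.ext (X.R_nr _ _ h1 h2 h3)
    rw [this]
    refine ⟨rfl, fun e => h3 ?_, fun e => h1 ?_, fun e => h2 ?_⟩ <;>
    · simp only [rot, Prod.mk.injEq] at e ⊢; tauto

include hp hQ' in
theorem blockK (c : C) : ∃ e : Q' × Q', ∀ o (ho : X.ok o), (X.α o).1 = c →
    Y.h (X.vt' (X.fA o ho)) = e := by
  classical
  have hmain := Y.blockp hp hQ' ({v : X.V | v.1.1 = Sum.inl c ∧ v.1.2 ≠ (X.z0, X.z1)})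
    ({f : X.F | X.vt' f ∈ ({v : X.V | v.1.1 = Sum.inl c ∧ v.1.2 ≠ (X.z0, X.z1)} : Finset X.V) ∨
      f ∈ ({f : X.F | ∃ o, f.1 = (Sum.inr o, (X.z0, X.z1, X.z2)) ∧ (X.α o).1 = c} : Finset X.F)})
    ({f : X.F | ∃ o, f.1 = (Sum.inr o, (X.z0, X.z1, X.z2)) ∧ (X.α o).1 = c}) ?_ ?_ ?_ ?_ ?_
  · obtain ⟨e, he⟩ := hmain
    exact ⟨e, fun o ho h => he _ (by simp only [mem_filter, mem_univ, true_and]; exact ⟨o, rfl, h⟩)⟩
  · have h1 := X.card_block (Sum.inl c) trivial
    have h2 : ({v : X.V | v.1.1 = Sum.inl c ∧ v.1.2 ≠ (X.z0, X.z1)} : Finset X.V) =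
        ({v : X.V | v.1.1 = Sum.inl c} : Finset X.V).erase
          ⟨(Sum.inl c, (X.z0, X.z1)), trivial, X.h01⟩ := by
      ext ⟨⟨b, e⟩, hv⟩
      simp only [mem_filter, mem_univ, true_and, mem_erase, ne_eq, Subtype.mk.injEq,
        Prod.mk.injEq]
      tauto
    rw [h2, card_erase_of_mem (by simp), h1, hQ, hQ']
    have : (p + 2) * (p + 2) - (p + 2) = (p + 2) * (p + 1) := by
      rw [← Nat.mul_sub_one]; rfl
    have h3 : 0 < (p + 2) * (p + 1) := by positivity
    omega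
  · intro f hf
    simp only [mem_filter, mem_univ, true_and] at hf ⊢
    obtain ⟨o, ho, _⟩ := hf
    intro h
    have : f.1.1 = Sum.inl c := h.1
    rw [ho] at this
    simp at this
  · intro f
    rw [mem_filter]
    exact ⟨fun h => h.2, fun h => ⟨mem_univ _, h⟩⟩
  · intro f hf
    rw [mem_filter] at hf ⊢
    refine ⟨mem_univ _, ?_⟩
    obtain ⟨⟨b, i, j, k⟩, hfo⟩ := f
    rcases hf.2 with h | h
    · simp only [mem_filter, mem_univ, true_and] at h
      obtain ⟨h1, h2⟩ := h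
      change b = Sum.inl c at h1
      change (i, j) ≠ (X.z0, X.z1) at h2
      subst h1
      obtain ⟨_, g1, g2, g3⟩ := hfo
      by_cases e : j = X.z0 ∧ k = X.z1
      · obtain ⟨rfl, rfl⟩ := e
        right
        simp only [mem_filter, mem_univ, true_and]
        exact ⟨_, X.R_c _ _ g1, by simp⟩
      · left
        have h2' : ¬ (i = X.z0 ∧ j = X.z1) := fun h => h2 (by rw [h.1, h.2])
        have := X.R_nl c (i, j, k) h2' e
        simp only [mem_filter, mem_univ, true_and]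
        constructor
        · change (X.R (Sum.inl c, i, j, k)).1 = _
          rw [this]
        · change (vt (X.R (Sum.inl c, i, j, k))).2 ≠ _
          rw [this]
          intro h
          simp only [vt, rot, Prod.mk.injEq] at h
          exact e h
    · simp only [mem_filter, mem_univ, true_and] at h
      obtain ⟨o, h1, h2⟩ := h
      have ho : X.ok o := by
        have := hfo.1
        simp only [Prod.mk.injEq] at h1
        rw [h1.1] at this
        exact this
      left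
      simp only [mem_filter, mem_univ, true_and]
      have h3 : X.R (b, i, j, k) = (Sum.inl (X.α o).1, (X.z1, (X.α o).2, X.z0)) := by
        rw [h1]; exact X.R_A o
      constructor
      · change (X.R (b, i, j, k)).1 = _
        rw [h3, h2]
      · change (vt (X.R (b, i, j, k))).2 ≠ _
        rw [h3]
        intro h
        simp only [vt, Prod.mk.injEq] at h
        exact X.h01 h.1.symm
  · have hc : #((univ.erase X.z0).erase X.z1) = p := by
      rw [card_erase_of_mem (mem_erase.2 ⟨X.h01.symm, mem_univ _⟩), card_erase_of_mem (mem_univ _),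
        card_univ, hQ]
      omega
    refine Eq.trans ?_ hc
    symm
    refine card_bij (fun k hk => X.fA (X.α.symm (c, k)) (X.ok_αs ?_)) ?_ ?_ ?_
    · simp only [mem_erase, mem_univ, and_true] at hk
      exact ⟨hk.2, hk.1⟩
    · intro k hk
      simp only [mem_filter, mem_univ, true_and]
      exact ⟨_, rfl, by simp⟩
    · intro k hk k' hk' e
      have := congrArg (fun f => f.1.1) e
      simpa [fA] using this
    · rintro ⟨f, hfo⟩ h
      simp only [mem_filter, mem_univ, true_and] at h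
      obtain ⟨o, rfl, h2⟩ := h
      have ho : X.ok o := hfo.1
      have := X.ok_α ho
      refine ⟨(X.α o).2, by simp only [mem_erase, mem_univ, and_true]; exact ⟨this.2, this.1⟩, ?_⟩
      apply Subtype.ext
      simp only [fA, Prod.mk.injEq, and_true, Sum.inr.injEq]
      rw [Equiv.symm_apply_eq, ← h2]

/-- Rotations of a triple. -/
def SR (t s : Q' × Q' × Q') : Prop := s = t ∨ s = rot t ∨ s = rot (rot t)

theorem SR.symm {t s : Q' × Q' × Q'} (h : SR t s) : SR s t := by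
  rcases h with rfl | rfl | rfl
  · exact Or.inl rfl
  · exact Or.inr (Or.inr rfl)
  · exact Or.inr (Or.inl rfl)

theorem SR.trans {t s r : Q' × Q' × Q'} (h : SR t s) (h' : SR s r) : SR t r := by
  rcases h with rfl | rfl | rfl <;> rcases h' with rfl | rfl | rfl
  · exact Or.inl rfl
  · exact Or.inr (Or.inl rfl)
  · exact Or.inr (Or.inr rfl)
  · exact Or.inr (Or.inl rfl)
  · exact Or.inr (Or.inr rfl)
  · exact Or.inl rfl
  · exact Or.inr (Or.inr rfl)
  · exact Or.inl rfl
  · exact Or.inr (Or.inl rfl)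

include hp hQ' in
theorem portsW (o : C × Q) (ho : X.ok o) :
    (Y.im (X.fB o ho) = rot (Y.im (X.fA o ho)) ∧ Y.im (X.fC o ho) = rot (rot (Y.im (X.fA o ho)))) ∨
    (Y.im (X.fB o ho) = rot (rot (Y.im (X.fA o ho))) ∧ Y.im (X.fC o ho) = rot (Y.im (X.fA o ho))) := by
  classical
  set a := Y.im (X.fA o ho) with ha
  have hD : D a := Y.im_D _
  have h1 := X.blockW hp hQ hQ' Y o ho a hD
  have h2 := X.blockW hp hQ hQ' Y o ho (rot a) (D_rot hD)
  have hpos : 0 < #{f ∈ ({X.fA o ho, X.fB o ho, X.fC o ho} : Finset X.F) | Y.im f = a} :=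
    card_pos.2 ⟨X.fA o ho, by simp [ha]⟩
  have hpos1 : 0 < #{f ∈ ({X.fA o ho, X.fB o ho, X.fC o ho} : Finset X.F) | Y.im f = rot a} := by
    omega
  have hpos2 : 0 < #{f ∈ ({X.fA o ho, X.fB o ho, X.fC o ho} : Finset X.F) |
      Y.im f = rot (rot a)} := by omega
  obtain ⟨f, hf⟩ := card_pos.1 hpos1
  obtain ⟨g, hg⟩ := card_pos.1 hpos2
  simp only [mem_filter, mem_insert, mem_singleton] at hf hg
  have n1 := rot_ne hD
  have n2 := rot2_ne hD
  have n3 : rot (rot a) ≠ rot a := fun e => n1 (rot_inj e)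
  obtain ⟨hf1, hf2⟩ := hf
  obtain ⟨hg1, hg2⟩ := hg
  rcases hf1 with rfl | rfl | rfl
  · exact absurd (hf2.symm.trans ha.symm) n1
  · rcases hg1 with rfl | rfl | rfl
    · exact absurd (hg2.symm.trans ha.symm) n2
    · exact absurd (hg2.symm.trans hf2) n3
    · exact Or.inl ⟨hf2, hg2⟩
  · rcases hg1 with rfl | rfl | rfl
    · exact absurd (hg2.symm.trans ha.symm) n2
    · exact Or.inr ⟨hg2, hf2⟩
    · exact absurd (hg2.symm.trans hf2) n3

theorem portsT (o : C × Q) (ho : X.ok o) :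
    (Y.im (X.fB o ho) = rot (Y.im (X.fv o ho)) ∧
      Y.im (X.fC (X.γ o) (X.ok_γ ho)) = rot (rot (Y.im (X.fv o ho)))) ∨
    (Y.im (X.fB o ho) = rot (rot (Y.im (X.fv o ho))) ∧
      Y.im (X.fC (X.γ o) (X.ok_γ ho)) = rot (Y.im (X.fv o ho))) := by
  have h := Y.im_rot (X.fv o ho)
  have h1 : (X.fs hQ).R (X.fv o ho) = X.fB o ho := X.R_fv o ho
  have h2 : (X.fs hQ).R (X.fB o ho) = X.fC (X.γ o) (X.ok_γ ho) := X.R_fB o ho
  rw [h1, h2] at h
  exact h

include hp hQ' in
/-- Star colourings of the graph give labels of the slots. -/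
theorem sound (hconn : ∀ (T : Type) (f g : C → T),
      (∀ o, X.ok o → X.γ o = o → f o.1 = g (X.α o).1) → ∀ c c', f c = f c')
    {col : X.V → Q'} (hc : IsStar (X.fs hQ).G col) :
    ∃ (x y : Q') (l : C × Q → Q'), x ≠ y ∧ (∀ o, X.ok o → l o ≠ x ∧ l o ≠ y) ∧
      (∀ c k k', X.ok (c, k) → X.ok (c, k') → l (c, k) = l (c, k') → k = k') ∧
      ∀ o, X.ok o → l (X.γ o) = l o := by
  classical
  obtain ⟨Y⟩ := (X.fs hQ).exists_cov (by omega) hQ' hc
  have hv : ∀ c : C, X.vok (Sum.inl c, (X.z0, X.z1)) := fun c => ⟨trivial, X.h01⟩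
  set ν : C → Q' × Q' := fun c => Y.h ⟨(Sum.inl c, (X.z0, X.z1)), hv c⟩ with hν
  choose κ hκ using X.blockK hp hQ hQ' Y
  have hνκ : ∀ o, X.ok o → X.γ o = o → ν o.1 = κ (X.α o).1 := by
    intro o ho hγo
    have e1 := X.portsW hp hQ hQ' Y o ho
    have e2 := X.portsT hQ Y o ho
    have e3 : X.fC (X.γ o) (X.ok_γ ho) = X.fC o ho := by
      apply Subtype.ext; simp only [fC, hγo]
    rw [e3] at e2
    have e4 : Y.im (X.fv o ho) = Y.im (X.fA o ho) := by
      have hD := Y.im_D (X.fv o ho)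
      rcases e1 with ⟨a1, a2⟩ | ⟨a1, a2⟩ <;> rcases e2 with ⟨b1, b2⟩ | ⟨b1, b2⟩
      · exact rot_inj (b1.symm.trans a1)
      · exfalso
        have c1 : rot (Y.im (X.fv o ho)) = Y.im (X.fA o ho) := rot_inj (b1.symm.trans a1)
        have c2 : Y.im (X.fv o ho) = rot (Y.im (X.fA o ho)) := rot_inj (b2.symm.trans a2)
        rw [← c1] at c2
        exact rot2_ne hD c2.symm
      · exfalso
        have c1 : Y.im (X.fv o ho) = rot (Y.im (X.fA o ho)) := rot_inj (b1.symm.trans a1)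
        have c2 : rot (Y.im (X.fv o ho)) = Y.im (X.fA o ho) := rot_inj (b2.symm.trans a2)
        rw [← c2] at c1
        exact rot2_ne hD c1.symm
      · exact rot_inj (b2.symm.trans a2)
    have e5 := hκ (X.α o).1 o ho rfl
    rw [← e5]
    simp only [FS.Cov.im, Prod.mk.injEq] at e4
    exact Prod.ext e4.1 e4.2.1
  have hconst := hconn _ ν κ hνκ
  have hne : Nonempty Q' := Fintype.card_pos_iff.1 (by omega)
  have hxy : ∃ x y : Q', x ≠ y ∧ ∀ c, ν c = (x, y) := by
    by_cases hC : Nonempty C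
    · obtain ⟨c0⟩ := hC
      exact ⟨(ν c0).1, (ν c0).2, Y.arc_ne (by omega) _, fun c => hconst c c0⟩
    · have : 1 < Fintype.card Q' := by omega
      obtain ⟨x, y, h⟩ := Fintype.one_lt_card_iff.1 this
      exact ⟨x, y, h, fun c => absurd ⟨c⟩ hC⟩
  obtain ⟨x, y, hxy, hall⟩ := hxy
  have him : ∀ o (ho : X.ok o), Y.im (X.fv o ho) = (x, y, Y.lab (X.fv o ho)) := by
    intro o ho
    have h2 := hall o.1
    have h1 : Y.h ((X.fs hQ).vt (X.fv o ho)) = (x, y) := h2
    simp only [FS.Cov.im, h1]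
  refine ⟨x, y, fun o => if ho : X.ok o then Y.lab (X.fv o ho) else x, hxy, fun o ho => ?_,
    fun c k k' hk hk' h => ?_, fun o ho => ?_⟩
  · simp only [dif_pos ho]
    have h := Y.im_D (X.fv o ho)
    rw [him] at h
    exact ⟨h.2.2.symm, h.2.1.symm⟩
  · simp only [dif_pos hk, dif_pos hk'] at h
    have := Y.unique (X.fv (c, k) hk) (X.fv (c, k') hk') rfl h
    have h2 := congrArg (fun f => f.1.2.2.2) this
    exact h2
  · simp only [dif_pos ho, dif_pos (X.ok_γ ho)]
    have s1 : SR (Y.im (X.fv o ho)) (Y.im (X.fC (X.γ o) (X.ok_γ ho))) := by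
      rcases X.portsT hQ Y o ho with h | h
      · exact Or.inr (Or.inr h.2)
      · exact Or.inr (Or.inl h.2)
    have s2 : SR (Y.im (X.fA (X.γ o) (X.ok_γ ho))) (Y.im (X.fC (X.γ o) (X.ok_γ ho))) := by
      rcases X.portsW hp hQ hQ' Y (X.γ o) (X.ok_γ ho) with h | h
      · exact Or.inr (Or.inr h.2)
      · exact Or.inr (Or.inl h.2)
    have s3 : SR (Y.im (X.fA (X.γ o) (X.ok_γ ho))) (Y.im (X.fB (X.γ o) (X.ok_γ ho))) := by
      rcases X.portsW hp hQ hQ' Y (X.γ o) (X.ok_γ ho) with h | h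
      · exact Or.inr (Or.inl h.1)
      · exact Or.inr (Or.inr h.1)
    have s4 : SR (Y.im (X.fv (X.γ o) (X.ok_γ ho))) (Y.im (X.fB (X.γ o) (X.ok_γ ho))) := by
      rcases X.portsT hQ Y (X.γ o) (X.ok_γ ho) with h | h
      · exact Or.inr (Or.inl h.1)
      · exact Or.inr (Or.inr h.1)
    have s5 := ((s1.trans s2.symm).trans s3).trans s4.symm
    rw [him, him] at s5
    have hD := Y.im_D (X.fv o ho)
    rw [him] at hD
    rcases s5 with h | h | h
    · simp only [Prod.mk.injEq, true_and] at h; exact h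
    · simp only [rot, Prod.mk.injEq] at h; exact absurd h.1 hxy
    · simp only [rot, Prod.mk.injEq] at h; exact absurd h.1.symm hD.2.2.symm

end sound

/-- Labels of the slots give star colourings of the graph. -/
theorem complete {p : ℕ} (hQ : Fintype.card Q = p + 2) (π : C → Equiv.Perm Q)
    (h0 : ∀ c, π c X.z0 = X.z0) (h1 : ∀ c, π c X.z1 = X.z1)
    (hα : ∀ o, X.ok o → π (X.α o).1 (X.α o).2 = π o.1 o.2)
    (hγ : ∀ o, X.ok o → π (X.γ o).1 (X.γ o).2 = π o.1 o.2) :
    ∃ col : X.V → Q, IsStar (X.fs hQ).G col := by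
  classical
  set P : C ⊕ (C × Q) → Equiv.Perm Q := fun b => match b with
    | Sum.inl c => π c
    | Sum.inr o => Equiv.swap X.z2 (π o.1 o.2) with hP
  have hPz : ∀ o, X.ok o → P (Sum.inr o) X.z0 = X.z0 ∧ P (Sum.inr o) X.z1 = X.z1 ∧
      P (Sum.inr o) X.z2 = π o.1 o.2 := by
    intro o ho
    have g0 : π o.1 o.2 ≠ X.z0 := fun e => ho.1 ((π o.1).injective (e.trans (h0 _).symm))
    have g1 : π o.1 o.2 ≠ X.z1 := fun e => ho.2 ((π o.1).injective (e.trans (h1 _).symm))
    simp only [hP]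
    exact ⟨Equiv.swap_apply_of_ne_of_ne X.h02 g0.symm,
      Equiv.swap_apply_of_ne_of_ne X.h12 g1.symm, Equiv.swap_apply_left _ _⟩
  set im : Fl C Q → Q × Q × Q := fun f => (P f.1 f.2.1, P f.1 f.2.2.1, P f.1 f.2.2.2) with him
  have hαs : ∀ o, X.ok o → π (X.α.symm o).1 (X.α.symm o).2 = π o.1 o.2 := fun o ho => by
    have := hα _ (X.ok_αs ho)
    rw [Equiv.apply_symm_apply] at this
    exact this.symm
  have hγs : ∀ o, X.ok o → π (X.γ.symm o).1 (X.γ.symm o).2 = π o.1 o.2 := fun o ho => by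
    have := hγ _ (X.ok_γs ho)
    rw [Equiv.apply_symm_apply] at this
    exact this.symm
  have hR : ∀ f, X.fok f → im (X.R f) = rot (im f) := by
    rintro ⟨b, i, j, k⟩ ⟨hb, g1, g2, g3⟩
    simp only at g1 g2 g3
    rcases b with c | o
    · by_cases e1 : i = X.z0 ∧ j = X.z1
      · obtain ⟨rfl, rfl⟩ := e1
        have hk : X.ok (c, k) := ⟨g3.symm, g2.symm⟩
        obtain ⟨q0, q1, q2⟩ := hPz _ hk
        rw [R_a]
        simp only [him, rot, q0, q1, q2]
        simp only [hP, h0, h1]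
      · by_cases e2 : j = X.z0 ∧ k = X.z1
        · obtain ⟨rfl, rfl⟩ := e2
          have hk : X.ok (c, i) := ⟨g1, g3⟩
          obtain ⟨q0, q1, q2⟩ := hPz _ (X.ok_αs hk)
          rw [R_c _ _ _ g1]
          simp only [him, rot, q0, q1, q2, hαs _ hk]
          simp only [hP, h0, h1]
        · rw [R_nl _ _ _ e1 e2]
          rfl
    · obtain ⟨q0, q1, q2⟩ := hPz _ hb
      by_cases e1 : (i, j, k) = (X.z0, X.z1, X.z2)
      · rw [e1, R_A]
        simp only [him, rot, q0, q1, q2]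
        simp only [hP, h0, h1, hα o hb]
      · by_cases e2 : (i, j, k) = (X.z1, X.z2, X.z0)
        · rw [e2, R_B]
          obtain ⟨r0, r1, r2⟩ := hPz _ (X.ok_γ hb)
          simp only [him, rot, q0, q1, q2, r0, r1, r2, hγ o hb]
        · by_cases e3 : (i, j, k) = (X.z2, X.z0, X.z1)
          · rw [e3, R_C]
            simp only [him, rot, q0, q1, q2]
            simp only [hP, h0, h1, hγs o hb]
          · rw [R_nr _ _ _ e1 e2 e3]
            rfl
  refine ⟨_, (X.fs hQ).star_of_cov (Q := Q) ⟨fun v => (P v.1.1 v.1.2.1, P v.1.1 v.1.2.2),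
    fun f => P f.1.1 f.1.2.2.2, fun f => ?_, fun f => ?_, fun v z hz1 hz2 => ?_,
    fun f g hfg hl => ?_⟩⟩
  · have := f.2.2
    exact ⟨fun e => this.1 ((P _).injective e), fun e => this.2.1 ((P _).injective e),
      fun e => this.2.2 ((P _).injective e)⟩
  · left
    have e1 := hR f.1 f.2
    have e2 := hR (X.R f.1) (X.R_ok f.2)
    refine ⟨e1, ?_⟩
    rw [e1] at e2
    exact e2
  · obtain ⟨⟨b, i, j⟩, hb, hij⟩ := v
    simp only at hz1 hz2
    refine ⟨⟨(b, i, j, (P b).symm z), hb, hij, fun e => hz2 ?_, fun e => hz1 ?_⟩, rfl, ?_⟩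
    · simp only at e; rw [e]; simp
    · simp only at e; rw [e]; simp
    · simp
  · obtain ⟨⟨b, i, j, k⟩, hf⟩ := f
    obtain ⟨⟨b', i', j', k'⟩, hg⟩ := g
    have h2 : X.vt' _ = X.vt' _ := hfg
    simp only [vt', vt, Subtype.mk.injEq, Prod.mk.injEq] at h2
    obtain ⟨rfl, rfl, rfl⟩ := h2
    have := (P b).injective hl
    simp only at this
    subst this
    rfl

end Dt

end Pool.Agent.V11256.ST
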